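import Pool.Agent.H965R2.SM_T1

set_option autoImplicit false

/-!
# From Gamma-weighted lower bounds to `∫_T^{(1+δ)T}`
(local version of `Pool.Agent.H965R2.SMT1.window_gamma`)
-/

namespace Pool.Agent.H601R2.SMLoc

open Finset Filter Topology MeasureTheory Pool.Agent.H306R2 Pool.Agent.H306R2.SM
open Pool.Agent.H965R2.SMT1

noncomputable section

theorem hasSum_exp' (u : ℝ) : HasSum (fun n : ℕ => u ^ n / (n.factorial : ℝ)) (Real.exp u) := by
  rw [Real.exp_eq_exp_ℝ]
  exact NormedSpace.expSeries_div_hasSum_exp u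

/-- lower tail of the Poisson distribution -/
theorem Ph_lower (k : ℕ) {v : ℝ} (hv0 : 0 ≤ v) (hv : v ≤ 1) :
    1 - Ph k (k * v) ≤ (v * Real.exp (1 - v)) ^ k := by
  have h1 := (hasSum_nat_add_iff' k).2 (hasSum_exp' (k * v))
  have h2 := ((hasSum_nat_add_iff' k).2 (hasSum_exp' (k : ℝ))).mul_left (v ^ k)
  have h3 : Real.exp (k * v) - ∑ i ∈ range k, ((k : ℝ) * v) ^ i / (i.factorial : ℝ) ≤
      v ^ k * (Real.exp k - ∑ i ∈ range k, (k : ℝ) ^ i / (i.factorial : ℝ)) := by
    refine hasSum_le (fun j => ?_) h1 h2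
    rw [mul_pow, ← mul_div_assoc]
    apply div_le_div_of_nonneg_right _ (by positivity)
    rw [mul_comm (v ^ k)]
    apply mul_le_mul_of_nonneg_left _ (by positivity)
    exact pow_le_pow_of_le_one hv0 hv (by omega)
  have h4 : v ^ k * (Real.exp k - ∑ i ∈ range k, (k : ℝ) ^ i / (i.factorial : ℝ)) ≤
      v ^ k * Real.exp k := by
    apply mul_le_mul_of_nonneg_left _ (by positivity)
    have : 0 ≤ ∑ i ∈ range k, (k : ℝ) ^ i / (i.factorial : ℝ) := by positivity
    linarith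
  have h5 : 1 - Ph k (k * v) = Real.exp (-(k * v)) *
      (Real.exp (k * v) - ∑ i ∈ range k, ((k : ℝ) * v) ^ i / (i.factorial : ℝ)) := by
    unfold Ph
    rw [mul_sub, ← Real.exp_add]
    simp
  rw [h5]
  calc Real.exp (-(k * v)) * (Real.exp (k * v) - ∑ i ∈ range k, ((k : ℝ) * v) ^ i / (i.factorial : ℝ))
      ≤ Real.exp (-(k * v)) * (v ^ k * Real.exp k) :=
        mul_le_mul_of_nonneg_left (h3.trans h4) (Real.exp_pos _).le
    _ = (v * Real.exp (1 - v)) ^ k := by
        rw [mul_pow, ← Real.exp_nat_mul, mul_left_comm, ← Real.exp_add]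
        congr 2
        ring

theorem lint_W' {k : ℕ} (hk : 1 ≤ k) {t a b : ℝ} (ht : 0 < t) (ha : 0 < a) (hab : a ≤ b) :
    ∫⁻ x in Set.Ioc a b, ENNReal.ofReal (om k (k / x) t) ≤
      ENNReal.ofReal (Ph k (k * t / b) - Ph k (k * t / a)) := by
  have hcont : ContinuousOn (fun x : ℝ => om k (k / x) t) (Set.uIcc a b) := by
    rw [Set.uIcc_of_le hab]
    unfold om
    have h1 : ContinuousOn (fun x : ℝ => (k : ℝ) / x) (Set.Icc a b) :=
      continuousOn_const.div continuousOn_id fun x hx => (ha.trans_le hx.1).ne'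
    exact (((h1.pow _).mul continuousOn_const).mul
      ((h1.mul continuousOn_const).neg.rexp)).div_const _
  have hint : IntervalIntegrable (fun x : ℝ => om k (k / x) t) volume a b :=
    hcont.intervalIntegrable
  have h1 : ∫ x in a..b, om k (k / x) t = Ph k (k * t / b) - Ph k (k * t / a) := by
    apply intervalIntegral.integral_eq_sub_of_hasDerivAt (f := fun y => Ph k (k * t / y)) _ hint
    intro x hx
    rw [Set.uIcc_of_le hab] at hx
    exact W_hasDeriv hk ht (ha.trans_le hx.1)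
  rw [intervalIntegral.integral_of_le hab] at h1
  rw [← ofReal_integral_eq_lintegral_ofReal
    ((intervalIntegrable_iff_integrableOn_Ioc_of_le hab).1 hint), h1]
  filter_upwards [ae_restrict_mem measurableSet_Ioc] with x hx
  have hx0 : 0 < x := ha.trans hx.1
  exact om_nonneg (by positivity) ht.le

/-- main inequality for one `T` -/
theorem main_T' {f : ℝ → ℝ} (hf : Continuous f) (hf0 : ∀ t, 0 ≤ f t) {k : ℕ} (hk : 1 ≤ k)
    {a b T T' c1 : ℝ} (ha : 0 < a) (hab : a ≤ b) (hT : 0 < T) (hTT : T ≤ T')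
    (hc1 : 0 ≤ c1)
    (hlow : ∀ x ∈ Set.Ioc a b, c1 ≤ ∫ t in Set.Ioi (0 : ℝ), om k (k / x) t * f t)
    (hhead : ∀ t, 0 < t → t ≤ T → f t * (1 - Ph k (k * t / a)) ≤ 1 / T ^ 2)
    (htail : ∀ t, T' < t → f t * Ph k (k * t / b) ≤ t ^ (-2 : ℝ)) :
    c1 * (b - a) ≤ (∫ t in T..T', f t) + 1 / T + 1 / T' := by
  have hb : 0 < b := ha.trans_le hab
  have hT' : 0 < T' := hT.trans_le hTT
  have hstep1 : ENNReal.ofReal (c1 * (b - a)) ≤
      ∫⁻ x in Set.Ioc a b, ∫⁻ t in Set.Ioi (0 : ℝ), ENNReal.ofReal (om k (k / x) t * f t) := by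
    have h1 : ENNReal.ofReal (c1 * (b - a)) = ∫⁻ _ in Set.Ioc a b, ENNReal.ofReal c1 := by
      rw [setLIntegral_const, Real.volume_Ioc, ENNReal.ofReal_mul hc1]
    rw [h1]
    apply setLIntegral_mono' measurableSet_Ioc
    intro x hx
    have hx0 : 0 < x := ha.trans hx.1
    refine (ENNReal.ofReal_le_ofReal (hlow x hx)).trans ?_
    rw [integral_eq_lintegral_of_nonneg_ae]
    · exact ENNReal.ofReal_toReal_le
    · filter_upwards [ae_restrict_mem measurableSet_Ioi] with t ht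
      exact mul_nonneg (om_nonneg (by positivity) (le_of_lt ht)) (hf0 t)
    · apply Measurable.aestronglyMeasurable
      unfold om
      fun_prop
  have hmeas : Measurable (Function.uncurry fun (x t : ℝ) =>
      ENNReal.ofReal (om k (k / x) t * f t)) := by
    unfold om Function.uncurry
    have := hf.measurable
    fun_prop
  rw [lintegral_lintegral_swap hmeas.aemeasurable] at hstep1
  have hstep2 : ∫⁻ t in Set.Ioi (0 : ℝ), ∫⁻ x in Set.Ioc a b,
      ENNReal.ofReal (om k (k / x) t * f t) ≤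
      ∫⁻ t in Set.Ioi (0 : ℝ), ENNReal.ofReal (f t) *
        ENNReal.ofReal (Ph k (k * t / b) - Ph k (k * t / a)) := by
    apply setLIntegral_mono' measurableSet_Ioi
    intro t ht
    have h1 : ∀ x, ENNReal.ofReal (om k (k / x) t * f t) =
        ENNReal.ofReal (f t) * ENNReal.ofReal (om k (k / x) t) := by
      intro x
      rw [mul_comm, ENNReal.ofReal_mul (hf0 t)]
    simp_rw [h1]
    rw [lintegral_const_mul' _ _ ENNReal.ofReal_ne_top]
    gcongr
    exact lint_W' hk ht ha hab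
  have hsplit : Set.Ioi (0 : ℝ) = (Set.Ioc 0 T ∪ Set.Ioc T T') ∪ Set.Ioi T' := by
    rw [Set.Ioc_union_Ioc_eq_Ioc hT.le hTT, Set.Ioc_union_Ioi_eq_Ioi hT'.le]
  have hI0 : 0 ≤ ∫ t in T..T', f t := intervalIntegral.integral_nonneg hTT fun t _ => hf0 t
  have hstep3 : ∫⁻ t in Set.Ioi (0 : ℝ), ENNReal.ofReal (f t) *
      ENNReal.ofReal (Ph k (k * t / b) - Ph k (k * t / a)) ≤
      ENNReal.ofReal (1 / T + (∫ t in T..T', f t) + 1 / T') := by
    have hdisj : Disjoint (Set.Ioc 0 T ∪ Set.Ioc T T') (Set.Ioi T') := by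
      rw [Set.Ioc_union_Ioc_eq_Ioc hT.le hTT]
      exact Set.Ioc_disjoint_Ioi le_rfl
    rw [hsplit, lintegral_union measurableSet_Ioi hdisj,
      lintegral_union measurableSet_Ioc (Set.Ioc_disjoint_Ioc_of_le le_rfl),
      ENNReal.ofReal_add (by positivity) (by positivity),
      ENNReal.ofReal_add (by positivity) hI0]
    apply add_le_add
    apply add_le_add
    · -- head
      have h1 : ENNReal.ofReal (1 / T) = ∫⁻ _ in Set.Ioc 0 T, ENNReal.ofReal (1 / T ^ 2) := by
        rw [setLIntegral_const, Real.volume_Ioc, ← ENNReal.ofReal_mul (by positivity)]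
        congr 1
        field_simp
        ring
      rw [h1]
      apply setLIntegral_mono' measurableSet_Ioc
      intro t ht
      rw [← ENNReal.ofReal_mul (hf0 t)]
      apply ENNReal.ofReal_le_ofReal
      refine le_trans ?_ (hhead t ht.1 ht.2)
      apply mul_le_mul_of_nonneg_left _ (hf0 t)
      have h2 : Ph k (k * t / b) ≤ 1 := Ph_le_one k (by have := ht.1; positivity)
      linarith
    · rw [intervalIntegral.integral_of_le hTT, ofReal_integral_eq_lintegral_ofReal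
        ((hf.intervalIntegrable T T').1) (Filter.Eventually.of_forall fun t => hf0 t)]
      apply setLIntegral_mono' measurableSet_Ioc
      intro t ht
      have ht0 : 0 < t := hT.trans ht.1
      have h1 : Ph k (k * t / b) ≤ 1 := Ph_le_one k (by positivity)
      have h2 : 0 ≤ Ph k (k * t / a) := Ph_nonneg k (by positivity)
      calc ENNReal.ofReal (f t) * ENNReal.ofReal (Ph k (k * t / b) - Ph k (k * t / a))
          ≤ ENNReal.ofReal (f t) * 1 := by
            gcongr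
            exact ENNReal.ofReal_le_one.2 (by linarith)
        _ = ENNReal.ofReal (f t) := mul_one _
    · have h1 : ENNReal.ofReal (1 / T') = ∫⁻ t in Set.Ioi T', ENNReal.ofReal (t ^ (-2 : ℝ)) := by
        rw [← ofReal_integral_eq_lintegral_ofReal
          (integrableOn_Ioi_rpow_of_lt (by norm_num) hT'), integral_Ioi_rpow_of_lt (by norm_num) hT']
        · congr 1
          norm_num
          rw [Real.rpow_neg_one]
        · filter_upwards [ae_restrict_mem measurableSet_Ioi] with t ht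
          exact Real.rpow_nonneg (hT'.trans ht).le _
      rw [h1]
      apply setLIntegral_mono' measurableSet_Ioi
      intro t ht
      have ht0 : 0 < t := hT'.trans ht
      rw [← ENNReal.ofReal_mul (hf0 t)]
      apply ENNReal.ofReal_le_ofReal
      refine le_trans ?_ (htail t ht)
      apply mul_le_mul_of_nonneg_left _ (hf0 t)
      have h2 : 0 ≤ Ph k (k * t / a) := Ph_nonneg k (by positivity)
      linarith
  have h5 := hstep1.trans (hstep2.trans hstep3)
  rw [ENNReal.ofReal_le_ofReal_iff (by positivity)] at h5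
  linarith

theorem head_bound {f : ℝ → ℝ} (hf0 : ∀ t, 0 ≤ f t) {C : ℝ} {A : ℕ} (hC : 0 ≤ C)
    (hCA : ∀ t : ℝ, 0 ≤ t → f t ≤ C * (1 + t) ^ A) {τ T g : ℝ} (hτ : 1 < τ)
    (hg : g = 1 / τ - 1 - Real.log (1 / τ))
    (hT : 1 ≤ T) (hCT : C * 2 ^ A ≤ T)
    (hL2 : (A : ℝ) + 3 ≤ 2 * g * Real.log T)
    {k : ℕ} (hk : 2 * Real.log T ^ 2 ≤ k) {t : ℝ} (ht0 : 0 < t) (ht : t ≤ T) :
    f t * (1 - Ph k (k * t / (τ * T))) ≤ 1 / T ^ 2 := by
  have hT0 : 0 < T := by linarith
  have hτ0 : 0 < τ := by linarith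
  set L := Real.log T with hL
  have hL0 : 0 ≤ L := Real.log_nonneg hT
  set w := 1 / τ with hw
  have hw0 : 0 < w := by positivity
  have hw1 : w < 1 := by rw [hw, div_lt_one hτ0]; exact hτ
  set v := t / (τ * T) with hv
  have hv0 : 0 ≤ v := by positivity
  have hvw : v ≤ w := by
    rw [hv, hw, div_le_div_iff₀ (by positivity) hτ0]
    nlinarith
  have h1 : 1 - Ph k (k * t / (τ * T)) ≤ Real.exp (-(g * k)) := by
    rw [mul_div_assoc]
    refine (Ph_lower k hv0 (hvw.trans hw1.le)).trans ?_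
    have h2 : v * Real.exp (1 - v) ≤ Real.exp (-g) := by
      have h3 : v ≤ w * Real.exp (v - w) := by
        have h4 := Real.add_one_le_exp (v - w)
        nlinarith
      calc v * Real.exp (1 - v) ≤ (w * Real.exp (v - w)) * Real.exp (1 - v) :=
            mul_le_mul_of_nonneg_right h3 (Real.exp_pos _).le
        _ = w * Real.exp (1 - w) := by rw [mul_assoc, ← Real.exp_add]; congr 2; ring
        _ = Real.exp (Real.log w) * Real.exp (1 - w) := by rw [Real.exp_log hw0]
        _ = Real.exp (-g) := by rw [← Real.exp_add, hg]; congr 1; ring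
    refine (pow_le_pow_left₀ (by positivity) h2 k).trans ?_
    rw [← Real.exp_nat_mul]
    apply Real.exp_le_exp.2
    linarith
  have h2 : f t ≤ C * 2 ^ A * T ^ A := by
    refine (hCA t ht0.le).trans ?_
    rw [mul_assoc, ← mul_pow]
    apply mul_le_mul_of_nonneg_left _ hC
    apply pow_le_pow_left₀ (by linarith)
    linarith
  have hexpL : Real.exp L = T := Real.exp_log hT0
  have h3 : f t ≤ Real.exp (((A : ℝ) + 1) * L) := by
    refine h2.trans ?_
    calc C * 2 ^ A * T ^ A ≤ T * T ^ A := mul_le_mul_of_nonneg_right hCT (by positivity)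
      _ = T ^ (A + 1) := by ring
      _ = (Real.exp L) ^ (A + 1) := by rw [hexpL]
      _ = Real.exp (((A : ℝ) + 1) * L) := by rw [← Real.exp_nat_mul]; push_cast; rfl
  have hg0 : 0 < g := by
    rw [hg]
    have := Real.log_lt_sub_one_of_pos hw0 hw1.ne
    linarith
  have hPh1 : Ph k (k * t / (τ * T)) ≤ 1 := Ph_le_one k (by positivity)
  have h4 : 1 / T ^ 2 = Real.exp (-(2 * L)) := by
    rw [Real.exp_neg, two_mul, Real.exp_add, hexpL, one_div, pow_two]
  rw [h4]
  calc f t * (1 - Ph k (k * t / (τ * T))) ≤ Real.exp (((A : ℝ) + 1) * L) * Real.exp (-(g * k)) :=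
        mul_le_mul h3 h1 (by linarith) (Real.exp_pos _).le
    _ = Real.exp (((A : ℝ) + 1) * L - g * k) := by rw [← Real.exp_add]; congr 1
    _ ≤ Real.exp (-(2 * L)) := by
        apply Real.exp_le_exp.2
        have h6 : g * (2 * L ^ 2) ≤ g * k := mul_le_mul_of_nonneg_left hk hg0.le
        have h7 : ((A : ℝ) + 3) * L ≤ 2 * g * L * L := mul_le_mul_of_nonneg_right hL2 hL0
        nlinarith

/-- local version -/
theorem window_local (f : ℝ → ℝ) (hf : Continuous f) (hf0 : ∀ t, 0 ≤ f t)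
    (hA : ∃ C : ℝ, ∃ A : ℕ, ∀ t : ℝ, 0 ≤ t → f t ≤ C * (1 + t) ^ A) (c : ℝ) (hc : 0 ≤ c) (m : ℕ)
    (h : ∀ᶠ T : ℝ in atTop, ∀ k : ℕ, Real.log T ^ 2 ≤ k → (k : ℝ) ≤ 4 * Real.log T ^ 2 →
      c * Real.log T ^ m ≤ ∫ t in Set.Ioi (0 : ℝ), om k (k / T) t * f t)
    (δ : ℝ) (hδ : 0 < δ) :
    ∀ c' < c, ∀ᶠ T : ℝ in atTop, c' * (δ * T) * Real.log T ^ m ≤ ∫ t in T..((1 + δ) * T), f t := by
  intro c' hc'
  obtain ⟨θ, hθ1, hθ2, hθ3⟩ : ∃ θ : ℝ, 0 < θ ∧ θ < δ / 4 ∧ c' * δ < c * (δ - 2 * θ) := by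
    have h1 : Tendsto (fun θ : ℝ => c * (δ - 2 * θ)) (𝓝[>] 0) (𝓝 (c * (δ - 2 * 0))) :=
      (Continuous.tendsto (by fun_prop) 0).mono_left nhdsWithin_le_nhds
    rw [mul_zero, sub_zero] at h1
    have h2 := h1.eventually_const_lt (mul_lt_mul_of_pos_right hc' hδ)
    have h3 : ∀ᶠ θ : ℝ in 𝓝[>] 0, θ < δ / 4 :=
      (eventually_lt_nhds (by positivity)).filter_mono nhdsWithin_le_nhds
    have h4 : ∀ᶠ θ : ℝ in 𝓝[>] 0, 0 < θ := self_mem_nhdsWithin
    obtain ⟨θ, ha, hb, hc⟩ := (h2.and (h3.and h4)).exists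
    exact ⟨θ, hc, hb, ha⟩
  set σ : ℝ := (1 + δ - θ) / (1 + δ) with hσ
  have hσ0 : 0 < σ := by
    have : 0 < 1 + δ - θ := by linarith
    positivity
  have hσ1 : σ < 1 := by rw [hσ, div_lt_one (by positivity)]; linarith
  set γ := (1 / σ - 1 - Real.log (1 / σ)) / (1 / σ) with hγ
  have hv0 : 1 < 1 / σ := by rw [lt_div_iff₀ hσ0]; linarith
  have hγ0 : 0 < γ := gam_pos hv0
  set g := 1 / (1 + θ) - 1 - Real.log (1 / (1 + θ)) with hg
  have hg0 : 0 < g := by
    rw [hg]
    have hw0 : 0 < 1 / (1 + θ) := by positivity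
    have hw1 : 1 / (1 + θ) < 1 := by rw [div_lt_one (by positivity)]; linarith
    have := Real.log_lt_sub_one_of_pos hw0 hw1.ne
    linarith
  obtain ⟨C, A, hCA⟩ := hA
  have hC : 0 ≤ C := by
    have := hCA 0 le_rfl
    simp only [add_zero, one_pow, mul_one] at this
    exact (hf0 0).trans this
  obtain ⟨T0, hT0⟩ := eventually_atTop.1 h
  set κ0 := c * (δ - 2 * θ) - c' * δ with hκ0
  have hκ0' : 0 < κ0 := by linarith
  have hlog := Real.tendsto_log_atTop
  filter_upwards [hlog.eventually_ge_atTop (max 1 (5 * Real.log (1 + δ))),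
    hlog.eventually_ge_atTop ((2 * (A : ℝ) + 5) / (2 * γ)),
    hlog.eventually_ge_atTop (((A : ℝ) + 3) / (2 * g)),
    eventually_ge_atTop (max (max 1 T0) (max (C * 2 ^ A) (2 / κ0)))] with T t4 t5 t5' t6
  set L := Real.log T with hL
  have hL1 : 1 ≤ L := (le_max_left _ _).trans t4
  have hL5 : 5 * Real.log (1 + δ) ≤ L := (le_max_right _ _).trans t4
  have hL0 : 0 < L := by linarith
  have hT1 : 1 ≤ T := (le_max_left _ _).trans ((le_max_left _ _).trans t6)
  have hT0' : T0 ≤ T := (le_max_right _ _).trans ((le_max_left _ _).trans t6)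
  have hTpos : 0 < T := by linarith
  have hCT : C * 2 ^ A ≤ T := (le_max_left _ _).trans ((le_max_right _ _).trans t6)
  have hκT : 2 / κ0 ≤ T := (le_max_right _ _).trans ((le_max_right _ _).trans t6)
  obtain ⟨T', hT'⟩ : ∃ T' : ℝ, T' = (1 + δ) * T := ⟨_, rfl⟩
  rw [← hT']
  have hTT : T ≤ T' := by rw [hT']; nlinarith
  have hT'0 : 0 < T' := by linarith
  set a := (1 + θ) * T with ha
  set b := (1 + δ - θ) * T with hb
  have ha0 : 0 < a := by positivity
  have hab : a ≤ b := by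
    rw [ha, hb]
    apply mul_le_mul_of_nonneg_right _ hTpos.le
    linarith
  have hba : b - a = (δ - 2 * θ) * T := by rw [ha, hb]; ring
  have hTa : T ≤ a := by rw [ha]; nlinarith
  have hbT : b ≤ T' := by
    rw [hb, hT']
    apply mul_le_mul_of_nonneg_right _ hTpos.le
    linarith
  have hbσ : b = σ * T' := by
    rw [hb, hσ, hT']
    field_simp
  set L' := Real.log T' with hL'
  have hL'eq : L' = Real.log (1 + δ) + L := by
    rw [hL', hT', Real.log_mul (by positivity) hTpos.ne']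
  have hLL' : L ≤ L' := Real.log_le_log hTpos hTT
  have hL'6 : L' ≤ 6 / 5 * L := by rw [hL'eq]; linarith
  set k : ℕ := ⌈2 * L' ^ 2⌉₊ with hk
  have hk1 : 2 * L' ^ 2 ≤ k := Nat.le_ceil _
  have hk2 : (k : ℝ) < 2 * L' ^ 2 + 1 := Nat.ceil_lt_add_one (by positivity)
  have hL2' : L ^ 2 ≤ L' ^ 2 := pow_le_pow_left₀ hL0.le hLL' 2
  have hL1' : 1 ≤ L ^ 2 := one_le_pow₀ hL1
  have hk3 : 1 ≤ k := by
    have : (1 : ℝ) ≤ k := by linarith
    exact_mod_cast this
  have hlow : ∀ x ∈ Set.Ioc a b,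
      c * L ^ m ≤ ∫ t in Set.Ioi (0 : ℝ), om k (k / x) t * f t := by
    intro x hx
    have hx0 : 0 < x := ha0.trans hx.1
    have hTx : T ≤ x := hTa.trans hx.1.le
    have hlx : L ≤ Real.log x := Real.log_le_log hTpos hTx
    have hlx2 : Real.log x ≤ L' := Real.log_le_log hx0 (hx.2.trans hbT)
    have hlx0 : 0 ≤ Real.log x := by linarith
    refine le_trans ?_ (hT0 x (hT0'.trans hTx) k ?_ ?_)
    · apply mul_le_mul_of_nonneg_left _ hc
      exact pow_le_pow_left₀ (by positivity) hlx m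
    · have : Real.log x ^ 2 ≤ L' ^ 2 := pow_le_pow_left₀ hlx0 hlx2 2
      have h0 : 0 ≤ L' ^ 2 := sq_nonneg L'
      linarith
    · have h1 : L ^ 2 ≤ Real.log x ^ 2 := pow_le_pow_left₀ hL0.le hlx 2
      have h2 : L' ^ 2 ≤ (6 / 5 * L) ^ 2 := pow_le_pow_left₀ (by linarith) hL'6 2
      have h3 : (6 / 5 * L) ^ 2 = 36 / 25 * L ^ 2 := by ring
      linarith
  have htail : ∀ t, T' < t → f t * Ph k (k * t / b) ≤ t ^ (-2 : ℝ) := by
    intro t ht
    rw [hbσ]
    refine tail_bound hf0 hC hCA hσ0 hσ1 (hT1.trans hTT) (hCT.trans hTT) (hL1.trans hLL') ?_ hk1 ht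
    rw [← hγ]
    rw [div_le_iff₀ (by positivity)] at t5
    have : L * (2 * γ) ≤ L' * (2 * γ) := mul_le_mul_of_nonneg_right hLL' (by positivity)
    linarith
  have hhead : ∀ t, 0 < t → t ≤ T → f t * (1 - Ph k (k * t / a)) ≤ 1 / T ^ 2 := by
    intro t ht0 ht
    refine head_bound (g := g) hf0 hC hCA (by linarith : 1 < 1 + θ) hg hT1 hCT ?_ ?_ ht0 ht
    · rw [div_le_iff₀ (by positivity)] at t5'
      linarith
    · linarith
  have hmain := main_T' hf hf0 hk3 ha0 hab hTpos hTT (by positivity) hlow hhead htail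
  rw [hba] at hmain
  have hLm : 1 ≤ L ^ m := one_le_pow₀ hL1
  have h1T : 1 / T' ≤ 1 / T := one_div_le_one_div_of_le hTpos hTT
  have h3 : 2 * (1 / T) ≤ κ0 * (T * L ^ m) := by
    have h4 : 1 / T ≤ 1 := by rw [div_le_one hTpos]; exact hT1
    have h5 : 2 ≤ κ0 * T := by
      rw [div_le_iff₀ hκ0'] at hκT; linarith
    have h6 : κ0 * T * 1 ≤ κ0 * T * L ^ m := mul_le_mul_of_nonneg_left hLm (by positivity)
    linarith
  have h4 : c' * (δ * T) * L ^ m = c * L ^ m * ((δ - 2 * θ) * T) - κ0 * (T * L ^ m) := by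
    rw [hκ0]; ring
  rw [h4]
  linarith

end

end Pool.Agent.H601R2.SMLoc
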