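import Mathlib

set_option autoImplicit false

/-! `∑_m C(m+2,2)² x^m = (1+4x+x²)/(1-x)^5`. -/

namespace Pool.Agent.H601R2.SixthConst

lemma choose_id (m : ℕ) : ((m + 2).choose m : ℝ) ^ 2 =
    ((m + 4).choose 4 : ℝ) + 4 * ((m + 3).choose 4 : ℝ) + ((m + 2).choose 4 : ℝ) := by
  have h2 : (m + 2).choose m = (m + 2).choose 2 := by
    rw [← Nat.choose_symm (by omega : 2 ≤ m + 2)]
    congr 1
  rw [h2]
  have e2 : ∀ n : ℕ, ((n + 2).choose 2 : ℝ) = (n + 2) * (n + 1) / 2 := by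
    intro n
    have := Nat.descFactorial_eq_factorial_mul_choose (n + 2) 2
    have h3 : (n + 2).descFactorial 2 = (n + 1) * (n + 2) := by
      rw [Nat.descFactorial_succ, Nat.descFactorial_succ, Nat.descFactorial_zero]
      congr 1 <;> simp
    rw [h3] at this
    have h4 : (((n + 1) * (n + 2) : ℕ) : ℝ) = ((Nat.factorial 2 * (n + 2).choose 2 : ℕ) : ℝ) := by
      exact_mod_cast this
    push_cast [Nat.factorial] at h4
    linarith
  have e4 : ∀ n : ℕ, ((n + 4).choose 4 : ℝ) = (n + 4) * (n + 3) * (n + 2) * (n + 1) / 24 := by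
    intro n
    have := Nat.descFactorial_eq_factorial_mul_choose (n + 4) 4
    have h3 : (n + 4).descFactorial 4 = (n + 1) * ((n + 2) * ((n + 3) * (n + 4))) := by
      rw [Nat.descFactorial_succ, Nat.descFactorial_succ, Nat.descFactorial_succ,
        Nat.descFactorial_succ, Nat.descFactorial_zero]
      have a1 : n + 4 - 3 = n + 1 := by omega
      have a2 : n + 4 - 2 = n + 2 := by omega
      have a3 : n + 4 - 1 = n + 3 := by omega
      rw [a1, a2, a3]
      simp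
    rw [h3] at this
    have h4 : (((n + 1) * ((n + 2) * ((n + 3) * (n + 4))) : ℕ) : ℝ) =
        ((Nat.factorial 4 * (n + 4).choose 4 : ℕ) : ℝ) := by
      exact_mod_cast this
    push_cast [Nat.factorial] at h4
    linarith
  rw [e2]
  match m with
  | 0 => norm_num [Nat.choose]
  | 1 => norm_num [Nat.choose]
  | n + 2 =>
    have a1 : n + 2 + 4 = (n + 2) + 4 := rfl
    have a2 : n + 2 + 3 = (n + 1) + 4 := by ring
    have a3 : n + 2 + 2 = n + 4 := by ring
    rw [a2, a3, e4 (n + 2), e4 (n + 1), e4 n]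
    push_cast
    ring

lemma shift_sum (f g : ℕ → ℝ) (x S : ℝ) (h0 : g 0 = 0) (hg : ∀ m, g (m + 1) = x * f m)
    (h : HasSum f S) : HasSum g (x * S) := by
  have h1 : HasSum (fun m => g (m + 1)) (x * S) := by
    have : (fun m => g (m + 1)) = fun m => x * f m := funext hg
    rw [this]
    exact h.mul_left x
  have h2 := (hasSum_nat_add_iff (f := g) 1).1 h1
  simpa [h0] using h2

lemma hasSum_sq {x : ℝ} (hx0 : 0 ≤ x) (hx1 : x < 1) :
    HasSum (fun m : ℕ => ((m + 2).choose m : ℝ) ^ 2 * x ^ m) ((1 + 4 * x + x ^ 2) / (1 - x) ^ 5) := by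
  have hn : ‖x‖ < 1 := by rw [Real.norm_eq_abs, abs_of_nonneg hx0]; exact hx1
  have h1 : HasSum (fun m : ℕ => ((m + 4).choose 4 : ℝ) * x ^ m) (1 / (1 - x) ^ (4 + 1)) :=
    hasSum_choose_mul_geometric_of_norm_lt_one 4 hn
  have h2 : HasSum (fun m : ℕ => ((m + 3).choose 4 : ℝ) * x ^ m) (x * (1 / (1 - x) ^ (4 + 1))) := by
    apply shift_sum _ _ x _ (by norm_num [Nat.choose]) _ h1
    intro m
    have : m + 1 + 3 = m + 4 := by ring
    rw [this, pow_succ]
    ring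
  have h3 : HasSum (fun m : ℕ => ((m + 2).choose 4 : ℝ) * x ^ m)
      (x * (x * (1 / (1 - x) ^ (4 + 1)))) := by
    apply shift_sum _ _ x _ (by norm_num [Nat.choose]) _ h2
    intro m
    have : m + 1 + 2 = m + 3 := by ring
    rw [this, pow_succ]
    ring
  have h4 := (h1.add (h2.mul_left 4)).add h3
  have e1 : (fun m : ℕ => ((m + 2).choose m : ℝ) ^ 2 * x ^ m) = fun m : ℕ =>
      ((m + 4).choose 4 : ℝ) * x ^ m + 4 * (((m + 3).choose 4 : ℝ) * x ^ m) +
        ((m + 2).choose 4 : ℝ) * x ^ m := by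
    funext m
    rw [choose_id]
    ring
  have e2 : (1 + 4 * x + x ^ 2) / (1 - x) ^ 5 = 1 / (1 - x) ^ (4 + 1) +
      4 * (x * (1 / (1 - x) ^ (4 + 1))) + x * (x * (1 / (1 - x) ^ (4 + 1))) := by
    have : (1 - x) ≠ 0 := by linarith
    field_simp
  rw [e1, e2]
  exact h4

/-- the local factor -/
theorem factor (p : Nat.Primes) : (1 - 1 / (p : ℝ)) ^ 9 *
    ∑' m : ℕ, ((m + 2).choose m : ℝ) ^ 2 * (1 / (p : ℝ)) ^ m =
      (1 - 1 / (p : ℝ)) ^ 4 * (1 + 4 / (p : ℝ) + 1 / (p : ℝ) ^ 2) := by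
  have hp : (2:ℝ) ≤ p := by exact_mod_cast p.2.two_le
  have hp0 : (0:ℝ) < p := by linarith
  have hx0 : 0 ≤ 1 / (p : ℝ) := by positivity
  have hx1 : 1 / (p : ℝ) < 1 := by rw [div_lt_one hp0]; linarith
  rw [(hasSum_sq hx0 hx1).tsum_eq]
  have h1 : (1 - 1 / (p : ℝ)) ≠ 0 := by linarith
  have h2 : (1 - 1 / (p : ℝ)) ^ 9 = (1 - 1 / (p : ℝ)) ^ 4 * (1 - 1 / (p : ℝ)) ^ 5 := by ring
  rw [h2, mul_assoc, mul_div_cancel₀ _ (pow_ne_zero 5 h1)]
  ring

end Pool.Agent.H601R2.SixthConst
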