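import Pool.Agent.H306R2.SM.Final
import Pool.Agent.H306R2.EvenConst
import Pool.Agent.H601R2.SMLoc
import Pool.Agent.H601R2.SixthConst

set_option autoImplicit false

/-! The sixth moment lower bound on `[T, (1+δ)T]`. -/

namespace Pool.Agent.H601R2.SixthLocal

open Finset Filter Topology MeasureTheory Complex
open Pool.Agent.H306R2 Pool.Agent.H306R2.SM

noncomputable section

theorem sixth_of_local (κ : ℝ) (hκ : 1 / 2 ≤ κ) (hκ1 : κ ≤ 1) (hK : KB κ) (ε : ℝ) (hε : 0 < ε)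
    (hε1 : ε < 1 / 8) (c : ℝ)
    (hc : c < aF 3 * (2 * ((1 - ε) ^ 9 / (Nat.factorial 9 : ℝ) + JJ (1 + κ) ε)))
    (δ : ℝ) (hδ : 0 < δ) :
    ∀ᶠ T : ℝ in atTop, c * (δ * T) * Real.log T ^ 9 ≤
      ∫ t in T..((1 + δ) * T), ‖riemannZeta (1 / 2 + t * Complex.I)‖ ^ 6 := by
  set V := aF 3 * (2 * ((1 - ε) ^ 9 / (Nat.factorial 9 : ℝ) + JJ (1 + κ) ε)) with hV
  have haF : 0 < aF 3 := aF_pos (by norm_num)
  have hV0 : 0 < V := by
    have h1 : 0 < (1 - ε) ^ 9 / (Nat.factorial 9 : ℝ) := by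
      have : 0 < (1 - ε) := by linarith
      positivity
    have h2 := JJ_nonneg (1 + κ) ε
    positivity
  set c1 := max 0 ((c + V) / 2) with hc1
  have h0 : 0 ≤ c1 := le_max_left _ _
  have h1 : c1 < V := max_lt hV0 (by linarith)
  have h2 : c < c1 := lt_of_lt_of_le (by linarith) (le_max_right _ _)
  have hm := main_lower κ hκ hκ1 hK ε hε hε1 c1 h0 h1
  have hcont : Continuous (fun t : ℝ => ‖riemannZeta (cl t)‖ ^ 6) := (PG.zeta.1.norm).pow 6
  have hw := Pool.Agent.H601R2.SMLoc.window_local (fun t : ℝ => ‖riemannZeta (cl t)‖ ^ 6) hcont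
    (fun t => by positivity)
    ⟨24 ^ 6, 12, fun t ht => by
      calc ‖riemannZeta (cl t)‖ ^ 6 ≤ (24 * (1 + t) ^ 2) ^ 6 :=
            pow_le_pow_left₀ (norm_nonneg _) (zeta_cl_bound t ht) 6
        _ = _ := by ring⟩ c1 h0 9 (by
      filter_upwards [hm] with T hT k hk1 hk2
      exact hT k ⟨hk1, hk2⟩) δ hδ c h2
  exact hw

theorem sixth_local_aux (δ : ℝ) (hδ : 0 < δ) : ∀ᶠ T : ℝ in atTop,
    34.4 * aF 3 / (Nat.factorial 9 : ℝ) * (δ * T) * Real.log T ^ 9 ≤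
      ∫ t in T..((1 + δ) * T), ‖riemannZeta (1 / 2 + t * Complex.I)‖ ^ 6 := by
  refine sixth_of_local (1 / 2) le_rfl (by norm_num) kloosterman_weil (1 / 10000) (by norm_num)
    (by norm_num) (34.4 * aF 3 / (Nat.factorial 9 : ℝ)) ?_ δ hδ
  have haF : 0 < aF 3 := aF_pos (by norm_num)
  have h := integral_weil
  have e : (1 + 1 / 2 : ℝ) = 3 / 2 := by norm_num
  rw [e]
  change (34.4:ℝ) < 2 * ((1 - 1 / 10000 : ℝ) ^ 9 + (Nat.factorial 9 : ℝ) * JJ (3 / 2) (1 / 10000)) at h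
  have hf : (0:ℝ) < (Nat.factorial 9 : ℝ) := by exact_mod_cast Nat.factorial_pos 9
  calc 34.4 * aF 3 / (Nat.factorial 9 : ℝ) <
        (2 * ((1 - 1 / 10000 : ℝ) ^ 9 + (Nat.factorial 9 : ℝ) * JJ (3 / 2) (1 / 10000))) * aF 3 /
          (Nat.factorial 9 : ℝ) := by
        apply div_lt_div_of_pos_right _ hf
        exact mul_lt_mul_of_pos_right h haF
    _ = _ := by field_simp

/-- `a_3` in series form -/
theorem aF3 : aF 3 = ∏' p : Nat.Primes, ((1 - 1 / (p : ℝ)) ^ 9 *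
    ∑' m : ℕ, ((m + 2).choose 2 : ℝ) ^ 2 * (1 / (p : ℝ)) ^ m) := by
  have e := Pool.Agent.H306R2.aF_nat 3 (by norm_num)
  have e3 : ((3 : ℕ) : ℝ) = 3 := by norm_num
  rw [e3] at e
  rw [e]
  refine tprod_congr fun p => ?_
  congr 1
  refine tsum_congr fun m => ?_
  congr 3
  rw [show m + 3 - 1 = m + 2 by omega, ← Nat.choose_symm (by omega : 2 ≤ m + 2)]
  congr 1

/-- `a_3` in closed form -/
theorem aF3_closed : aF 3 = ∏' p : Nat.Primes, ((1 - 1 / (p : ℝ)) ^ 4 *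
    (1 + 4 / (p : ℝ) + 1 / (p : ℝ) ^ 2)) := by
  rw [aF3]
  refine tprod_congr fun p => ?_
  rw [← Pool.Agent.H601R2.SixthConst.factor p]
  congr 1
  refine tsum_congr fun m => ?_
  congr 3
  rw [← Nat.choose_symm (by omega : 2 ≤ m + 2)]
  congr 1

end

end Pool.Agent.H601R2.SixthLocal
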