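import Pool.Agent.H917R2.Tr.Stubs

/-! Radon-Nikodym: a positive functional on a von Neumann algebra dominated by `∑ ‖x ξ_k‖²` is of
the form `∑ ⟨ζ_k, x ζ_k⟩`. -/

open scoped ComplexOrder InnerProductSpace Topology
open Filter

noncomputable section

namespace H917R2.Tr.RnAux

section general

variable {K : Type} [NormedAddCommGroup K] [InnerProductSpace ℂ K] [CompleteSpace K]
variable {X : Type} [AddCommGroup X] [Module ℂ X]

/-- Riesz on the range of a linear map. -/
theorem riesz (e : X →ₗ[ℂ] K) (f : X →ₗ[ℂ] ℂ) (C : ℝ) (hC : 0 ≤ C)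
    (hf : ∀ x, ‖f x‖ ≤ C * ‖e x‖) :
    ∃ v : K, (∀ x, ⟪v, e x⟫_ℂ = f x) ∧ v ∈ (LinearMap.range e)ᗮᗮ ∧ ‖v‖ ≤ C := by
  have hwd : ∀ x y, e x = e y → f x = f y := by
    intro x y hxy
    have h := hf (x - y)
    have he : e (x - y) = 0 := by rw [map_sub, hxy, sub_self]
    rw [he, norm_zero, mul_zero, map_sub] at h
    exact sub_eq_zero.1 (norm_le_zero_iff.1 h)
  let g : LinearMap.range e →ₗ[ℂ] ℂ :=
    { toFun := fun d => f (Classical.choose d.2)
      map_add' := by
        intro a b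
        rw [← map_add]
        apply hwd
        rw [map_add, Classical.choose_spec a.2, Classical.choose_spec b.2,
          Classical.choose_spec (a + b).2]
        rfl
      map_smul' := by
        intro c a
        rw [RingHom.id_apply, smul_eq_mul, ← smul_eq_mul, ← map_smul]
        apply hwd
        rw [map_smul, Classical.choose_spec a.2, Classical.choose_spec (c • a).2]
        rfl }
  have hg : ∀ d, ‖g d‖ ≤ C * ‖d‖ := by
    intro d
    have h := hf (Classical.choose d.2)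
    rw [Classical.choose_spec d.2] at h
    exact h
  have hge : ∀ x, g ⟨e x, ⟨x, rfl⟩⟩ = f x := by
    intro x
    apply hwd
    exact Classical.choose_spec (⟨e x, ⟨x, rfl⟩⟩ : LinearMap.range e).2
  obtain ⟨G, hG, hGn⟩ := exists_extension_norm_eq (LinearMap.range e) (g.mkContinuous C hg)
  let v0 : K := (InnerProductSpace.toDual ℂ K).symm G
  have hv0 : ∀ k, ⟪v0, k⟫_ℂ = G k := fun k => InnerProductSpace.toDual_symm_apply
  have hv0n : ‖v0‖ ≤ C := by
    have : ‖v0‖ = ‖G‖ := (InnerProductSpace.toDual ℂ K).symm.norm_map G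
    rw [this, hGn]
    exact LinearMap.mkContinuous_norm_le _ hC _
  let N : Submodule ℂ K := (LinearMap.range e)ᗮᗮ
  have : CompleteSpace N := (Submodule.isClosed_orthogonal _).completeSpace_coe
  let v : K := (N.orthogonalProjectionOnto v0 : K)
  refine ⟨v, ?_, ?_, ?_⟩
  · intro x
    have hx : e x ∈ N := by
      apply Submodule.le_orthogonal_orthogonal
      exact ⟨x, rfl⟩
    have h1 : ⟪v0 - v, e x⟫_ℂ = 0 := by
      have := N.sub_starProjection_mem_orthogonal v0
      exact (Submodule.mem_orthogonal' _ _).1 this _ hx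
    rw [inner_sub_left, sub_eq_zero] at h1
    rw [← h1, hv0, ← hge]
    have := hG ⟨e x, ⟨x, rfl⟩⟩
    rw [this]
    rfl
  · exact (N.orthogonalProjectionOnto v0).2
  · refine le_trans ?_ hv0n
    exact N.norm_orthogonalProjectionOnto_apply_le v0

/-- Bounded sesquilinear forms on the range of a linear map. -/
theorem form (e : X →ₗ[ℂ] K) (β : X → X → ℂ) (C : ℝ) (hC : 0 ≤ C)
    (h1 : ∀ y x x', β y (x + x') = β y x + β y x')
    (h2 : ∀ (a : ℂ) y x, β y (a • x) = a * β y x)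
    (hs : ∀ x y, β y x = (starRingEnd ℂ) (β x y))
    (hb : ∀ x y, ‖β y x‖ ≤ C * ‖e y‖ * ‖e x‖) :
    ∃ T : K →L[ℂ] K, (∀ x y, ⟪T (e y), e x⟫_ℂ = β y x) ∧
      (∀ k, T k ∈ (LinearMap.range e)ᗮᗮ) ∧
      (∀ k ∈ (LinearMap.range e)ᗮ, T k = 0) := by
  classical
  have hv : ∀ y, ∃ v : K, (∀ x, ⟪v, e x⟫_ℂ = β y x) ∧ v ∈ (LinearMap.range e)ᗮᗮ ∧
      ‖v‖ ≤ C * ‖e y‖ := by
    intro y
    obtain ⟨v, h, h', h''⟩ := riesz e
      { toFun := fun x => β y x, map_add' := h1 y, map_smul' := fun a x => h2 a y x }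
      (C * ‖e y‖) (by positivity) (fun x => hb x y)
    exact ⟨v, h, h', h''⟩
  choose v hv1 hv2 hv3 using hv
  have huniq : ∀ a b : K, a ∈ (LinearMap.range e)ᗮᗮ → b ∈ (LinearMap.range e)ᗮᗮ →
      (∀ x, ⟪a, e x⟫_ℂ = ⟪b, e x⟫_ℂ) → a = b := by
    intro a b ha hb hab
    have hmem : a - b ∈ (LinearMap.range e)ᗮᗮ := Submodule.sub_mem _ ha hb
    have hmem' : a - b ∈ (LinearMap.range e)ᗮ := by
      rw [Submodule.mem_orthogonal']
      rintro _ ⟨x, rfl⟩
      rw [inner_sub_left, hab x, sub_self]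
    have := (Submodule.mem_orthogonal' _ _).1 hmem _ hmem'
    exact sub_eq_zero.1 (inner_self_eq_zero.1 this)
  have hvadd : ∀ y y', v (y + y') = v y + v y' := by
    intro y y'
    refine huniq _ _ (hv2 _) (Submodule.add_mem _ (hv2 _) (hv2 _)) ?_
    intro x
    rw [inner_add_left, hv1, hv1, hv1, hs x (y + y'), h1, map_add, ← hs, ← hs]
  have hvsmul : ∀ (a : ℂ) y, v (a • y) = a • v y := by
    intro a y
    refine huniq _ _ (hv2 _) (Submodule.smul_mem _ _ (hv2 _)) ?_
    intro x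
    rw [inner_smul_left, hv1, hv1, hs x (a • y), h2, map_mul, ← hs]
  -- the adjoint
  have hw : ∀ k : K, ∃ w : K, (∀ y, ⟪w, e y⟫_ℂ = ⟪k, v y⟫_ℂ) ∧ w ∈ (LinearMap.range e)ᗮᗮ ∧
      ‖w‖ ≤ C * ‖k‖ := by
    intro k
    obtain ⟨w, h, h', h''⟩ := riesz e
      { toFun := fun y => ⟪k, v y⟫_ℂ
        map_add' := by intro y y'; rw [hvadd, inner_add_right]
        map_smul' := by
          intro a y
          rw [hvsmul, inner_smul_right, RingHom.id_apply, smul_eq_mul] }
      (C * ‖k‖) (by positivity) (by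
        intro y
        calc ‖⟪k, v y⟫_ℂ‖ ≤ ‖k‖ * ‖v y‖ := norm_inner_le_norm _ _
          _ ≤ ‖k‖ * (C * ‖e y‖) := by
              apply mul_le_mul_of_nonneg_left (hv3 y) (norm_nonneg _)
          _ = C * ‖k‖ * ‖e y‖ := by ring)
    exact ⟨w, h, h', h''⟩
  choose w hw1 hw2 hw3 using hw
  let L : K →ₗ[ℂ] K :=
    { toFun := w
      map_add' := by
        intro k k'
        refine huniq _ _ (hw2 _) (Submodule.add_mem _ (hw2 _) (hw2 _)) ?_
        intro x
        rw [inner_add_left, hw1, hw1, hw1, inner_add_left]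
      map_smul' := by
        intro a k
        refine huniq _ _ (hw2 _) (Submodule.smul_mem _ _ (hw2 _)) ?_
        intro x
        rw [RingHom.id_apply, inner_smul_left, hw1, hw1, inner_smul_left] }
  let W : K →L[ℂ] K := L.mkContinuous C hw3
  have hW : ∀ k, W k = w k := fun k => rfl
  have hTe : ∀ y, ContinuousLinearMap.adjoint W (e y) = v y := by
    intro y
    apply ext_inner_left ℂ
    intro k
    rw [ContinuousLinearMap.adjoint_inner_right, hW, hw1]
  refine ⟨ContinuousLinearMap.adjoint W, ?_, ?_, ?_⟩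
  · intro x y
    rw [hTe, hv1]
  · intro k
    rw [Submodule.mem_orthogonal]
    intro n hn
    rw [ContinuousLinearMap.adjoint_inner_right, hW]
    have : w n = 0 := by
      refine huniq _ _ (hw2 _) (Submodule.zero_mem _) ?_
      intro x
      rw [hw1, inner_zero_left]
      exact (Submodule.mem_orthogonal _ _).1 (hv2 x) _ hn
    rw [this, inner_zero_left]
  · intro n hn
    apply ext_inner_left ℂ
    intro k
    rw [ContinuousLinearMap.adjoint_inner_right, hW, inner_zero_right]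
    exact (Submodule.mem_orthogonal' _ _).1 (hw2 k) _ hn

/-- Square roots. -/
theorem sqrt_ex (T : K →L[ℂ] K)
    (hTpos : ∀ k, (⟪T k, k⟫_ℂ).im = 0 ∧ 0 ≤ (⟪T k, k⟫_ℂ).re) :
    ∃ S : K →L[ℂ] K, (∀ k, S (S k) = T k) ∧ (∀ a b, ⟪S a, b⟫_ℂ = ⟪a, S b⟫_ℂ) ∧
      ∀ A : K →L[ℂ] K, A * T = T * A → ∀ k, S (A k) = A (S k) := by
  have hT0 : 0 ≤ T := by
    rw [ContinuousLinearMap.nonneg_iff_isPositive, ContinuousLinearMap.isPositive_iff_complex]
    intro k
    obtain ⟨h, h'⟩ := hTpos k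
    refine ⟨?_, h'⟩
    apply Complex.ext
    · rfl
    · simpa using h.symm
  have hSS : CFC.sqrt T * CFC.sqrt T = T := CFC.sqrt_mul_sqrt_self T hT0
  have hS0 : 0 ≤ CFC.sqrt T := CFC.sqrt_nonneg T
  have hSsa : IsSelfAdjoint (CFC.sqrt T) := IsSelfAdjoint.of_nonneg hS0
  refine ⟨CFC.sqrt T, ?_, ?_, ?_⟩
  · intro k
    exact congrArg (fun A : K →L[ℂ] K => A k) hSS
  · intro a b
    rw [← ContinuousLinearMap.adjoint_inner_right, ← ContinuousLinearMap.star_eq_adjoint,
      hSsa.star_eq]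
  · intro A hA k
    have h : Commute T A := hA.symm
    have h2 : Commute (CFC.sqrt T) A := h.cfcₙ_nnreal NNReal.sqrt
    exact congrArg (fun A : K →L[ℂ] K => A k) h2.eq

end general

section amp

variable {H : Type} [NormedAddCommGroup H] [InnerProductSpace ℂ H]

/-- The amplified Hilbert space. -/
abbrev KK (H : Type) [NormedAddCommGroup H] : Type := lp (fun _ : ℕ => H) 2

theorem amp_mem (x : H →L[ℂ] H) (η : KK H) : Memℓp (fun k => x (η k)) 2 := by
  apply memℓp_gen
  have h2 : (2 : ENNReal).toReal = 2 := by norm_num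
  rw [h2]
  have hη : Summable fun k => ‖η k‖ ^ (2 : ℝ) := by
    have := (lp.memℓp η).summable (by norm_num : (0 : ℝ) < (2 : ENNReal).toReal)
    rw [h2] at this
    exact this
  refine Summable.of_nonneg_of_le (fun k => by positivity) (fun k => ?_) (hη.mul_left (‖x‖ ^ 2))
  rw [Real.rpow_two, Real.rpow_two, ← mul_pow]
  exact pow_le_pow_left₀ (norm_nonneg _) (x.le_opNorm _) 2

/-- Norm squared. -/
theorem norm_sq (η : KK H) : ‖η‖ ^ 2 = ∑' k, ‖η k‖ ^ 2 := by
  have h := lp.norm_rpow_eq_tsum (by norm_num : (0 : ℝ) < (2 : ENNReal).toReal) η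
  have h2 : (2 : ENNReal).toReal = 2 := by norm_num
  rw [h2] at h
  simpa [Real.rpow_two] using h

theorem sq_coe (η : KK H) : Summable fun k => ‖η k‖ ^ 2 := by
  have h2 : (2 : ENNReal).toReal = 2 := by norm_num
  have := (lp.memℓp η).summable (by norm_num : (0 : ℝ) < (2 : ENNReal).toReal)
  rw [h2] at this
  simpa [Real.rpow_two] using this

/-- Amplification. -/
def amp (x : H →L[ℂ] H) : KK H →L[ℂ] KK H :=
  LinearMap.mkContinuous
    { toFun := fun η => ⟨fun k => x (η k), amp_mem x η⟩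
      map_add' := by
        intro a b
        apply lp.ext
        funext k
        simp
      map_smul' := by
        intro c a
        apply lp.ext
        funext k
        simp } ‖x‖ (by
    intro η
    have h1 : ‖(⟨fun k => x (η k), amp_mem x η⟩ : KK H)‖ ^ 2 ≤ (‖x‖ * ‖η‖) ^ 2 := by
      rw [norm_sq, mul_pow, norm_sq η, ← tsum_mul_left]
      have hs : Summable fun k => ‖x‖ ^ 2 * ‖η k‖ ^ 2 := (sq_coe η).mul_left _
      refine Summable.tsum_le_tsum (fun k => ?_) (sq_coe _) hs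
      rw [← mul_pow]
      exact pow_le_pow_left₀ (norm_nonneg _) (x.le_opNorm _) 2
    exact le_of_sq_le_sq h1 (by positivity))

theorem amp_apply (x : H →L[ℂ] H) (η : KK H) (k : ℕ) : amp x η k = x (η k) := rfl

theorem amp_mul (x y : H →L[ℂ] H) (η : KK H) : amp (x * y) η = amp x (amp y η) := by
  apply lp.ext
  funext k
  rfl

theorem amp_add (x y : H →L[ℂ] H) (η : KK H) : amp (x + y) η = amp x η + amp y η := by
  apply lp.ext
  funext k
  rfl

theorem amp_smul (c : ℂ) (x : H →L[ℂ] H) (η : KK H) : amp (c • x) η = c • amp x η := by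
  apply lp.ext
  funext k
  rfl

theorem amp_one (η : KK H) : amp (1 : H →L[ℂ] H) η = η := by
  apply lp.ext
  funext k
  rfl

theorem inner_amp [CompleteSpace H] (x : H →L[ℂ] H) (η χ : KK H) :
    ⟪amp x η, χ⟫_ℂ = ⟪η, amp (star x) χ⟫_ℂ := by
  rw [lp.inner_eq_tsum, lp.inner_eq_tsum]
  refine tsum_congr fun k => ?_
  rw [amp_apply, amp_apply, ContinuousLinearMap.star_eq_adjoint,
    ContinuousLinearMap.adjoint_inner_right]

theorem inner_amp' [CompleteSpace H] (x : H →L[ℂ] H) (η χ : KK H) :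
    ⟪η, amp x χ⟫_ℂ = ⟪amp (star x) η, χ⟫_ℂ := by
  rw [inner_amp, star_star]

end amp

section cs

variable {X : Type} [Ring X] [StarRing X] [Module ℂ X] [StarModule ℂ X] [IsScalarTower ℂ X X]
  [SMulCommClass ℂ X X]

theorem herm (θ : X →ₗ[ℂ] ℂ) (h0 : ∀ x, (θ (star x * x)).im = 0) (x y : X) :
    θ (star y * x) = (starRingEnd ℂ) (θ (star x * y)) := by
  have h1 := h0 (x + y)
  have h2 := h0 (x + Complex.I • y)
  have e1 : θ (star (x + y) * (x + y)) =
      θ (star x * x) + θ (star x * y) + θ (star y * x) + θ (star y * y) := by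
    rw [← map_add, ← map_add, ← map_add]
    congr 1
    rw [star_add]
    noncomm_ring
  have e2 : θ (star (x + Complex.I • y) * (x + Complex.I • y)) =
      θ (star x * x) + Complex.I * θ (star x * y) - Complex.I * θ (star y * x) +
        θ (star y * y) := by
    have : star (x + Complex.I • y) * (x + Complex.I • y) =
        star x * x + Complex.I • (star x * y) - Complex.I • (star y * x) + star y * y := by
      have hI : ∀ z : X, Complex.I • Complex.I • z = -z := by
        intro z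
        rw [smul_smul, Complex.I_mul_I, neg_smul, one_smul]
      rw [star_add, star_smul, RCLike.star_def, Complex.conj_I]
      simp only [add_mul, mul_add, smul_mul_assoc, mul_smul_comm, neg_smul, neg_mul, smul_add,
        smul_neg, hI]
      abel
    rw [this, map_add, map_sub, map_add, map_smul, map_smul, smul_eq_mul, smul_eq_mul]
  rw [e1] at h1
  rw [e2] at h2
  simp only [Complex.add_im, Complex.sub_im, Complex.mul_im, Complex.I_re, Complex.I_im,
    zero_mul, one_mul, zero_add, h0 x, h0 y] at h1 h2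
  apply Complex.ext
  · simp only [Complex.conj_re]
    linarith
  · simp only [Complex.conj_im]
    linarith

theorem cs (θ : X →ₗ[ℂ] ℂ) (h0 : ∀ x, (θ (star x * x)).im = 0)
    (hp : ∀ x, 0 ≤ (θ (star x * x)).re) (x y : X) :
    ‖θ (star x * y)‖ ≤ Real.sqrt (θ (star x * x)).re * Real.sqrt (θ (star y * y)).re := by
  let c : PreInnerProductSpace.Core ℂ X :=
    { inner := fun x y => θ (star x * y)
      conj_inner_symm := fun x y => (herm θ h0 y x).symm
      re_inner_nonneg := fun x => hp x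
      add_left := by
        intro x y z
        change θ (star (x + y) * z) = θ (star x * z) + θ (star y * z)
        rw [star_add, add_mul, map_add]
      smul_left := by
        intro x y r
        change θ (star (r • x) * y) = (starRingEnd ℂ) r * θ (star x * y)
        rw [star_smul, smul_mul_assoc, map_smul]
        rfl }
  have h := @InnerProductSpace.Core.norm_inner_le_norm ℂ X _ _ _ c x y
  exact h

end cs

end H917R2.Tr.RnAux

namespace H917R2.Tr

open H917R2.Tr.RnAux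

theorem p_R_rn : R_rn := by
  intro H _ _ _ M ξ C θ hξ hadd hsmul hpos
  classical
  -- the vector Ω
  have hΩmem : Memℓp (fun k => ξ k) 2 := by
    apply memℓp_gen
    have h2 : (2 : ENNReal).toReal = 2 := by norm_num
    rw [h2]
    have hξ' : Summable fun k => ‖ξ k‖ ^ 2 := hξ
    simpa [Real.rpow_two] using hξ'
  let Ω : KK H := ⟨fun k => ξ k, hΩmem⟩
  have hΩ : ∀ x : H →L[ℂ] H, ‖amp x Ω‖ ^ 2 = mu ξ x := by
    intro x
    rw [norm_sq]
    rfl
  let X := M.toStarSubalgebra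
  let e : X →ₗ[ℂ] KK H :=
    { toFun := fun x => amp (x : H →L[ℂ] H) Ω
      map_add' := fun x y => amp_add _ _ _
      map_smul' := fun c x => amp_smul _ _ _ }
  have he : ∀ x : X, e x = amp (x : H →L[ℂ] H) Ω := fun x => rfl
  let Θ : X →ₗ[ℂ] ℂ :=
    { toFun := fun x => θ (x : H →L[ℂ] H)
      map_add' := fun x y => hadd _ _
      map_smul' := fun c x => hsmul _ _ }
  have hΘ : ∀ x : X, Θ x = θ (x : H →L[ℂ] H) := fun x => rfl
  have h0 : ∀ x : X, (Θ (star x * x)).im = 0 := fun x => (hpos x x.2).1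
  have hp : ∀ x : X, 0 ≤ (Θ (star x * x)).re := fun x => (hpos x x.2).2.1
  have hle : ∀ x : X, (Θ (star x * x)).re ≤ |C| * ‖e x‖ ^ 2 := by
    intro x
    rw [he, hΩ]
    refine ((hpos x x.2).2.2).trans ?_
    have : 0 ≤ mu ξ (x : H →L[ℂ] H) := tsum_nonneg fun k => by positivity
    exact mul_le_mul_of_nonneg_right (le_abs_self C) this
  have hsq : ∀ x : X, Real.sqrt (Θ (star x * x)).re ≤ Real.sqrt |C| * ‖e x‖ := by
    intro x
    refine (Real.sqrt_le_sqrt (hle x)).trans ?_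
    rw [Real.sqrt_mul (abs_nonneg C), Real.sqrt_sq (norm_nonneg _)]
  obtain ⟨T, hT1, hT2, hT3⟩ := form e (fun y x => Θ (star y * x)) |C| (abs_nonneg C)
    (fun y x x' => by rw [mul_add, map_add])
    (fun a y x => by rw [mul_smul_comm, map_smul, smul_eq_mul])
    (fun x y => herm Θ h0 x y)
    (by
      intro x y
      refine (cs Θ h0 hp y x).trans ?_
      calc Real.sqrt (Θ (star y * y)).re * Real.sqrt (Θ (star x * x)).re
          ≤ (Real.sqrt |C| * ‖e y‖) * (Real.sqrt |C| * ‖e x‖) :=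
            mul_le_mul (hsq y) (hsq x) (Real.sqrt_nonneg _) (by positivity)
        _ = (Real.sqrt |C| * Real.sqrt |C|) * ‖e y‖ * ‖e x‖ := by ring
        _ = |C| * ‖e y‖ * ‖e x‖ := by rw [Real.mul_self_sqrt (abs_nonneg C)])
  set D := LinearMap.range e with hD
  have hmul : ∀ z x : X, amp (z : H →L[ℂ] H) (e x) = e (z * x) := by
    intro z x
    rw [he, he, ← amp_mul]
    rfl
  -- invariance of the orthogonal complement
  have hinv : ∀ z : X, ∀ n ∈ Dᗮ, amp (z : H →L[ℂ] H) n ∈ Dᗮ := by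
    intro z n hn
    rw [Submodule.mem_orthogonal]
    rintro _ ⟨x, rfl⟩
    rw [inner_amp']
    have h := hmul (star z) x
    have h' : amp (star (z : H →L[ℂ] H)) (e x) = e (star z * x) := h
    rw [h']
    exact (Submodule.mem_orthogonal _ _).1 hn _ ⟨_, rfl⟩
  have hinv2 : ∀ z : X, ∀ n ∈ Dᗮᗮ, amp (z : H →L[ℂ] H) n ∈ Dᗮᗮ := by
    intro z n hn
    rw [Submodule.mem_orthogonal]
    intro k hk
    rw [inner_amp']
    exact (Submodule.mem_orthogonal _ _).1 hn _ (hinv (star z) k hk)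
  have huniq : ∀ a b : KK H, a ∈ Dᗮᗮ → b ∈ Dᗮᗮ → (∀ x, ⟪a, e x⟫_ℂ = ⟪b, e x⟫_ℂ) → a = b := by
    intro a b ha hb hab
    have hmem : a - b ∈ Dᗮᗮ := Submodule.sub_mem _ ha hb
    have hmem' : a - b ∈ Dᗮ := by
      rw [Submodule.mem_orthogonal']
      rintro _ ⟨x, rfl⟩
      rw [inner_sub_left, hab x, sub_self]
    have := (Submodule.mem_orthogonal' _ _).1 hmem _ hmem'
    exact sub_eq_zero.1 (inner_self_eq_zero.1 this)
  have hclos : Dᗮᗮ = D.topologicalClosure := Submodule.orthogonal_orthogonal_eq_closure _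
  -- every vector splits
  have hsplit : ∀ k : KK H, ∃ p ∈ Dᗮᗮ, ∃ n ∈ Dᗮ, k = p + n := by
    intro k
    have : CompleteSpace (Dᗮ : Submodule ℂ (KK H)) :=
      (Submodule.isClosed_orthogonal _).completeSpace_coe
    refine ⟨k - (Dᗮ.orthogonalProjectionOnto k : KK H), ?_, (Dᗮ.orthogonalProjectionOnto k : KK H),
      (Dᗮ.orthogonalProjectionOnto k).2, by abel⟩
    exact Dᗮ.sub_starProjection_mem_orthogonal k
  -- commutation
  have hTe : ∀ z x : X, T (amp (z : H →L[ℂ] H) (e x)) = amp (z : H →L[ℂ] H) (T (e x)) := by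
    intro z x
    refine huniq _ _ (hT2 _) (hinv2 z _ (hT2 _)) ?_
    intro y
    rw [hmul, hT1, inner_amp]
    have h' : amp (star (z : H →L[ℂ] H)) (e y) = e (star z * y) := hmul (star z) y
    rw [h', hT1, star_mul, mul_assoc]
  have hTp : ∀ (z : X), ∀ p ∈ Dᗮᗮ, T (amp (z : H →L[ℂ] H) p) = amp (z : H →L[ℂ] H) (T p) := by
    intro z p hp'
    rw [hclos] at hp'
    have hcl : IsClosed {p : KK H | T (amp (z : H →L[ℂ] H) p) = amp (z : H →L[ℂ] H) (T p)} :=
      isClosed_eq (T.continuous.comp (amp (z : H →L[ℂ] H)).continuous)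
        ((amp (z : H →L[ℂ] H)).continuous.comp T.continuous)
    have hsub : (D : Set (KK H)) ⊆
        {p : KK H | T (amp (z : H →L[ℂ] H) p) = amp (z : H →L[ℂ] H) (T p)} := by
      rintro _ ⟨x, rfl⟩
      exact hTe z x
    exact (closure_minimal hsub hcl) hp'
  have hTc : ∀ z : X, amp (z : H →L[ℂ] H) * T = T * amp (z : H →L[ℂ] H) := by
    intro z
    ext1 k
    obtain ⟨p, hp', n, hn, rfl⟩ := hsplit k
    change amp (z : H →L[ℂ] H) (T (p + n)) = T (amp (z : H →L[ℂ] H) (p + n))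
    rw [map_add, map_add, map_add, map_add, hTp z p hp', hT3 n hn, hT3 _ (hinv z n hn), map_zero]
  -- positivity
  have hTpos1 : ∀ p ∈ Dᗮᗮ, (⟪T p, p⟫_ℂ).im = 0 ∧ 0 ≤ (⟪T p, p⟫_ℂ).re := by
    intro p hp'
    rw [hclos] at hp'
    have hc : Continuous fun p : KK H => ⟪T p, p⟫_ℂ := T.continuous.inner continuous_id
    have hcl : IsClosed {p : KK H | (⟪T p, p⟫_ℂ).im = 0 ∧ 0 ≤ (⟪T p, p⟫_ℂ).re} :=
      (isClosed_eq (Complex.continuous_im.comp hc) continuous_const).inter
        (isClosed_le continuous_const (Complex.continuous_re.comp hc))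
    have hsub : (D : Set (KK H)) ⊆
        {p : KK H | (⟪T p, p⟫_ℂ).im = 0 ∧ 0 ≤ (⟪T p, p⟫_ℂ).re} := by
      rintro _ ⟨x, rfl⟩
      change (⟪T (e x), e x⟫_ℂ).im = 0 ∧ 0 ≤ (⟪T (e x), e x⟫_ℂ).re
      rw [hT1]
      exact ⟨h0 x, hp x⟩
    exact (closure_minimal hsub hcl) hp'
  have hTpos : ∀ k, (⟪T k, k⟫_ℂ).im = 0 ∧ 0 ≤ (⟪T k, k⟫_ℂ).re := by
    intro k
    obtain ⟨p, hp', n, hn, rfl⟩ := hsplit k
    have : ⟪T (p + n), p + n⟫_ℂ = ⟪T p, p⟫_ℂ := by
      rw [map_add, hT3 n hn, add_zero, inner_add_right,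
        (Submodule.mem_orthogonal' _ _).1 (hT2 p) n hn, add_zero]
    rw [this]
    exact hTpos1 p hp'
  obtain ⟨S, hSS, hSsa, hSc0⟩ := sqrt_ex T hTpos
  have hSc : ∀ (z : X) (k : KK H), S (amp (z : H →L[ℂ] H) k) = amp (z : H →L[ℂ] H) (S k) :=
    fun z k => hSc0 _ (hTc z) k
  refine ⟨fun k => S Ω k, sq_coe (S Ω), ?_⟩
  intro x hx
  have hΩ1 : Ω = e 1 := by
    rw [he]
    exact (amp_one Ω).symm
  have hv : vf (fun k => S Ω k) x = ⟪S Ω, amp x (S Ω)⟫_ℂ := by
    rw [lp.inner_eq_tsum]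
    rfl
  rw [hv]
  let x' : X := ⟨x, hx⟩
  have hc' : S (amp x Ω) = amp x (S Ω) := hSc x' Ω
  have h1 : amp x Ω = e x' := rfl
  have h2 : T Ω = T (e 1) := by rw [hΩ1]
  rw [← hc', ← hSsa (S Ω) (amp x Ω), hSS, h1, h2, hT1, star_one, one_mul]
  rfl

end H917R2.Tr
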