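import Pool.Agent.H626R2.Loc.GDefs

set_option autoImplicit false

namespace Pool.Agent.H626R2.Loc

open MvPolynomial

namespace G5

variable {K : Type} [Field K] {n : ℕ}

/-- polynomials all of whose coefficients lie in a subalgebra -/
def coeffAlg {r : ℕ} (A : Subalgebra K (MvPolynomial (Fin n) K)) :
    Subalgebra K (MvPolynomial (Fin r) (MvPolynomial (Fin n) K)) where
  carrier := {f | ∀ m, f.coeff m ∈ A}
  mul_mem' := by
    intro f g hf hg m
    rw [coeff_mul]
    exact Subalgebra.sum_mem _ (fun x _ => A.mul_mem (hf _) (hg _))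
  add_mem' := by
    intro f g hf hg m
    rw [coeff_add]
    exact A.add_mem (hf _) (hg _)
  algebraMap_mem' := by
    intro a m
    rw [IsScalarTower.algebraMap_apply K (MvPolynomial (Fin n) K)
      (MvPolynomial (Fin r) (MvPolynomial (Fin n) K)), MvPolynomial.algebraMap_eq, coeff_C]
    split_ifs
    · exact A.algebraMap_mem a
    · exact A.zero_mem

end G5

section gen

variable {K : Type} [Field K] {n : ℕ}

/-- G5. -/
theorem coeff_ren_clsG {r c : ℕ} (s : Fin r → Fin n) (S : Set (MvPolynomial (Fin n) K))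
    (hcoef : ∀ σ ∈ S, ∃ F : Fin c → MvPolynomial (Fin n) K, (∀ i, F i ∈ S) ∧
      ∀ m, (ren s σ).coeff m ∈ Algebra.adjoin K (Set.range F))
    {ρ : ℕ} {g : MvPolynomial (Fin n) K} (hg : ClsG S ρ g) :
    ∃ F : Fin (ρ * c) → MvPolynomial (Fin n) K, (∀ i, F i ∈ S) ∧
      ∀ m, (ren s g).coeff m ∈ Algebra.adjoin K (Set.range F) := by
  obtain ⟨σ, P, hσ, rfl⟩ := hg
  choose F hF hcF using fun i => hcoef (σ i) (hσ i)
  refine ⟨fun i => F (finProdFinEquiv.symm i).1 (finProdFinEquiv.symm i).2,
    fun i => hF _ _, ?_⟩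
  set G : Fin (ρ * c) → MvPolynomial (Fin n) K :=
    fun i => F (finProdFinEquiv.symm i).1 (finProdFinEquiv.symm i).2 with hG
  have hsub : ∀ i, Algebra.adjoin K (Set.range (F i)) ≤ Algebra.adjoin K (Set.range G) := by
    intro i
    apply Algebra.adjoin_mono
    rintro _ ⟨j, rfl⟩
    refine ⟨finProdFinEquiv (i, j), ?_⟩
    show F (finProdFinEquiv.symm (finProdFinEquiv (i, j))).1
      (finProdFinEquiv.symm (finProdFinEquiv (i, j))).2 = F i j
    rw [Equiv.symm_apply_apply]
  have hmem : ∀ i, ren s (σ i) ∈ G5.coeffAlg (r := r) (Algebra.adjoin K (Set.range G)) := by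
    intro i m
    exact hsub i (hcF i m)
  have key : ren s (aeval σ P) ∈ G5.coeffAlg (r := r) (Algebra.adjoin K (Set.range G)) := by
    have h1 : ren s (aeval σ P) = aeval (fun i => ren s (σ i)) P := by
      rw [← AlgHom.comp_apply, comp_aeval]
    rw [h1]
    clear h1
    induction P using MvPolynomial.induction_on with
    | C a =>
      rw [algHom_C]
      exact Subalgebra.algebraMap_mem _ a
    | add p q hp hq =>
      rw [map_add]
      exact Subalgebra.add_mem _ hp
        hq
    | mul_X p i hp =>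
      rw [map_mul, aeval_X]
      exact Subalgebra.mul_mem _ hp (hmem i)
  exact key

end gen

end Pool.Agent.H626R2.Loc
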