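import Pool.Agent.H601R2.ExactChain

/-! Almost prime Cunningham chains with prescribed parity, started in a residue class. -/

set_option autoImplicit false

open Finset Filter

namespace Pool.Agent.H601R2.ClassChain

open Pool.Agent.H601R2.ExactChain (C transfer)

/-- the chain condition, started in the class of `b` mod `m` -/
def Good (e : ℤ) (k R m b : ℕ) (z : ℝ) (n : ℕ) : Prop :=
  (∀ j < k, 0 < C e j n ∧ ArithmeticFunction.cardFactors (C e j n).natAbs ≤ R ∧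
    ∀ p : ℕ, p.Prime → (p : ℤ) ∣ C e j n → z < p) ∧ n ≡ b [MOD m]

theorem core (e : ℤ) (he : e = 1 ∨ e = -1) (k : ℕ) (S : Finset ℕ) (hS : S ⊆ range k)
    (hodd : Odd S.card) (q r : ℕ) (hq : 0 < q) (hr : ∀ j < k, IsCoprime (C e j r) (q : ℤ))
    (ε : ℝ) (hε : 0 < ε) :
    ∃ (R : ℕ) (δ : ℝ), 0 < δ ∧ ∃ x₀ : ℝ, ∀ x : ℝ, x₀ ≤ x →
    x ^ (1 - ε) ≤ ({n : ℕ | 0 < n ∧ (n : ℝ) ≤ x ∧ Good e k R q r (x ^ δ) n ∧
      Odd (∑ j ∈ S, ArithmeticFunction.cardFactors (C e j n).natAbs)}.ncard : ℝ) ∧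
    x ^ (1 - ε) ≤ ({n : ℕ | 0 < n ∧ (n : ℝ) ≤ x ∧ Good e k R q r (x ^ δ) n ∧
      Even (∑ j ∈ S, ArithmeticFunction.cardFactors (C e j n).natAbs)}.ncard : ℝ) := by
  classical
  have hqz : (q : ℤ) ≠ 0 := by exact_mod_cast hq.ne'
  have hform : ∀ (j m : ℕ), (2 ^ j * (q : ℤ)) * (m : ℤ) + C e j r = C e j (q * m + r) := by
    intro j m
    unfold C
    push_cast
    ring
  have hdd : ∀ p : ℕ, p.Prime → ¬ (p : ℤ) ∣ -e := by
    intro p hp hd
    have h2 : (p : ℤ) ∣ 1 := by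
      rcases he with rfl | rfl
      · exact (dvd_neg.1 hd)
      · simpa using hd
    have h3 : p ∣ 1 := by exact_mod_cast h2
    exact hp.one_lt.ne' (Nat.dvd_one.1 h3)
  have hcard : (S.subtype (· ∈ range k)).card = S.card := by
    rw [Finset.card_subtype]
    congr 1
    exact Finset.filter_true_of_mem fun x hx => hS hx
  have hsum : ∀ n : ℕ, ∑ i ∈ S.subtype (· ∈ range k),
      ArithmeticFunction.cardFactors (C e (i : ℕ) n).natAbs =
      ∑ j ∈ S, ArithmeticFunction.cardFactors (C e j n).natAbs := by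
    intro n
    rw [Finset.sum_subtype_of_mem (p := (· ∈ range k))
      (fun j => ArithmeticFunction.cardFactors (C e j n).natAbs) (fun x hx => hS hx)]
  obtain ⟨R, δ, hδ, x₀, h⟩ := Pool.Agent.H661R3.OP.both Pool.Agent.H661R3.OP.liou
    {j // j ∈ range k} (fun j => 2 ^ (j : ℕ) * (q : ℤ)) (fun j => C e (j : ℕ) r)
    (S.subtype (· ∈ range k)) (fun j => by
      have : (0 : ℤ) < q := by exact_mod_cast hq
      positivity) (by
      intro i j hij h0
      apply hij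
      apply Subtype.ext
      have h1 : e * (q : ℤ) * ((2 : ℤ) ^ (j : ℕ) - 2 ^ (i : ℕ)) = 0 := by
        unfold C at h0
        linear_combination h0
      have h2 : (2 : ℤ) ^ (j : ℕ) - 2 ^ (i : ℕ) = 0 := by
        rcases mul_eq_zero.1 h1 with h3 | h3
        · exfalso
          rcases mul_eq_zero.1 h3 with h4 | h4
          · rcases he with rfl | rfl <;> norm_num at h4
          · exact hqz h4
        · exact h3
      have h3 : (2 : ℤ) ^ (i : ℕ) = 2 ^ (j : ℕ) := by linarith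
      exact Int.pow_right_injective (by norm_num : 1 < (2 : ℤ).natAbs) h3) (by rw [hcard]; exact hodd)
    (by
      intro p hp
      by_cases hpq : p ∣ q
      · refine ⟨0, fun i hd => ?_⟩
        rw [mul_zero, zero_add] at hd
        have h1 := hr i (mem_range.1 i.2)
        have h2 : (p : ℤ) ∣ q := by exact_mod_cast hpq
        have h3 : IsUnit (p : ℤ) := h1.isUnit_of_dvd' hd h2
        exact hp.one_lt.ne' (by simpa using Int.isUnit_iff_natAbs_eq.1 h3)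
      · have hc2 : IsCoprime (q : ℤ) (p : ℤ) := by
          rw [Nat.isCoprime_iff_coprime]
          exact ((Nat.Prime.coprime_iff_not_dvd hp).2 hpq).symm
        obtain ⟨u', v', huv'⟩ := hc2
        refine ⟨u' * (-e - r), fun i hd => hdd p hp ?_⟩
        have h1 : -e = (2 ^ (i : ℕ) * (q : ℤ) * (u' * (-e - r)) + C e (i : ℕ) r) -
            p * (2 ^ (i : ℕ) * ((e + r) * v')) := by
          unfold C
          linear_combination (2 ^ (i : ℕ) * (e + r)) * huv'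
        rw [h1]
        exact dvd_sub hd (dvd_mul_right _ _)) (ε / 2) (by positivity)
  have hAB : ∀ P : ℕ → Prop, ∀ z z' : ℝ, ∀ m : ℕ, 0 < m → z' ≤ z →
      ((∀ i : {j // j ∈ range k}, 0 < 2 ^ (i : ℕ) * (q : ℤ) * m + C e (i : ℕ) r ∧
        ArithmeticFunction.cardFactors (2 ^ (i : ℕ) * (q : ℤ) * m + C e (i : ℕ) r).natAbs ≤ R ∧
        ∀ p : ℕ, p.Prime → (p : ℤ) ∣ 2 ^ (i : ℕ) * (q : ℤ) * m + C e (i : ℕ) r → z < p) ∧
      P (∑ i ∈ S.subtype (· ∈ range k), ArithmeticFunction.cardFactors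
        (2 ^ (i : ℕ) * (q : ℤ) * m + C e (i : ℕ) r).natAbs)) →
      (Good e k R q r z' (q * m + r) ∧
        P (∑ j ∈ S, ArithmeticFunction.cardFactors (C e j (q * m + r)).natAbs)) := by
    intro P z z' m hm hzz hh
    obtain ⟨h1, h2⟩ := hh
    simp only [hform] at h1 h2
    rw [hsum] at h2
    refine ⟨⟨fun j hj => ?_, ?_⟩, h2⟩
    · obtain ⟨h3, h4, h5⟩ := h1 ⟨j, mem_range.2 hj⟩
      exact ⟨h3, h4, fun p hp hpd => lt_of_le_of_lt hzz (h5 p hp hpd)⟩
    · show q * m + r ≡ r [MOD q]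
      exact Nat.modEq_iff_dvd.2 ⟨-(m : ℤ), by push_cast; ring⟩
  have t1 := transfer (fun z m => (∀ i : {j // j ∈ range k}, 0 < 2 ^ (i : ℕ) * (q : ℤ) * m +
      C e (i : ℕ) r ∧
        ArithmeticFunction.cardFactors (2 ^ (i : ℕ) * (q : ℤ) * m + C e (i : ℕ) r).natAbs ≤ R ∧
        ∀ p : ℕ, p.Prime → (p : ℤ) ∣ 2 ^ (i : ℕ) * (q : ℤ) * m + C e (i : ℕ) r → z < p) ∧
      Odd (∑ i ∈ S.subtype (· ∈ range k), ArithmeticFunction.cardFactors
        (2 ^ (i : ℕ) * (q : ℤ) * m + C e (i : ℕ) r).natAbs))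
    (fun z n => Good e k R q r z n ∧
      Odd (∑ j ∈ S, ArithmeticFunction.cardFactors (C e j n).natAbs)) q r hq δ ε hδ hε
    ⟨x₀, fun x hx => (h x hx).1⟩ (hAB Odd)
  have t2 := transfer (fun z m => (∀ i : {j // j ∈ range k}, 0 < 2 ^ (i : ℕ) * (q : ℤ) * m +
      C e (i : ℕ) r ∧
        ArithmeticFunction.cardFactors (2 ^ (i : ℕ) * (q : ℤ) * m + C e (i : ℕ) r).natAbs ≤ R ∧
        ∀ p : ℕ, p.Prime → (p : ℤ) ∣ 2 ^ (i : ℕ) * (q : ℤ) * m + C e (i : ℕ) r → z < p) ∧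
      Even (∑ i ∈ S.subtype (· ∈ range k), ArithmeticFunction.cardFactors
        (2 ^ (i : ℕ) * (q : ℤ) * m + C e (i : ℕ) r).natAbs))
    (fun z n => Good e k R q r z n ∧
      Even (∑ j ∈ S, ArithmeticFunction.cardFactors (C e j n).natAbs)) q r hq δ ε hδ hε
    ⟨x₀, fun x hx => (h x hx).2⟩ (hAB Even)
  obtain ⟨x₁, hx₁⟩ := t1
  obtain ⟨x₂, hx₂⟩ := t2
  exact ⟨R, δ / 2, by positivity, max x₁ x₂, fun x hx =>
    ⟨hx₁ x ((le_max_left _ _).trans hx), hx₂ x ((le_max_right _ _).trans hx)⟩⟩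

end Pool.Agent.H601R2.ClassChain
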