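import Pool.Agent.H601R2.SixthConst

set_option autoImplicit false

/-! `∑_m C(m+3,3)² x^m = (1+9x+9x²+x³)/(1-x)^7`. -/

namespace Pool.Agent.H601R2.EighthConst

lemma e3 (n : ℕ) : ((n + 3).choose 3 : ℝ) = (n + 3) * (n + 2) * (n + 1) / 6 := by
  have := Nat.descFactorial_eq_factorial_mul_choose (n + 3) 3
  have h3 : (n + 3).descFactorial 3 = (n + 1) * ((n + 2) * (n + 3)) := by
    rw [Nat.descFactorial_succ, Nat.descFactorial_succ, Nat.descFactorial_succ, Nat.descFactorial_zero]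
    have a2 : n + 3 - 2 = n + 1 := by omega
    have a3 : n + 3 - 1 = n + 2 := by omega
    rw [a2, a3]
    simp
  rw [h3] at this
  have h4 : (((n + 1) * ((n + 2) * (n + 3)) : ℕ) : ℝ) = ((Nat.factorial 3 * (n + 3).choose 3 : ℕ) : ℝ) := by
    exact_mod_cast this
  push_cast [Nat.factorial] at h4
  linarith

lemma e6 (n : ℕ) : ((n + 6).choose 6 : ℝ) =
    (n + 6) * (n + 5) * (n + 4) * (n + 3) * (n + 2) * (n + 1) / 720 := by
  have := Nat.descFactorial_eq_factorial_mul_choose (n + 6) 6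
  have h3 : (n + 6).descFactorial 6 =
      (n + 1) * ((n + 2) * ((n + 3) * ((n + 4) * ((n + 5) * (n + 6))))) := by
    rw [Nat.descFactorial_succ, Nat.descFactorial_succ, Nat.descFactorial_succ,
      Nat.descFactorial_succ, Nat.descFactorial_succ, Nat.descFactorial_succ, Nat.descFactorial_zero]
    have a1 : n + 6 - 5 = n + 1 := by omega
    have a2 : n + 6 - 4 = n + 2 := by omega
    have a3 : n + 6 - 3 = n + 3 := by omega
    have a4 : n + 6 - 2 = n + 4 := by omega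
    have a5 : n + 6 - 1 = n + 5 := by omega
    rw [a1, a2, a3, a4, a5]
    simp
  rw [h3] at this
  have h4 : (((n + 1) * ((n + 2) * ((n + 3) * ((n + 4) * ((n + 5) * (n + 6))))) : ℕ) : ℝ) =
      ((Nat.factorial 6 * (n + 6).choose 6 : ℕ) : ℝ) := by
    exact_mod_cast this
  push_cast [Nat.factorial] at h4
  linarith

lemma choose_id (m : ℕ) : ((m + 3).choose m : ℝ) ^ 2 =
    ((m + 6).choose 6 : ℝ) + 9 * ((m + 5).choose 6 : ℝ) + 9 * ((m + 4).choose 6 : ℝ) +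
      ((m + 3).choose 6 : ℝ) := by
  have h2 : (m + 3).choose m = (m + 3).choose 3 := by
    rw [← Nat.choose_symm (by omega : 3 ≤ m + 3)]
    congr 1
  rw [h2, e3]
  match m with
  | 0 => norm_num [Nat.choose]
  | 1 => norm_num [Nat.choose]
  | 2 => norm_num [Nat.choose]
  | n + 3 =>
    have a1 : n + 3 + 6 = (n + 3) + 6 := rfl
    have a2 : n + 3 + 5 = (n + 2) + 6 := by ring
    have a3 : n + 3 + 4 = (n + 1) + 6 := by ring
    have a4 : n + 3 + 3 = n + 6 := by ring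
    rw [a2, a3, a4, e6 (n + 3), e6 (n + 2), e6 (n + 1), e6 n]
    push_cast
    ring

lemma hasSum_sq {x : ℝ} (hx0 : 0 ≤ x) (hx1 : x < 1) :
    HasSum (fun m : ℕ => ((m + 3).choose m : ℝ) ^ 2 * x ^ m)
      ((1 + 9 * x + 9 * x ^ 2 + x ^ 3) / (1 - x) ^ 7) := by
  have hn : ‖x‖ < 1 := by rw [Real.norm_eq_abs, abs_of_nonneg hx0]; exact hx1
  have h1 : HasSum (fun m : ℕ => ((m + 6).choose 6 : ℝ) * x ^ m) (1 / (1 - x) ^ (6 + 1)) :=
    hasSum_choose_mul_geometric_of_norm_lt_one 6 hn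
  have h2 : HasSum (fun m : ℕ => ((m + 5).choose 6 : ℝ) * x ^ m) (x * (1 / (1 - x) ^ (6 + 1))) := by
    apply SixthConst.shift_sum _ _ x _ (by norm_num [Nat.choose]) _ h1
    intro m
    have : m + 1 + 5 = m + 6 := by ring
    rw [this, pow_succ]
    ring
  have h3 : HasSum (fun m : ℕ => ((m + 4).choose 6 : ℝ) * x ^ m)
      (x * (x * (1 / (1 - x) ^ (6 + 1)))) := by
    apply SixthConst.shift_sum _ _ x _ (by norm_num [Nat.choose]) _ h2
    intro m
    have : m + 1 + 4 = m + 5 := by ring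
    rw [this, pow_succ]
    ring
  have h4 : HasSum (fun m : ℕ => ((m + 3).choose 6 : ℝ) * x ^ m)
      (x * (x * (x * (1 / (1 - x) ^ (6 + 1))))) := by
    apply SixthConst.shift_sum _ _ x _ (by norm_num [Nat.choose]) _ h3
    intro m
    have : m + 1 + 3 = m + 4 := by ring
    rw [this, pow_succ]
    ring
  have h5 := ((h1.add (h2.mul_left 9)).add (h3.mul_left 9)).add h4
  have e1 : (fun m : ℕ => ((m + 3).choose m : ℝ) ^ 2 * x ^ m) = fun m : ℕ =>
      ((m + 6).choose 6 : ℝ) * x ^ m + 9 * (((m + 5).choose 6 : ℝ) * x ^ m) +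
        9 * (((m + 4).choose 6 : ℝ) * x ^ m) + ((m + 3).choose 6 : ℝ) * x ^ m := by
    funext m
    rw [choose_id]
    ring
  have e2 : (1 + 9 * x + 9 * x ^ 2 + x ^ 3) / (1 - x) ^ 7 = 1 / (1 - x) ^ (6 + 1) +
      9 * (x * (1 / (1 - x) ^ (6 + 1))) + 9 * (x * (x * (1 / (1 - x) ^ (6 + 1)))) +
        x * (x * (x * (1 / (1 - x) ^ (6 + 1)))) := by
    have : (1 - x) ≠ 0 := by linarith
    field_simp
  rw [e1, e2]
  exact h5

/-- the local factor -/
theorem factor (p : Nat.Primes) : (1 - 1 / (p : ℝ)) ^ 16 *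
    ∑' m : ℕ, ((m + 3).choose m : ℝ) ^ 2 * (1 / (p : ℝ)) ^ m =
      (1 - 1 / (p : ℝ)) ^ 9 * (1 + 9 / (p : ℝ) + 9 / (p : ℝ) ^ 2 + 1 / (p : ℝ) ^ 3) := by
  have hp : (2:ℝ) ≤ p := by exact_mod_cast p.2.two_le
  have hp0 : (0:ℝ) < p := by linarith
  have hx0 : 0 ≤ 1 / (p : ℝ) := by positivity
  have hx1 : 1 / (p : ℝ) < 1 := by rw [div_lt_one hp0]; linarith
  rw [(hasSum_sq hx0 hx1).tsum_eq]
  have h1 : (1 - 1 / (p : ℝ)) ≠ 0 := by linarith
  have h2 : (1 - 1 / (p : ℝ)) ^ 16 = (1 - 1 / (p : ℝ)) ^ 9 * (1 - 1 / (p : ℝ)) ^ 7 := by ring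
  rw [h2, mul_assoc, mul_div_cancel₀ _ (pow_ne_zero 7 h1)]
  ring

end Pool.Agent.H601R2.EighthConst
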