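import Pool.Agent.H601R2.SMLoc

set_option autoImplicit false

/-!
# From Gamma-weighted lower bounds to `∫_{αT}^T`, `0 ≤ α < 1`
-/

namespace Pool.Agent.H601R2.SMFrac

open Finset Filter Topology MeasureTheory Pool.Agent.H306R2 Pool.Agent.H306R2.SM
open Pool.Agent.H965R2.SMT1 Pool.Agent.H601R2.SMLoc

noncomputable section

theorem log_ratio (α : ℝ) (hα : 0 < α) (m : ℕ) :
    Tendsto (fun T : ℝ => (Real.log (α * T) / Real.log T) ^ m) atTop (𝓝 1) := by
  have h1 : Tendsto (fun T : ℝ => 1 + Real.log α / Real.log T) atTop (𝓝 (1 + 0)) :=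
    tendsto_const_nhds.add (Real.tendsto_log_atTop.const_div_atTop _)
  rw [add_zero] at h1
  have h2 : Tendsto (fun T : ℝ => Real.log (α * T) / Real.log T) atTop (𝓝 1) := by
    refine h1.congr' ?_
    filter_upwards [eventually_gt_atTop (1 : ℝ)] with T hT
    have hl : 0 < Real.log T := Real.log_pos hT
    rw [Real.log_mul hα.ne' (by linarith)]
    field_simp
    ring
  have h3 := h2.pow m
  rwa [one_pow] at h3

theorem window_frac (f : ℝ → ℝ) (hf : Continuous f) (hf0 : ∀ t, 0 ≤ f t)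
    (hA : ∃ C : ℝ, ∃ A : ℕ, ∀ t : ℝ, 0 ≤ t → f t ≤ C * (1 + t) ^ A) (c : ℝ) (hc : 0 ≤ c) (m : ℕ)
    (h : ∀ᶠ T : ℝ in atTop, ∀ k : ℕ, Real.log T ^ 2 ≤ k → (k : ℝ) ≤ 4 * Real.log T ^ 2 →
      c * Real.log T ^ m ≤ ∫ t in Set.Ioi (0 : ℝ), om k (k / T) t * f t)
    (α : ℝ) (hα0 : 0 ≤ α) (hα1 : α < 1) :
    ∀ c' < c, ∀ᶠ T : ℝ in atTop, c' * ((1 - α) * T) * Real.log T ^ m ≤ ∫ t in (α * T)..T, f t := by
  intro c' hc'
  rcases hα0.eq_or_lt with h0 | hα
  · subst h0
    have h1 := window_gamma f hf hf0 hA c hc m h c' hc'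
    filter_upwards [h1] with T hT
    simpa using hT
  · rcases le_or_gt c' 0 with hneg | hpos
    · filter_upwards [eventually_ge_atTop (1 : ℝ)] with T hT
      have h1 : 0 ≤ Real.log T ^ m := pow_nonneg (Real.log_nonneg hT) m
      have h2 : 0 ≤ (1 - α) * T := mul_nonneg (by linarith) (by linarith)
      have h3 : 0 ≤ ∫ t in (α * T)..T, f t :=
        intervalIntegral.integral_nonneg (by nlinarith) fun t _ => hf0 t
      refine le_trans ?_ h3
      apply mul_nonpos_of_nonpos_of_nonneg _ h1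
      exact mul_nonpos_of_nonpos_of_nonneg hneg h2
    · obtain ⟨c2, hc2, hc2'⟩ := exists_between hc'
      have hc20 : 0 < c2 := hpos.trans hc2
      have hδ : 0 < 1 / α - 1 := by
        have : 1 < 1 / α := by rw [lt_div_iff₀ hα]; linarith
        linarith
      have h1 := window_local f hf hf0 hA c hc m h (1 / α - 1) hδ c2 hc2'
      have h2 : Tendsto (fun T : ℝ => α * T) atTop atTop := tendsto_id.const_mul_atTop hα
      have h3 : c' / c2 < 1 := by rw [div_lt_one hc20]; exact hc2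
      filter_upwards [h2.eventually h1, (log_ratio α hα m).eventually_const_lt h3,
        eventually_gt_atTop (1 : ℝ)] with T hT1 hT2 hT3
      have hl : 0 < Real.log T := Real.log_pos hT3
      have hlm : 0 < Real.log T ^ m := pow_pos hl m
      have e1 : (1 + (1 / α - 1)) * (α * T) = T := by field_simp; ring
      have e2 : (1 / α - 1) * (α * T) = (1 - α) * T := by field_simp
      rw [e1, e2] at hT1
      refine le_trans ?_ hT1
      rw [div_pow, lt_div_iff₀ hlm, div_mul_eq_mul_div, div_lt_iff₀ hc20] at hT2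
      have h4 : 0 ≤ (1 - α) * T := mul_nonneg (by linarith) (by linarith)
      calc c' * ((1 - α) * T) * Real.log T ^ m = ((1 - α) * T) * (c' * Real.log T ^ m) := by ring
        _ ≤ ((1 - α) * T) * (Real.log (α * T) ^ m * c2) := mul_le_mul_of_nonneg_left hT2.le h4
        _ = c2 * ((1 - α) * T) * Real.log (α * T) ^ m := by ring

end

end Pool.Agent.H601R2.SMFrac
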