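import Pool.Agent.H223.EM.Final
import Pool.Agent.H306R2.EvenConst
import Pool.Agent.H601R2.SMFrac
import Pool.Agent.H601R2.EighthConst
import Pool.Agent.H601R2.SixthLocal

set_option autoImplicit false

/-! The sixth and eighth moment lower bounds on `[αT, T]`. -/

namespace Pool.Agent.H601R2.EighthLocal

open Finset Filter Topology MeasureTheory Complex
open Pool.Agent.H306R2 Pool.Agent.H306R2.SM Pool.Agent.H223.EM

noncomputable section

/-- a Gamma window bound for the eighth moment with constant above `779` -/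
theorem eighth_window : ∃ c1 : ℝ, 779 * aF 4 / (Nat.factorial 16 : ℝ) < c1 ∧
    ∀ᶠ T : ℝ in atTop, ∀ k : ℕ, kr' T k → c1 * Real.log T ^ 16 ≤ M8 k T := by
  have main_lower := Pool.Agent.H672R2.EM_MF1.main_lower_of
      (fun ε h1 h2 => TW ε h1 h2) (fun ε h1 h2 => sum_c1_sq ε h1 h2)
      (fun ε h1 h2 => sum_c2_sq ε h1 h2) (fun ε h1 h2 c hc => sum_cross1 ε h1 h2 c hc)
      (fun ε h1 h2 => sum_cross2 ε h1 h2) (fun ε h1 h2 c hc => A_fourth ε h1 h2 c hc)
      (fun ε h1 h2 => cross2_eval ε h1 h2)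
      (Pool.Agent.H223.EM.MB3.B_norm_of (fun ε h1 h2 => sum_c1_sq ε h1 h2)
        (fun ε h1 h2 => sum_c2_sq ε h1 h2))
      (fun ε T hT k hk => Pool.Agent.H284R2.EM.holder8 ε T hT k hk)
  have IW1_lim := Pool.Agent.H491R2.EMMN1.IW1_lim
  have IW2_lim := Pool.Agent.H989R2.EM.IW2_lim
  have IN_lim := Pool.Agent.H375R3.EMMN3.IN_lim
  have ha : 0 < aF 4 := aF_pos (by norm_num)
  have hF : (0 : ℝ) < (Nat.factorial 16 : ℝ) := by exact_mod_cast Nat.factorial_pos 16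
  set F : ℝ := (Nat.factorial 16 : ℝ) with hFdef
  set a : ℝ := aF 4 with hadef
  set η : ℝ := 1 / 100000 with hη
  have hη0 : 0 < η := by rw [hη]; norm_num
  have hη1 : η < 1 := by rw [hη]; norm_num
  have hW1 : (0 : ℝ) < 240289 / 42240 / F := by positivity
  have hW2 : (0 : ℝ) < 15925 / 8192 / F := by positivity
  have hN0 : (0 : ℝ) < 1225 / 16384 / F := by positivity
  have e1 := IW1_lim.1.eventually_lt_const
    (show 240289 / 42240 / F < 240289 / 42240 / F * (1 + η) by nlinarith)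
  have e2 := IW1_lim.2.eventually_const_lt
    (show 240289 / 42240 / F * (1 - η) < 240289 / 42240 / F by nlinarith)
  have e3 := IW2_lim.1.eventually_lt_const
    (show 15925 / 8192 / F < 15925 / 8192 / F * (1 + η) by nlinarith)
  have e4 := IW2_lim.2.eventually_const_lt
    (show 15925 / 8192 / F * (1 - η) < 15925 / 8192 / F by nlinarith)
  have e5 := IN_lim.eventually_lt_const
    (show 1225 / 16384 / F < 1225 / 16384 / F * (1 + η) by nlinarith)
  have e6 : ∀ᶠ ε : ℝ in 𝓝[>] 0, ε ∈ Set.Ioo (0 : ℝ) (1 / 8) :=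
    Ioo_mem_nhdsGT (by norm_num)
  obtain ⟨ε, h1, h2, h3, h4, h5, h6⟩ := (e1.and (e2.and (e3.and (e4.and (e5.and e6))))).exists
  have hm := main_lower ε h6.1 h6.2 (a * (240289 / 42240 / F * (1 - η)))
    (a * (15925 / 8192 / F * (1 - η))) (a * (240289 / 42240 / F * (1 + η)))
    (a * (15925 / 8192 / F * (1 + η))) (a * (1225 / 16384 / F * (1 + η)))
    (by
      have h7 : 0 < 1 - η := by linarith
      positivity)
    (mul_lt_mul_of_pos_left h2 ha) (mul_lt_mul_of_pos_left h4 ha)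
    (mul_lt_mul_of_pos_left h1 ha) (mul_lt_mul_of_pos_left h3 ha)
    (mul_lt_mul_of_pos_left h5 ha)
  set c1 : ℝ := (a * (240289 / 42240 / F * (1 - η)) + a * (15925 / 8192 / F * (1 - η))) ^ 4 /
    (a * (1225 / 16384 / F * (1 + η)) *
      (a * (240289 / 42240 / F * (1 + η)) + a * (15925 / 8192 / F * (1 + η))) ^ 2) with hc1
  have hc1v : c1 = a / F * (((240289 / 42240 + 15925 / 8192) * (1 - η)) ^ 4 /
      ((1225 / 16384 * (1 + η)) * ((240289 / 42240 + 15925 / 8192) * (1 + η)) ^ 2)) := by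
    rw [hc1]
    have h8 : (1 + η) ≠ 0 := by linarith
    field_simp
  have hnum : (779 : ℝ) < ((240289 / 42240 + 15925 / 8192) * (1 - η)) ^ 4 /
      ((1225 / 16384 * (1 + η)) * ((240289 / 42240 + 15925 / 8192) * (1 + η)) ^ 2) := by
    rw [hη]
    norm_num
  refine ⟨c1, ?_, hm⟩
  rw [hc1v]
  have h9 : 0 < a / F := by positivity
  calc 779 * a / F = a / F * 779 := by ring
    _ < _ := mul_lt_mul_of_pos_left hnum h9

theorem eighth_frac (α : ℝ) (hα0 : 0 ≤ α) (hα1 : α < 1) : ∀ᶠ T : ℝ in atTop,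
    779 * aF 4 / (Nat.factorial 16 : ℝ) * ((1 - α) * T) * Real.log T ^ 16 ≤
      ∫ t in (α * T)..T, ‖riemannZeta (1 / 2 + t * Complex.I)‖ ^ 8 := by
  obtain ⟨c1, hc1, hm⟩ := eighth_window
  have ha : 0 < aF 4 := aF_pos (by norm_num)
  have hF : (0 : ℝ) < (Nat.factorial 16 : ℝ) := by exact_mod_cast Nat.factorial_pos 16
  have hc10 : 0 ≤ c1 := by
    refine le_trans ?_ hc1.le
    positivity
  have hcont : Continuous (fun t : ℝ => ‖riemannZeta (cl t)‖ ^ 8) :=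
    (Pool.Agent.H56R2.EM_MF2.zeta_cont.norm).pow 8
  exact Pool.Agent.H601R2.SMFrac.window_frac (fun t : ℝ => ‖riemannZeta (cl t)‖ ^ 8) hcont
    (fun t => by positivity)
    ⟨24 ^ 8, 16, fun t ht => by
      calc ‖riemannZeta (cl t)‖ ^ 8 ≤ (24 * (1 + t) ^ 2) ^ 8 :=
            pow_le_pow_left₀ (norm_nonneg _) (Pool.Agent.H56R2.EM_MF2.zeta_bound t ht) 8
        _ = _ := by ring⟩ c1 hc10 16 (by
      filter_upwards [hm] with T hT k hk1 hk2
      exact hT k ⟨hk1, hk2⟩) α hα0 hα1 _ hc1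

theorem sixth_frac (α : ℝ) (hα0 : 0 ≤ α) (hα1 : α < 1) : ∀ᶠ T : ℝ in atTop,
    34.4 * aF 3 / (Nat.factorial 9 : ℝ) * ((1 - α) * T) * Real.log T ^ 9 ≤
      ∫ t in (α * T)..T, ‖riemannZeta (1 / 2 + t * Complex.I)‖ ^ 6 := by
  have haF : 0 < aF 3 := aF_pos (by norm_num)
  have hf : (0:ℝ) < (Nat.factorial 9 : ℝ) := by exact_mod_cast Nat.factorial_pos 9
  have h := integral_weil
  have e : (1 + 1 / 2 : ℝ) = 3 / 2 := by norm_num
  change (34.4:ℝ) < 2 * ((1 - 1 / 10000 : ℝ) ^ 9 + (Nat.factorial 9 : ℝ) * JJ (3 / 2) (1 / 10000)) at h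
  have hV : 34.4 * aF 3 / (Nat.factorial 9 : ℝ) < aF 3 * (2 * ((1 - 1 / 10000 : ℝ) ^ 9 /
      (Nat.factorial 9 : ℝ) + JJ (1 + 1 / 2) (1 / 10000))) := by
    rw [e]
    have h1 : 34.4 * aF 3 / (Nat.factorial 9 : ℝ) <
        (2 * ((1 - 1 / 10000 : ℝ) ^ 9 + (Nat.factorial 9 : ℝ) * JJ (3 / 2) (1 / 10000))) * aF 3 /
          (Nat.factorial 9 : ℝ) := by
      apply div_lt_div_of_pos_right _ hf
      exact mul_lt_mul_of_pos_right h haF
    refine h1.trans_eq ?_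
    field_simp
  obtain ⟨c1, hc1, hc1'⟩ := exists_between hV
  have h0 : 0 ≤ c1 := by
    refine le_trans ?_ hc1.le
    positivity
  have hm := main_lower (1 / 2) le_rfl (by norm_num) kloosterman_weil (1 / 10000) (by norm_num)
    (by norm_num) c1 h0 hc1'
  have hcont : Continuous (fun t : ℝ => ‖riemannZeta (cl t)‖ ^ 6) := (PG.zeta.1.norm).pow 6
  exact Pool.Agent.H601R2.SMFrac.window_frac (fun t : ℝ => ‖riemannZeta (cl t)‖ ^ 6) hcont
    (fun t => by positivity)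
    ⟨24 ^ 6, 12, fun t ht => by
      calc ‖riemannZeta (cl t)‖ ^ 6 ≤ (24 * (1 + t) ^ 2) ^ 6 :=
            pow_le_pow_left₀ (norm_nonneg _) (zeta_cl_bound t ht) 6
        _ = _ := by ring⟩ c1 h0 9 (by
      filter_upwards [hm] with T hT k hk1 hk2
      exact hT k ⟨hk1, hk2⟩) α hα0 hα1 _ hc1

/-- `a_4` in closed form -/
theorem aF4_closed : aF 4 = ∏' p : Nat.Primes, ((1 - 1 / (p : ℝ)) ^ 9 *
    (1 + 9 / (p : ℝ) + 9 / (p : ℝ) ^ 2 + 1 / (p : ℝ) ^ 3)) := by
  have e := Pool.Agent.H306R2.aF_nat 4 (by norm_num)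
  have e3 : ((4 : ℕ) : ℝ) = 4 := by norm_num
  rw [e3] at e
  rw [e]
  refine tprod_congr fun p => ?_
  rw [← Pool.Agent.H601R2.EighthConst.factor p]
  norm_num

end

end Pool.Agent.H601R2.EighthLocal
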