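import Pool.Agent.H661R3.OP.Final

/-! Almost prime Cunningham chains followed by a composite number, with prescribed parity. -/

set_option autoImplicit false

open Finset Filter

namespace Pool.Agent.H601R2.ExactChain

/-- the `j`-th term of the chain started at `n`, first kind for `e = 1`, second kind for `e = -1` -/
def C (e : ℤ) (j n : ℕ) : ℤ := 2 ^ j * (n : ℤ) + e * (2 ^ j - 1)

/-- transfer of counts to a residue class -/
theorem transfer (A B : ℝ → ℕ → Prop) (q r : ℕ) (hq : 0 < q) (δ ε : ℝ) (hδ : 0 < δ) (hε : 0 < ε)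
    (hA : ∃ x₀ : ℝ, ∀ x : ℝ, x₀ ≤ x →
      x ^ (1 - ε / 2) ≤ ({m : ℕ | 0 < m ∧ (m : ℝ) ≤ x ∧ A (x ^ δ) m}.ncard : ℝ))
    (hAB : ∀ z z' : ℝ, ∀ m : ℕ, 0 < m → z' ≤ z → A z m → B z' (q * m + r)) :
    ∃ x₀ : ℝ, ∀ x : ℝ, x₀ ≤ x →
      x ^ (1 - ε) ≤ ({n : ℕ | 0 < n ∧ (n : ℝ) ≤ x ∧ B (x ^ (δ / 2)) n}.ncard : ℝ) := by
  obtain ⟨x₀, hx₀⟩ := hA
  have hq1 : (1 : ℝ) ≤ q := by exact_mod_cast hq
  have ht : Tendsto (fun x : ℝ => x / (2 * q)) atTop atTop :=
    tendsto_id.atTop_div_const (by positivity)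
  have e1 : ∀ᶠ x : ℝ in atTop, (2 * (q : ℝ)) ≤ x ^ (ε / 2) :=
    (tendsto_rpow_atTop (by positivity)).eventually_ge_atTop _
  have e2 : ∀ᶠ x : ℝ in atTop, (2 * (q : ℝ)) ^ δ ≤ x ^ (δ / 2) :=
    (tendsto_rpow_atTop (by positivity)).eventually_ge_atTop _
  apply eventually_atTop.1
  filter_upwards [ht.eventually_ge_atTop x₀, e1, e2, eventually_ge_atTop (2 * (r : ℝ)),
    eventually_ge_atTop 1] with x g1 g2 g3 g4 g5
  have hx0 : 0 < x := by linarith
  have key := hx₀ (x / (2 * q)) g1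
  have h1 : x ^ (1 - ε) ≤ (x / (2 * q)) ^ (1 - ε / 2) := by
    rw [div_eq_mul_one_div, Real.mul_rpow hx0.le (by positivity)]
    have h2 : (1 / (2 * (q : ℝ))) ^ (1 : ℝ) ≤ (1 / (2 * (q : ℝ))) ^ (1 - ε / 2) := by
      apply Real.rpow_le_rpow_of_exponent_ge (by positivity)
      · rw [div_le_one (by positivity)]
        linarith
      · linarith
    rw [Real.rpow_one] at h2
    have h3 : x ^ (1 - ε / 2) = x ^ (1 - ε) * x ^ (ε / 2) := by
      rw [← Real.rpow_add hx0]; congr 1; ring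
    have h4 : 0 < x ^ (1 - ε) := by positivity
    calc x ^ (1 - ε) = x ^ (1 - ε) * (2 * q) * (1 / (2 * q)) := by field_simp
      _ ≤ x ^ (1 - ε) * x ^ (ε / 2) * (1 / (2 * q)) := by gcongr
      _ = x ^ (1 - ε / 2) * (1 / (2 * q)) := by rw [h3]
      _ ≤ _ := mul_le_mul_of_nonneg_left h2 (by positivity)
  refine h1.trans (key.trans ?_)
  have hz : x ^ (δ / 2) ≤ (x / (2 * q)) ^ δ := by
    rw [Real.div_rpow hx0.le (by positivity), le_div_iff₀ (by positivity)]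
    have h3 : x ^ δ = x ^ (δ / 2) * x ^ (δ / 2) := by
      rw [← Real.rpow_add hx0]; congr 1; ring
    rw [h3]
    exact mul_le_mul_of_nonneg_left g3 (by positivity)
  have hfin : {n : ℕ | 0 < n ∧ (n : ℝ) ≤ x ∧ B (x ^ (δ / 2)) n}.Finite :=
    (Set.finite_Iic ⌊x⌋₊).subset fun n hn => Nat.le_floor hn.2.1
  rw [Nat.cast_le]
  refine Set.ncard_le_ncard_of_injOn (fun m => q * m + r) ?_ ?_ hfin
  · rintro m ⟨h2, h3, h4⟩
    refine ⟨?_, ?_, hAB _ _ m h2 hz h4⟩
    · show 0 < q * m + r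
      have : 0 < q * m := Nat.mul_pos hq h2
      omega
    · show ((q * m + r : ℕ) : ℝ) ≤ x
      push_cast
      have h5 : (q : ℝ) * m ≤ q * (x / (2 * q)) := mul_le_mul_of_nonneg_left h3 (by positivity)
      have h6 : (q : ℝ) * (x / (2 * q)) = x / 2 := by field_simp
      linarith
  · intro m _ m' _ h
    have h5 : q * m + r = q * m' + r := h
    have h6 : q * m = q * m' := Nat.add_right_cancel h5
    exact Nat.eq_of_mul_eq_mul_left hq h6

/-- the chain condition -/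
def Good (e : ℤ) (k R : ℕ) (z : ℝ) (n : ℕ) : Prop :=
  (∀ j < k, 0 < C e j n ∧ ArithmeticFunction.cardFactors (C e j n).natAbs ≤ R ∧
    ∀ p : ℕ, p.Prime → (p : ℤ) ∣ C e j n → z < p) ∧
  1 < C e k n ∧ ¬ (C e k n).natAbs.Prime

theorem core (e : ℤ) (he : e = 1 ∨ e = -1) (k : ℕ) (S : Finset ℕ) (hS : S ⊆ range k)
    (hodd : Odd S.card) (ε : ℝ) (hε : 0 < ε) :
    ∃ (R : ℕ) (δ : ℝ), 0 < δ ∧ ∃ x₀ : ℝ, ∀ x : ℝ, x₀ ≤ x →
    x ^ (1 - ε) ≤ ({n : ℕ | 0 < n ∧ (n : ℝ) ≤ x ∧ Good e k R (x ^ δ) n ∧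
      Odd (∑ j ∈ S, ArithmeticFunction.cardFactors (C e j n).natAbs)}.ncard : ℝ) ∧
    x ^ (1 - ε) ≤ ({n : ℕ | 0 < n ∧ (n : ℝ) ≤ x ∧ Good e k R (x ^ δ) n ∧
      Even (∑ j ∈ S, ArithmeticFunction.cardFactors (C e j n).natAbs)}.ncard : ℝ) := by
  classical
  have hk : 1 ≤ k := by
    rcases Nat.eq_zero_or_pos k with h | h
    · exfalso
      rw [h, Finset.range_zero, Finset.subset_empty] at hS
      rw [hS] at hodd
      simp at hodd
    · exact h
  -- the prime `q`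
  obtain ⟨q, hqk, hq⟩ := Nat.exists_infinite_primes (2 ^ k + 1)
  have h2k : 2 ≤ 2 ^ k := by
    calc 2 = 2 ^ 1 := rfl
      _ ≤ 2 ^ k := Nat.pow_le_pow_right (by norm_num) hk
  have hq2 : q ≠ 2 := by omega
  have hcop : IsCoprime (((2 ^ k : ℕ) : ℤ)) (q : ℤ) := by
    rw [Nat.isCoprime_iff_coprime]
    exact Nat.Coprime.pow_left k ((Nat.coprime_primes Nat.prime_two hq).2 (Ne.symm hq2))
  obtain ⟨u, v, huv⟩ := hcop
  -- the residue `r`
  have hqz : (q : ℤ) ≠ 0 := by exact_mod_cast hq.ne_zero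
  obtain ⟨r, hr⟩ : ∃ r : ℕ, (r : ℤ) = (e * u - e) % q :=
    ⟨((e * u - e) % q).toNat, Int.toNat_of_nonneg (Int.emod_nonneg _ hqz)⟩
  have hrk : (q : ℤ) ∣ C e k r := by
    have h1 : (q : ℤ) ∣ (r : ℤ) - (e * u - e) := by
      rw [hr]
      exact (Int.mod_modEq (e * u - e) q).symm.dvd
    have h2 : C e k r = 2 ^ k * ((r : ℤ) - (e * u - e)) + q * (-(e * v)) := by
      unfold C
      push_cast at huv
      linear_combination e * huv
    rw [h2]
    exact dvd_add (Dvd.dvd.mul_left h1 _) (dvd_mul_right _ _)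
  have hrj : ∀ j < k, ¬ (q : ℤ) ∣ C e j r := by
    intro j hj hd
    have h1 : (q : ℤ) ∣ e * (2 ^ (k - j) - 1) := by
      have h2 : e * (2 ^ (k - j) - 1) = C e k r - 2 ^ (k - j) * C e j r := by
        have h3 : (2 : ℤ) ^ k = 2 ^ (k - j) * 2 ^ j := by
          rw [← pow_add]; congr 1; omega
        unfold C
        rw [h3]; ring
      rw [h2]
      exact dvd_sub hrk (Dvd.dvd.mul_left hd _)
    have h4 : (q : ℤ) ∣ 2 ^ (k - j) - 1 := by
      rcases he with rfl | rfl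
      · simpa using h1
      · have : (-1 : ℤ) * (2 ^ (k - j) - 1) = -(2 ^ (k - j) - 1) := by ring
        rw [this] at h1
        exact (dvd_neg.1 h1)
    have h5 : (2 : ℤ) ^ 1 ≤ 2 ^ (k - j) := pow_le_pow_right₀ (by norm_num) (by omega)
    have h6 : (2 : ℤ) ^ (k - j) ≤ 2 ^ k := pow_le_pow_right₀ (by norm_num) (by omega)
    have h7 : (q : ℤ) ≤ 2 ^ (k - j) - 1 := Int.le_of_dvd (by linarith) h4
    have h8 : ((2 : ℤ) ^ k) + 1 ≤ q := by exact_mod_cast hqk
    linarith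
  have hform : ∀ (j m : ℕ), (2 ^ j * (q : ℤ)) * (m : ℤ) + C e j r = C e j (q * m + r) := by
    intro j m
    unfold C
    push_cast
    ring
  have hdd : ∀ p : ℕ, p.Prime → ¬ (p : ℤ) ∣ -e := by
    intro p hp hd
    have h2 : (p : ℤ) ∣ 1 := by
      rcases he with rfl | rfl
      · exact (dvd_neg.1 hd)
      · simpa using hd
    have h3 : p ∣ 1 := by exact_mod_cast h2
    exact hp.one_lt.ne' (Nat.dvd_one.1 h3)
  have hcard : (S.subtype (· ∈ range k)).card = S.card := by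
    rw [Finset.card_subtype]
    congr 1
    exact Finset.filter_true_of_mem fun x hx => hS hx
  have hsum : ∀ n : ℕ, ∑ i ∈ S.subtype (· ∈ range k),
      ArithmeticFunction.cardFactors (C e (i : ℕ) n).natAbs =
      ∑ j ∈ S, ArithmeticFunction.cardFactors (C e j n).natAbs := by
    intro n
    rw [Finset.sum_subtype_of_mem (p := (· ∈ range k))
      (fun j => ArithmeticFunction.cardFactors (C e j n).natAbs) (fun x hx => hS hx)]
  obtain ⟨R, δ, hδ, x₀, h⟩ := Pool.Agent.H661R3.OP.both Pool.Agent.H661R3.OP.liou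
    {j // j ∈ range k} (fun j => 2 ^ (j : ℕ) * (q : ℤ)) (fun j => C e (j : ℕ) r)
    (S.subtype (· ∈ range k)) (fun j => by
      have : (0 : ℤ) < q := by exact_mod_cast hq.pos
      positivity) (by
      intro i j hij h0
      apply hij
      apply Subtype.ext
      have h1 : e * (q : ℤ) * ((2 : ℤ) ^ (j : ℕ) - 2 ^ (i : ℕ)) = 0 := by
        unfold C at h0
        linear_combination h0
      have h2 : (2 : ℤ) ^ (j : ℕ) - 2 ^ (i : ℕ) = 0 := by
        rcases mul_eq_zero.1 h1 with h3 | h3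
        · exfalso
          rcases mul_eq_zero.1 h3 with h4 | h4
          · rcases he with rfl | rfl <;> norm_num at h4
          · exact hqz h4
        · exact h3
      have h3 : (2 : ℤ) ^ (i : ℕ) = 2 ^ (j : ℕ) := by linarith
      exact Int.pow_right_injective (by norm_num : 1 < (2 : ℤ).natAbs) h3) (by rw [hcard]; exact hodd)
    (by
      intro p hp
      by_cases hpq : p = q
      · refine ⟨0, fun i hd => hrj i (mem_range.1 i.2) ?_⟩
        rw [mul_zero, zero_add, hpq] at hd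
        exact hd
      · have hc2 : IsCoprime (q : ℤ) (p : ℤ) := by
          rw [Nat.isCoprime_iff_coprime]
          exact (Nat.coprime_primes hq hp).2 (Ne.symm hpq)
        obtain ⟨u', v', huv'⟩ := hc2
        refine ⟨u' * (-e - r), fun i hd => hdd p hp ?_⟩
        have h1 : -e = (2 ^ (i : ℕ) * (q : ℤ) * (u' * (-e - r)) + C e (i : ℕ) r) -
            p * (2 ^ (i : ℕ) * ((e + r) * v')) := by
          unfold C
          linear_combination (2 ^ (i : ℕ) * (e + r)) * huv'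
        rw [h1]
        exact dvd_sub hd (dvd_mul_right _ _)) (ε / 2) (by positivity)
  have hAB : ∀ P : ℕ → Prop, ∀ z z' : ℝ, ∀ m : ℕ, 0 < m → z' ≤ z →
      ((∀ i : {j // j ∈ range k}, 0 < 2 ^ (i : ℕ) * (q : ℤ) * m + C e (i : ℕ) r ∧
        ArithmeticFunction.cardFactors (2 ^ (i : ℕ) * (q : ℤ) * m + C e (i : ℕ) r).natAbs ≤ R ∧
        ∀ p : ℕ, p.Prime → (p : ℤ) ∣ 2 ^ (i : ℕ) * (q : ℤ) * m + C e (i : ℕ) r → z < p) ∧
      P (∑ i ∈ S.subtype (· ∈ range k), ArithmeticFunction.cardFactors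
        (2 ^ (i : ℕ) * (q : ℤ) * m + C e (i : ℕ) r).natAbs)) →
      (Good e k R z' (q * m + r) ∧
        P (∑ j ∈ S, ArithmeticFunction.cardFactors (C e j (q * m + r)).natAbs)) := by
    intro P z z' m hm hzz hh
    obtain ⟨h1, h2⟩ := hh
    simp only [hform] at h1 h2
    rw [hsum] at h2
    have hqk' : (2 : ℤ) ^ k + 1 ≤ q := by exact_mod_cast hqk
    have h2k' : (2 : ℤ) ≤ 2 ^ k := by exact_mod_cast h2k
    have hm' : (1 : ℤ) ≤ m := by exact_mod_cast hm
    have hq0 : (0 : ℤ) < q := by exact_mod_cast hq.pos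
    have hr0 : (0 : ℤ) ≤ r := Int.natCast_nonneg r
    have hbig : (q : ℤ) < C e k (q * m + r) := by
      have h3 : C e k (q * m + r) = 2 ^ k * ((q : ℤ) * m + r + e) - e := by
        unfold C
        push_cast
        ring
      rw [h3]
      have h4 : (q : ℤ) ≤ q * m := by nlinarith
      have he1 : -1 ≤ e := by rcases he with rfl | rfl <;> norm_num
      have he2 : e ≤ 1 := by rcases he with rfl | rfl <;> norm_num
      have h5 : (2 : ℤ) * (q - 1) ≤ 2 ^ k * ((q : ℤ) * m + r + e) :=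
        mul_le_mul h2k' (by linarith) (by linarith) (by linarith)
      have h6 : (3 : ℤ) ≤ q := by linarith
      rcases he with rfl | rfl
      · have h7 : (2 : ℤ) * (q + 1) ≤ 2 ^ k * ((q : ℤ) * m + r + 1) :=
          mul_le_mul h2k' (by linarith) (by linarith) (by linarith)
        linarith
      · linarith
    refine ⟨⟨fun j hj => ?_, ?_, ?_⟩, h2⟩
    · obtain ⟨h3, h4, h5⟩ := h1 ⟨j, mem_range.2 hj⟩
      exact ⟨h3, h4, fun p hp hpd => lt_of_le_of_lt hzz (h5 p hp hpd)⟩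
    · have : (1 : ℤ) < q := by exact_mod_cast hq.one_lt
      linarith
    · intro hprime
      have h3 : (q : ℤ) ∣ C e k (q * m + r) := by
        rw [← hform k m]
        exact dvd_add (Dvd.dvd.mul_right (dvd_mul_left _ _) _) hrk
      have h4 : q ∣ (C e k (q * m + r)).natAbs := by
        rw [← Int.natCast_dvd]
        exact h3
      have h5 : q = (C e k (q * m + r)).natAbs := (Nat.prime_dvd_prime_iff_eq hq hprime).1 h4
      have h6 : ((C e k (q * m + r)).natAbs : ℤ) = C e k (q * m + r) :=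
        Int.natAbs_of_nonneg (by linarith)
      rw [← h5] at h6
      linarith
  have t1 := transfer (fun z m => (∀ i : {j // j ∈ range k}, 0 < 2 ^ (i : ℕ) * (q : ℤ) * m +
      C e (i : ℕ) r ∧
        ArithmeticFunction.cardFactors (2 ^ (i : ℕ) * (q : ℤ) * m + C e (i : ℕ) r).natAbs ≤ R ∧
        ∀ p : ℕ, p.Prime → (p : ℤ) ∣ 2 ^ (i : ℕ) * (q : ℤ) * m + C e (i : ℕ) r → z < p) ∧
      Odd (∑ i ∈ S.subtype (· ∈ range k), ArithmeticFunction.cardFactors
        (2 ^ (i : ℕ) * (q : ℤ) * m + C e (i : ℕ) r).natAbs))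
    (fun z n => Good e k R z n ∧
      Odd (∑ j ∈ S, ArithmeticFunction.cardFactors (C e j n).natAbs)) q r hq.pos δ ε hδ hε
    ⟨x₀, fun x hx => (h x hx).1⟩ (hAB Odd)
  have t2 := transfer (fun z m => (∀ i : {j // j ∈ range k}, 0 < 2 ^ (i : ℕ) * (q : ℤ) * m +
      C e (i : ℕ) r ∧
        ArithmeticFunction.cardFactors (2 ^ (i : ℕ) * (q : ℤ) * m + C e (i : ℕ) r).natAbs ≤ R ∧
        ∀ p : ℕ, p.Prime → (p : ℤ) ∣ 2 ^ (i : ℕ) * (q : ℤ) * m + C e (i : ℕ) r → z < p) ∧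
      Even (∑ i ∈ S.subtype (· ∈ range k), ArithmeticFunction.cardFactors
        (2 ^ (i : ℕ) * (q : ℤ) * m + C e (i : ℕ) r).natAbs))
    (fun z n => Good e k R z n ∧
      Even (∑ j ∈ S, ArithmeticFunction.cardFactors (C e j n).natAbs)) q r hq.pos δ ε hδ hε
    ⟨x₀, fun x hx => (h x hx).2⟩ (hAB Even)
  obtain ⟨x₁, hx₁⟩ := t1
  obtain ⟨x₂, hx₂⟩ := t2
  exact ⟨R, δ / 2, by positivity, max x₁ x₂, fun x hx =>
    ⟨hx₁ x ((le_max_left _ _).trans hx), hx₂ x ((le_max_right _ _).trans hx)⟩⟩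

end Pool.Agent.H601R2.ExactChain
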