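import Mathlib

/-!
# Kernels of digraphs: the combinatorial core

A ring of `R` tracks of length `L = d + g`; in every track there are stops.  Tokens sit on the ring
at circular distance at least `d`; a kernel is a set of tokens none of which can be slid forward.
-/

namespace Pool.Agent.NPC.KP

/-- `K` is a kernel of the subdigraph of `arc` induced by `S`: it is contained in `S`, independent,
and every vertex of `S` outside `K` has an arc to a vertex of `K`. -/
def IsKernel {α : Type*} (arc : α → α → Prop) (S K : Finset α) : Prop :=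
  K ⊆ S ∧ (∀ u ∈ K, ∀ v ∈ K, ¬ arc u v) ∧ ∀ u ∈ S, u ∉ K → ∃ v ∈ K, arc u v

/-- Duchet's theorem: if the one-way arcs form an acyclic digraph, then there is a kernel. -/
theorem duchet {α : Type*} (arc : α → α → Prop) (hirr : ∀ u, ¬ arc u u) (ρ : α → ℕ) :
    ∀ (n : ℕ) (S : Finset α), S.card = n →
      (∀ u ∈ S, ∀ v ∈ S, arc u v → arc v u ∨ ρ u < ρ v) → ∃ K, IsKernel arc S K := by
  classical
  intro n
  induction n using Nat.strong_induction_on with
  | _ n ih =>
    intro S hn hS
    by_cases hne : S.Nonempty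
    · obtain ⟨u, hu, hmax⟩ := S.exists_max_image ρ hne
      have hsym : ∀ v ∈ S, arc u v → arc v u := by
        intro v hv h
        rcases hS u hu v hv h with h | h
        · exact h
        · have := hmax v hv
          omega
      let S' := S.filter (fun v => v ≠ u ∧ ¬ arc v u)
      have hS' : S' ⊆ S := Finset.filter_subset _ _
      have huS' : u ∉ S' := by simp [S']
      have hlt : S'.card < n := by
        rw [← hn]
        exact Finset.card_lt_card ⟨hS', fun h => huS' (h hu)⟩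
      obtain ⟨K, hKS, hind, habs⟩ := ih _ hlt S' rfl (fun a ha b hb => hS a (hS' ha) b (hS' hb))
      refine ⟨insert u K, ?_, ?_, ?_⟩
      · intro v hv
        rw [Finset.mem_insert] at hv
        rcases hv with rfl | hv
        · exact hu
        · exact hS' (hKS hv)
      · intro a ha b hb hab
        rw [Finset.mem_insert] at ha hb
        rcases ha with rfl | ha <;> rcases hb with rfl | hb
        · exact hirr _ hab
        · have h1 := Finset.mem_filter.1 (hKS hb)
          exact h1.2.2 (hsym b h1.1 hab)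
        · exact (Finset.mem_filter.1 (hKS ha)).2.2 hab
        · exact hind a ha b hb hab
      · intro v hv hvK
        rw [Finset.mem_insert, not_or] at hvK
        by_cases hvu : arc v u
        · exact ⟨u, Finset.mem_insert_self _ _, hvu⟩
        · obtain ⟨w, hw, hvw⟩ := habs v (Finset.mem_filter.2 ⟨hv, hvK.1, hvu⟩) hvK.2
          exact ⟨w, Finset.mem_insert_of_mem hw, hvw⟩
    · rw [Finset.not_nonempty_iff_eq_empty] at hne
      subst hne
      exact ⟨∅, by simp [IsKernel]⟩

/-- Parameters of the ring: number of tracks, slack, bound for the number of stops, number of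
stops of a track. -/
structure Ring where
  /-- number of tracks -/
  R : ℕ
  /-- bound for the number of stops of a track -/
  M : ℕ
  /-- number of stops of a track -/
  len : ℕ → ℕ
  hR : 2 ≤ R
  hlen : ∀ r, len r ≤ M

namespace Ring

variable (A : Ring)

/-- The slack. -/
def g : ℕ := 3 * A.M + 6
/-- The exclusion distance. -/
def d : ℕ := A.R * A.g + 2
/-- The length of a track. -/
def L : ℕ := A.d + A.g

/-- The next track. -/
def nx (r : ℕ) : ℕ := if r + 1 = A.R then 0 else r + 1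

/-- The offset `o` is a stop of track `r`. -/
def stop (r o : ℕ) : Prop := 3 ≤ o ∧ o % 3 = 0 ∧ o / 3 ≤ A.len r

/-- Forward arcs between positions. -/
def fwd (r o r' o' : ℕ) : Prop :=
  (r' = r ∧ o' = o + 1) ∨ (r' = A.nx r ∧ o + 1 = A.L ∧ o' = 0)

/-- Position `(r', o')` is at distance between `2` and `d - 1` ahead of `(r, o)`. -/
def ahead (r o r' o' : ℕ) : Prop :=
  (r' = r ∧ o + 2 ≤ o' ∧ o' < o + A.d) ∨ (r' = A.nx r ∧ o + 2 ≤ o' + A.L ∧ o' + A.L < o + A.d)

/-- `(r, o)` comes immediately after a stop, and `(r', o')` is a stop of the next track. -/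
def link (r o r' o' : ℕ) : Prop :=
  1 ≤ o ∧ A.stop r (o - 1) ∧ r' = A.nx r ∧ A.stop r' o'

theorem nx_lt {r : ℕ} (hr : r < A.R) : A.nx r < A.R := by
  unfold nx
  split_ifs <;> omega

theorem nx_ne {r : ℕ} (_hr : r < A.R) : A.nx r ≠ r := by
  have := A.hR
  unfold nx
  split_ifs <;> omega

theorem nx_inj {r r' : ℕ} (hr : r < A.R) (hr' : r' < A.R) (h : A.nx r = A.nx r') : r = r' := by
  unfold nx at h
  split_ifs at h <;> omega

theorem nx_iterate {r : ℕ} (hr : r < A.R) : ∀ j ≤ A.R,
    A.nx^[j] r = if r + j < A.R then r + j else r + j - A.R := by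
  intro j
  induction j with
  | zero => intro _; simp [hr]
  | succ j ih =>
    intro hj
    rw [Function.iterate_succ_apply', ih (by omega)]
    unfold nx
    split_ifs <;> omega

theorem g_ge : 3 * A.M + 6 ≤ A.g := le_rfl

theorem d_ge : 2 * A.g + 2 ≤ A.d := by
  have := Nat.mul_le_mul_right A.g A.hR
  unfold d
  omega

theorem L_eq : A.L = A.d + A.g := rfl

theorem stop_lt {r o : ℕ} (h : A.stop r o) : 3 ≤ o ∧ o ≤ 3 * A.M ∧ o % 3 = 0 := by
  obtain ⟨h1, h2, h3⟩ := h
  have := A.hlen r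
  refine ⟨h1, ?_, h2⟩
  omega

section Arc

variable {α : Type*} (tr of : α → ℕ) (cf : α → α → Prop)

/-- The arcs of the digraph. -/
def arc (u v : α) : Prop :=
  u ≠ v ∧ (A.fwd (tr u) (of u) (tr v) (of v) ∨ A.ahead (tr u) (of u) (tr v) (of v) ∨
    A.ahead (tr v) (of v) (tr u) (of u) ∨ (tr u = tr v ∧ of u = of v) ∨
    A.link (tr u) (of u) (tr v) (of v) ∨ A.link (tr v) (of v) (tr u) (of u) ∨ cf u v ∨ cf v u)

/-- A digraph which misses a position has a kernel. -/
theorem kernel_of_missing {S : Finset α} (hS : ∀ v ∈ S, tr v < A.R ∧ of v < A.L) {r₀ o₀ : ℕ}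
    (hr₀ : r₀ < A.R) (ho₀ : o₀ < A.L) (hmiss : ∀ v ∈ S, ¬ (tr v = r₀ ∧ of v = o₀)) :
    ∃ K, IsKernel (A.arc tr of cf) S K := by
  have hpos₀ : r₀ * A.L + A.L ≤ A.R * A.L := by
    have := Nat.mul_le_mul_right A.L hr₀
    rw [Nat.succ_mul] at this
    exact this
  have pos_inj : ∀ r o r' o' : ℕ, o < A.L → o' < A.L → r * A.L + o = r' * A.L + o' →
      r = r' ∧ o = o' := by
    intro r o r' o' ho ho' h
    have hL : 0 < A.L := by omega
    have h1 : (r * A.L + o) / A.L = r := by
      rw [Nat.mul_comm, Nat.mul_add_div hL, Nat.div_eq_of_lt ho, Nat.add_zero]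
    have h2 : (r' * A.L + o') / A.L = r' := by
      rw [Nat.mul_comm, Nat.mul_add_div hL, Nat.div_eq_of_lt ho', Nat.add_zero]
    have : r = r' := by rw [← h1, ← h2, h]
    subst this
    exact ⟨rfl, by omega⟩
  refine duchet _ (fun u h => h.1 rfl) (fun v => if r₀ * A.L + o₀ < tr v * A.L + of v then
    tr v * A.L + of v else tr v * A.L + of v + A.R * A.L) _ S rfl ?_
  intro u hu v hv h
  obtain ⟨hne, h⟩ := h
  obtain ⟨hu1, hu2⟩ := hS u hu
  obtain ⟨hv1, hv2⟩ := hS v hv
  have hu3 : tr u * A.L + of u ≠ r₀ * A.L + o₀ := fun h =>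
    hmiss u hu (pos_inj _ _ _ _ hu2 ho₀ h)
  have hv3 : tr v * A.L + of v ≠ r₀ * A.L + o₀ := fun h =>
    hmiss v hv (pos_inj _ _ _ _ hv2 ho₀ h)
  rcases h with h | h
  · right
    have hN : (tr u + 1) * A.L ≤ A.R * A.L := Nat.mul_le_mul_right _ hu1
    rcases h with ⟨h1, h2⟩ | ⟨h1, h2, h3⟩
    · rw [h1, h2] at hv3 ⊢
      split_ifs <;> omega
    · unfold nx at h1
      split_ifs at h1 with hR
      · rw [h1, h3] at hv3 ⊢
        have e : (tr u + 1) * A.L = A.R * A.L := by rw [hR]
        rw [Nat.add_mul] at e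
        simp only [Nat.zero_mul] at hv3 ⊢
        split_ifs <;> omega
      · rw [h1, h3] at hv3 ⊢
        rw [Nat.add_mul] at hv3 ⊢
        split_ifs <;> omega
  · left
    refine ⟨hne.symm, Or.inr ?_⟩
    rcases h with h | h | h | h | h | h | h
    · exact Or.inr (Or.inl h)
    · exact Or.inl h
    · exact Or.inr (Or.inr (Or.inl ⟨h.1.symm, h.2.symm⟩))
    · exact Or.inr (Or.inr (Or.inr (Or.inr (Or.inl h))))
    · exact Or.inr (Or.inr (Or.inr (Or.inl h)))
    · exact Or.inr (Or.inr (Or.inr (Or.inr (Or.inr (Or.inr h)))))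
    · exact Or.inr (Or.inr (Or.inr (Or.inr (Or.inr (Or.inl h)))))

section Full

variable {A tr of cf} {S K : Finset α} (hS : ∀ v ∈ S, tr v < A.R ∧ of v < A.L)
  (hfull : ∀ r < A.R, ∀ o < A.L, ∃ v ∈ S, tr v = r ∧ of v = o)
  (hcf : ∀ u v, cf u v → A.stop (tr u) (of u) ∧ A.stop (tr v) (of v))
  (hK : IsKernel (A.arc tr of cf) S K)

/-- Some vertex of `K` is at position `(r, o)`. -/
def Occ (tr of : α → ℕ) (K : Finset α) (r o : ℕ) : Prop := ∃ v ∈ K, tr v = r ∧ of v = o

include hS hK in
theorem Occ.lt {r o : ℕ} (h : Occ tr of K r o) : r < A.R ∧ o < A.L := by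
  obtain ⟨v, hv, rfl, rfl⟩ := h
  exact hS v (hK.1 hv)

include hS hK in
theorem Occ.not_ahead {r o r' o' : ℕ} (h : Occ tr of K r o) (h' : Occ tr of K r' o') :
    ¬ A.ahead r o r' o' := by
  intro ha
  have hlt := h.lt hS hK
  obtain ⟨v, hv, hv1, hv2⟩ := h
  obtain ⟨w, hw, hw1, hw2⟩ := h'
  refine hK.2.1 v hv w hw ⟨?_, Or.inr (Or.inl (by rw [hv1, hv2, hw1, hw2]; exact ha))⟩
  rintro rfl
  have hr : r = r' := by rw [← hv1, ← hw1]
  have ho : o = o' := by rw [← hv2, ← hw2]
  subst hr ho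
  rcases ha with ha | ha
  · omega
  · exact A.nx_ne hlt.1 ha.1.symm

include hS hK in
theorem Occ.not_fwd {r o r' o' : ℕ} (h : Occ tr of K r o) (h' : Occ tr of K r' o') :
    ¬ A.fwd r o r' o' := by
  intro ha
  have hlt := h.lt hS hK
  obtain ⟨v, hv, hv1, hv2⟩ := h
  obtain ⟨w, hw, hw1, hw2⟩ := h'
  refine hK.2.1 v hv w hw ⟨?_, Or.inl (by rw [hv1, hv2, hw1, hw2]; exact ha)⟩
  rintro rfl
  have hr : r = r' := by rw [← hv1, ← hw1]
  have ho : o = o' := by rw [← hv2, ← hw2]
  subst hr ho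
  rcases ha with ha | ha
  · omega
  · exact A.nx_ne hlt.1 ha.1.symm

include hS hfull hcf hK in
/-- Every token is blocked. -/
theorem blocked {r o : ℕ} (h : Occ tr of K r o) :
    (o < A.g ∧ Occ tr of K r (o + A.d)) ∨ (A.g ≤ o ∧ Occ tr of K (A.nx r) (o - A.g)) ∨
    (A.stop r o ∧ ∃ o', Occ tr of K (A.nx r) o' ∧ A.stop (A.nx r) o') ∨
    (A.stop r (o + 1) ∧ ∃ r' o', Occ tr of K r' o' ∧ 1 ≤ o' ∧ A.stop r' (o' - 1)) ∨
    (A.stop r (o + 1) ∧ ∃ r' o', Occ tr of K r' o' ∧ A.stop r' o') := by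
  have hlt := h.lt hS hK
  have hg := A.g_ge
  have hd := A.d_ge
  have hL := A.L_eq
  have hnx := A.nx_lt hlt.1
  by_cases ho : o + 1 < A.L
  · obtain ⟨w, hwS, hw1, hw2⟩ := hfull r hlt.1 (o + 1) ho
    have hwK : w ∉ K := fun hw => h.not_fwd hS hK ⟨w, hw, hw1, hw2⟩ (Or.inl ⟨rfl, rfl⟩)
    obtain ⟨x, hx, hwx⟩ := hK.2.2 w hwS hwK
    have hxO : Occ tr of K (tr x) (of x) := ⟨x, hx, rfl, rfl⟩
    have hxlt := hxO.lt hS hK
    have hna := h.not_ahead hS hK hxO
    have hna' := hxO.not_ahead hS hK h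
    have hnf := h.not_fwd hS hK hxO
    have hnf' := hxO.not_fwd hS hK h
    unfold fwd at hnf hnf'
    unfold ahead at hna hna'
    obtain ⟨hne, hwx⟩ := hwx
    rw [hw1, hw2] at hwx
    rcases hwx with hwx | hwx | hwx | hwx | hwx | hwx | hwx | hwx
    · exfalso
      rcases hwx with ⟨h1, h2⟩ | ⟨h1, h2, h3⟩
      · exact hna (Or.inl ⟨h1, by omega, by omega⟩)
      · exact hna (Or.inr ⟨h1, by omega, by omega⟩)
    · rcases hwx with ⟨h1, h2, h3⟩ | ⟨h1, h2, h3⟩
      · left
        have : of x = o + A.d := by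
          by_contra hne'
          exact hna (Or.inl ⟨h1, by omega, by omega⟩)
        refine ⟨by omega, ?_⟩
        rw [← this, ← h1]
        exact hxO
      · right; left
        have : of x + A.L = o + A.d := by
          by_contra hne'
          exact hna (Or.inr ⟨h1, by omega, by omega⟩)
        refine ⟨by omega, ?_⟩
        rw [show o - A.g = of x by omega, ← h1]
        exact hxO
    · exfalso
      rcases hwx with ⟨h1, h2, h3⟩ | ⟨h1, h2, h3⟩
      · by_cases h4 : of x + 1 = o
        · exact hnf' (Or.inl ⟨h1, h4.symm⟩)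
        · exact hna' (Or.inl ⟨h1, by omega, by omega⟩)
      · by_cases h4 : of x + 1 = o + A.L
        · exact hnf' (Or.inr ⟨h1, by omega, by omega⟩)
        · exact hna' (Or.inr ⟨h1, by omega, by omega⟩)
    · exfalso
      exact hnf (Or.inl ⟨hwx.1.symm, hwx.2.symm⟩)
    · right; right; left
      obtain ⟨_, h2, h3, h4⟩ := hwx
      refine ⟨by simpa using h2, of x, ?_, ?_⟩
      · rw [← h3]; exact hxO
      · rw [← h3]; exact h4
    · right; right; right; left
      obtain ⟨h1, h2, h3, h4⟩ := hwx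
      exact ⟨h4, tr x, of x, hxO, h1, h2⟩
    · right; right; right; right
      have := hcf _ _ hwx
      rw [hw1, hw2] at this
      exact ⟨this.1, tr x, of x, hxO, this.2⟩
    · right; right; right; right
      have := hcf _ _ hwx
      rw [hw1, hw2] at this
      exact ⟨this.2, tr x, of x, hxO, this.1⟩
  · obtain ⟨w, hwS, hw1, hw2⟩ := hfull (A.nx r) hnx 0 (by omega)
    have hoL : o + 1 = A.L := by omega
    have hwK : w ∉ K := fun hw => h.not_fwd hS hK ⟨w, hw, hw1, hw2⟩ (Or.inr ⟨rfl, hoL, rfl⟩)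
    obtain ⟨x, hx, hwx⟩ := hK.2.2 w hwS hwK
    have hxO : Occ tr of K (tr x) (of x) := ⟨x, hx, rfl, rfl⟩
    have hxlt := hxO.lt hS hK
    have hna := h.not_ahead hS hK hxO
    have hna' := hxO.not_ahead hS hK h
    have hnf := h.not_fwd hS hK hxO
    have hnf' := hxO.not_fwd hS hK h
    unfold fwd at hnf hnf'
    unfold ahead at hna hna'
    obtain ⟨hne, hwx⟩ := hwx
    rw [hw1, hw2] at hwx
    rcases hwx with hwx | hwx | hwx | hwx | hwx | hwx | hwx | hwx
    · exfalso
      rcases hwx with ⟨h1, h2⟩ | ⟨h1, h2, h3⟩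
      · exact hna (Or.inr ⟨h1, by omega, by omega⟩)
      · omega
    · rcases hwx with ⟨h1, h2, h3⟩ | ⟨h1, h2, h3⟩
      · right; left
        have : of x + 1 = A.d := by
          by_contra hne'
          exact hna (Or.inr ⟨h1, by omega, by omega⟩)
        refine ⟨by omega, ?_⟩
        rw [show o - A.g = of x by omega, ← h1]
        exact hxO
      · omega
    · exfalso
      rcases hwx with ⟨h1, h2, h3⟩ | ⟨h1, h2, h3⟩
      · omega
      · have hr := A.nx_inj hlt.1 hxlt.1 h1
        by_cases h4 : of x + 1 = o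
        · exact hnf' (Or.inl ⟨hr, h4.symm⟩)
        · exact hna' (Or.inl ⟨hr, by omega, by omega⟩)
    · exfalso
      exact hnf (Or.inr ⟨hwx.1.symm, hoL, hwx.2.symm⟩)
    · exact absurd hwx.1 (by omega)
    · exact absurd hwx.2.2.2.1 (by omega)
    · have := (hcf _ _ hwx).1
      rw [hw2] at this
      exact absurd this.1 (by omega)
    · have := (hcf _ _ hwx).2
      rw [hw2] at this
      exact absurd this.1 (by omega)

include hS hfull hcf hK in
theorem hstep {r o : ℕ} (h : Occ tr of K r o) (ho : A.g ≤ o) : Occ tr of K (A.nx r) (o - A.g) := by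
  have hg := A.g_ge
  rcases blocked hS hfull hcf hK h with h | h | h | h | h
  · omega
  · exact h.2
  · have := A.stop_lt h.1; omega
  · have := A.stop_lt h.1; omega
  · have := A.stop_lt h.1; omega

include hS hfull hcf hK in
theorem chain {r o : ℕ} (h : Occ tr of K r o) (ho : o < A.g) (h1 : Occ tr of K r (o + A.d)) :
    False := by
  have hg := A.g_ge
  have hd := A.d_ge
  have hL := A.L_eq
  have hR := A.hR
  have hlt := h.lt hS hK
  have key : ∀ j, j + 1 ≤ A.R → Occ tr of K (A.nx^[j] r) (o + A.d - j * A.g) := by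
    intro j
    induction j with
    | zero => intro _; simpa using h1
    | succ j ih =>
      intro hj
      have h2 := ih (by omega)
      have h3 : (j + 1 + 1) * A.g ≤ A.R * A.g := Nat.mul_le_mul_right _ hj
      have h4 : (j + 1 + 1) * A.g = j * A.g + A.g + A.g := by ring
      have hdd : A.d = A.R * A.g + 2 := rfl
      have h5 := hstep hS hfull hcf hK h2 (by omega)
      rw [Function.iterate_succ_apply']
      rw [show o + A.d - (j + 1) * A.g = o + A.d - j * A.g - A.g by
        rw [Nat.add_mul, Nat.one_mul]; omega]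
      exact h5
  have h2 := key (A.R - 1) (by omega)
  have h3 : A.nx (A.nx^[A.R - 1] r) = r := by
    rw [← Function.iterate_succ_apply' A.nx, A.nx_iterate hlt.1 _ (by omega)]
    split_ifs <;> omega
  have hdd : A.d = A.R * A.g + 2 := rfl
  have h4 : (A.R - 1) * A.g + A.g = A.R * A.g := by
    rw [← Nat.succ_mul]
    congr 1
    omega
  refine h2.not_ahead hS hK h (Or.inr ⟨h3.symm, ?_, ?_⟩) <;> omega

include hS hfull hcf hK in
theorem blocked' {r o : ℕ} (h : Occ tr of K r o) (ho : o < A.g) :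
    (A.stop r o ∧ ∃ o', Occ tr of K (A.nx r) o' ∧ A.stop (A.nx r) o') ∨
    (A.stop r (o + 1) ∧ ∃ r' o', Occ tr of K r' o' ∧ A.stop r' o') := by
  have hg := A.g_ge
  have aux : ∀ {r o : ℕ}, Occ tr of K r o → o < A.g →
      (A.stop r o ∧ ∃ o', Occ tr of K (A.nx r) o' ∧ A.stop (A.nx r) o') ∨
      (A.stop r (o + 1) ∧ ∃ r' o', Occ tr of K r' o' ∧ 1 ≤ o' ∧ A.stop r' (o' - 1)) ∨
      (A.stop r (o + 1) ∧ ∃ r' o', Occ tr of K r' o' ∧ A.stop r' o') := by
    intro r o h ho
    rcases blocked hS hfull hcf hK h with h1 | h1 | h1 | h1 | h1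
    · exact absurd h1.2 (fun h2 => chain hS hfull hcf hK h ho h2)
    · omega
    · exact Or.inl h1
    · exact Or.inr (Or.inl h1)
    · exact Or.inr (Or.inr h1)
  rcases aux h ho with h1 | h1 | h1
  · exact Or.inl h1
  · exfalso
    obtain ⟨_, r', o', h2, h3, h4⟩ := h1
    have h5 := A.stop_lt h4
    rcases aux h2 (by omega) with h6 | h6 | h6
    · have := A.stop_lt h6.1; omega
    · have := A.stop_lt h6.1; omega
    · have := A.stop_lt h6.1; omega
  · exact Or.inr h1

include hS hfull hcf hK in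
theorem small {r o : ℕ} (h : Occ tr of K r o) : ∃ r' o', Occ tr of K r' o' ∧ o' < A.g := by
  have hg := A.g_ge
  induction o using Nat.strong_induction_on generalizing r with
  | _ o ih =>
    by_cases ho : o < A.g
    · exact ⟨r, o, h, ho⟩
    · exact ih (o - A.g) (by omega) (hstep hS hfull hcf hK h (by omega))

include hS hfull hcf hK in
/-- In a kernel of a full set, every track has a token at a stop. -/
theorem all_stops : ∀ r < A.R, ∃ o, Occ tr of K r o ∧ A.stop r o := by
  have hg := A.g_ge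
  have hR := A.hR
  have hL := A.L_eq
  -- nonempty
  obtain ⟨v, hv, _⟩ := hfull 0 (by omega) 0 (by omega)
  have hne : ∃ w, w ∈ K := by
    by_cases hvK : v ∈ K
    · exact ⟨v, hvK⟩
    · obtain ⟨w, hw, _⟩ := hK.2.2 v hv hvK
      exact ⟨w, hw⟩
  obtain ⟨w, hw⟩ := hne
  obtain ⟨r₁, o₁, h1, h2⟩ := small hS hfull hcf hK (⟨w, hw, rfl, rfl⟩ : Occ tr of K _ _)
  have h3 : ∃ r o, Occ tr of K r o ∧ A.stop r o := by
    rcases blocked' hS hfull hcf hK h1 h2 with h | h
    · exact ⟨_, _, h1, h.1⟩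
    · exact h.2
  have hnext : ∀ r o, Occ tr of K r o → A.stop r o →
      ∃ o', Occ tr of K (A.nx r) o' ∧ A.stop (A.nx r) o' := by
    intro r o h hst
    have h4 := A.stop_lt hst
    rcases blocked' hS hfull hcf hK h (by omega) with h5 | h5
    · exact h5.2
    · have := A.stop_lt h5.1; omega
  obtain ⟨r₀, o₀, h4, h5⟩ := h3
  have hr₀ := (h4.lt hS hK).1
  have key : ∀ j, ∃ o, Occ tr of K (A.nx^[j] r₀) o ∧ A.stop (A.nx^[j] r₀) o := by
    intro j
    induction j with
    | zero => exact ⟨o₀, h4, h5⟩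
    | succ j ih =>
      obtain ⟨o, h6, h7⟩ := ih
      rw [Function.iterate_succ_apply']
      exact hnext _ _ h6 h7
  intro r hr
  by_cases hrr : r₀ ≤ r
  · have := key (r - r₀)
    rw [A.nx_iterate hr₀ _ (by omega), if_pos (by omega), show r₀ + (r - r₀) = r by omega] at this
    exact this
  · have := key (r + A.R - r₀)
    rw [A.nx_iterate hr₀ _ (by omega), if_neg (by omega),
      show r₀ + (r + A.R - r₀) - A.R = r by omega] at this
    exact this

end Full

section Selection

variable {A tr of cf} {S : Finset α} (hS : ∀ v ∈ S, tr v < A.R ∧ of v < A.L)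
  (k : ℕ → α) (hk : ∀ r < A.R, k r ∈ S ∧ tr (k r) = r ∧ A.stop r (of (k r)))
  (hcf : ∀ r < A.R, ∀ r' < A.R, ¬ cf (k r) (k r'))

include hS hk hcf in
/-- A choice of compatible stops, one in every track, is a kernel. -/
theorem kernel_of_selection : ∃ K, IsKernel (A.arc tr of cf) S K := by
  classical
  have hg := A.g_ge
  have hd := A.d_ge
  have hL := A.L_eq
  refine ⟨(Finset.range A.R).image k, ?_, ?_, ?_⟩
  · intro v hv
    rw [Finset.mem_image] at hv
    obtain ⟨r, hr, rfl⟩ := hv
    exact (hk r (Finset.mem_range.1 hr)).1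
  · intro u hu v hv
    rw [Finset.mem_image] at hu hv
    obtain ⟨r, hr, rfl⟩ := hu
    obtain ⟨r', hr', rfl⟩ := hv
    rw [Finset.mem_range] at hr hr'
    obtain ⟨_, h1, h2⟩ := hk r hr
    obtain ⟨_, h1', h2'⟩ := hk r' hr'
    have h3 := A.stop_lt h2
    have h3' := A.stop_lt h2'
    rintro ⟨hne, h⟩
    have hrr : r ≠ r' := by rintro rfl; exact hne rfl
    rw [h1, h1'] at h
    rcases h with h | h | h | h | h | h | h | h
    · rcases h with h | h
      · exact hrr h.1.symm
      · omega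
    · rcases h with h | h
      · exact hrr h.1.symm
      · omega
    · rcases h with h | h
      · exact hrr h.1
      · omega
    · exact hrr h.1
    · have := A.stop_lt h.2.1; omega
    · have := A.stop_lt h.2.1; omega
    · exact hcf r hr r' hr' h
    · exact hcf r' hr' r hr h
  · intro u hu huK
    obtain ⟨hu1, hu2⟩ := hS u hu
    obtain ⟨_, h1, h2⟩ := hk (tr u) hu1
    have h3 := A.stop_lt h2
    obtain ⟨_, h1', h2'⟩ := hk _ (A.nx_lt hu1)
    have h3' := A.stop_lt h2'
    have hmem : ∀ r < A.R, k r ∈ (Finset.range A.R).image k := fun r hr =>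
      Finset.mem_image_of_mem k (Finset.mem_range.2 hr)
    have hne : u ≠ k (tr u) := fun h => huK (by rw [h]; exact hmem _ hu1)
    have hne' : u ≠ k (A.nx (tr u)) := fun h => huK (by rw [h]; exact hmem _ (A.nx_lt hu1))
    by_cases c1 : of u = of (k (tr u))
    · exact ⟨_, hmem _ hu1, hne, Or.inr (Or.inr (Or.inr (Or.inl ⟨h1.symm, c1⟩)))⟩
    by_cases c2 : of u = of (k (tr u)) + 1
    · refine ⟨_, hmem _ (A.nx_lt hu1), hne', Or.inr (Or.inr (Or.inr (Or.inr (Or.inl ?_))))⟩
      refine ⟨by omega, ?_, h1', ?_⟩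
      · rw [c2]; simpa using h2
      · rw [h1']; exact h2'
    by_cases c3 : of u + 1 = of (k (tr u))
    · exact ⟨_, hmem _ hu1, hne, Or.inl (Or.inl ⟨h1, c3.symm⟩)⟩
    by_cases c4 : of u < of (k (tr u))
    · exact ⟨_, hmem _ hu1, hne, Or.inr (Or.inl (Or.inl ⟨h1, by omega, by omega⟩))⟩
    by_cases c5 : of u < of (k (tr u)) + A.d
    · exact ⟨_, hmem _ hu1, hne, Or.inr (Or.inr (Or.inl (Or.inl ⟨h1.symm, by omega, by omega⟩)))⟩
    · exact ⟨_, hmem _ (A.nx_lt hu1), hne', Or.inr (Or.inl (Or.inr ⟨h1', by omega, by omega⟩))⟩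

end Selection

end Arc

end Ring

end Pool.Agent.NPC.KP
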