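import Mathlib

/-!
# Kernel-perfect digraphs as inputs of a decision problem
-/

namespace Pool.Agent.NPC.KP

/-- A digraph, given by the list of its vertices and the list of its arcs. -/
abbrev DG : Type := List ℕ × List (ℕ × ℕ)

/-- The lists describe a digraph: no repetitions, the ends of every arc are vertices, and there
are no loops. -/
def IsDigraph (D : DG) : Prop :=
  D.1.Nodup ∧ D.2.Nodup ∧ ∀ e ∈ D.2, e.1 ∈ D.1 ∧ e.2 ∈ D.1 ∧ e.1 ≠ e.2

/-- `K` is a kernel of the subdigraph of `D` induced by `S`: no arc joins two vertices of `K`, and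
every vertex of `S` outside `K` has an arc to a vertex of `K`. -/
def IsKernelOf (D : DG) (S K : Finset ℕ) : Prop :=
  K ⊆ S ∧ (∀ u ∈ K, ∀ v ∈ K, (u, v) ∉ D.2) ∧ ∀ u ∈ S, u ∉ K → ∃ v ∈ K, (u, v) ∈ D.2

/-- The problem KERNEL-PERFECTNESS: `D` is a digraph all of whose induced subdigraphs have a
kernel. -/
def KernelPerfect (D : DG) : Prop :=
  IsDigraph D ∧ ∀ S : Finset ℕ, (∀ v ∈ S, v ∈ D.1) → ∃ K : Finset ℕ, IsKernelOf D S K

end Pool.Agent.NPC.KP
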