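import Pool.Agent.H671R2.PolyAuto

/-!
# Predicates decidable in polynomial time
-/

namespace Pool.Agent.NPC

/-- A predicate on encodable data which can be decided in polynomial time by a program. -/
def PP {α : Type} [TEnc α] (p : α → Prop) : Prop := ∃ b : α → Bool, Poly b ∧ ∀ a, b a = true ↔ p a

namespace PP

variable {α β : Type} [TEnc α] [TEnc β] {p q : α → Prop}

theorem congr (h : PP p) (hpq : ∀ a, p a ↔ q a) : PP q := by
  obtain ⟨b, hb, hb'⟩ := h
  exact ⟨b, hb, fun a => (hb' a).trans (hpq a)⟩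

theorem and (hp : PP p) (hq : PP q) : PP (fun a => p a ∧ q a) := by
  obtain ⟨b, hb, hb'⟩ := hp
  obtain ⟨c, hc, hc'⟩ := hq
  exact ⟨fun a => b a && c a, Poly.and hb hc, fun a => by rw [Bool.and_eq_true, hb', hc']⟩

theorem or (hp : PP p) (hq : PP q) : PP (fun a => p a ∨ q a) := by
  obtain ⟨b, hb, hb'⟩ := hp
  obtain ⟨c, hc, hc'⟩ := hq
  exact ⟨fun a => b a || c a, Poly.or hb hc, fun a => by rw [Bool.or_eq_true, hb', hc']⟩

theorem not (hp : PP p) : PP (fun a => ¬ p a) := by
  obtain ⟨b, hb, hb'⟩ := hp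
  exact ⟨fun a => !(b a), Poly.not hb, fun a => by
    change (!b a) = true ↔ ¬ p a
    rw [← hb']; cases b a <;> simp⟩

theorem eq {f g : α → β} (hf : Poly f) (hg : Poly g) : PP (fun a => f a = g a) := by
  classical
  exact ⟨fun a => decide (f a = g a), Poly.decide_eq hf hg, fun a => by simp⟩

theorem ne {f g : α → β} (hf : Poly f) (hg : Poly g) : PP (fun a => f a ≠ g a) := (eq hf hg).not

theorem lt {f g : α → ℕ} (hf : Poly f) (hg : Poly g) : PP (fun a => f a < g a) :=
  ⟨fun a => decide (f a < g a), Poly.decide_lt hf hg, fun a => by simp⟩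

theorem le {f g : α → ℕ} (hf : Poly f) (hg : Poly g) : PP (fun a => f a ≤ g a) :=
  ⟨fun a => decide (f a ≤ g a), Poly.decide_le hf hg, fun a => by simp⟩

theorem bool {b : α → Bool} (hb : Poly b) : PP (fun a => b a = true) := ⟨b, hb, fun _ => Iff.rfl⟩

theorem mem {f : α → β} {l : α → List β} (hf : Poly f) (hl : Poly l) : PP (fun a => f a ∈ l a) := by
  classical
  exact ⟨fun a => decide (f a ∈ l a), Poly.decide_mem hf hl, fun a => by simp⟩

theorem comp {γ : Type} [TEnc γ] {p : γ → Prop} (hp : PP p) {f : α → γ} (hf : Poly f) :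
    PP (fun a => p (f a)) := by
  obtain ⟨b, hb, hb'⟩ := hp
  exact ⟨fun a => b (f a), hb.comp hf, fun a => hb' _⟩

theorem ball {l : α → List β} (hl : Poly l) {r : α → β → Prop} (hr : PP (fun x : α × β => r x.1 x.2)) :
    PP (fun a => ∀ x ∈ l a, r a x) := by
  obtain ⟨b, hb, hb'⟩ := hr
  exact ⟨fun a => (l a).all (fun x => b (a, x)), Poly.all (p := fun a x => b (a, x)) hl hb,
    fun a => by
      rw [List.all_eq_true]
      exact forall₂_congr fun x _ => hb' (a, x)⟩

theorem bex {l : α → List β} (hl : Poly l) {r : α → β → Prop} (hr : PP (fun x : α × β => r x.1 x.2)) :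
    PP (fun a => ∃ x ∈ l a, r a x) := by
  obtain ⟨b, hb, hb'⟩ := hr
  exact ⟨fun a => (l a).any (fun x => b (a, x)), Poly.any (p := fun a x => b (a, x)) hl hb,
    fun a => by
      rw [List.any_eq_true]
      exact exists_congr fun x => and_congr_right fun _ => hb' (a, x)⟩

/-- The decision function of the predicate, for an arbitrary decidability instance. -/
theorem dec [inst : ∀ a, Decidable (p a)] (hp : PP p) : Poly (fun a => @decide (p a) (inst a)) := by
  obtain ⟨b, hb, hb'⟩ := hp
  refine hb.congr fun a => ?_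
  by_cases h : p a
  · rw [decide_eq_true h]; exact (hb' a).2 h
  · rw [decide_eq_false h]
    rw [← Bool.not_eq_true, hb']
    exact h

theorem filter {l : α → List β} (hl : Poly l) {r : α → β → Prop}
    [inst : ∀ a x, Decidable (r a x)] (hr : PP (fun x : α × β => r x.1 x.2)) :
    Poly (fun a => (l a).filter (fun x => @decide (r a x) (inst a x))) :=
  Poly.filter (p := fun a x => decide (r a x)) hl (dec (inst := fun x : α × β => inst x.1 x.2) hr)

theorem ite {β : Type} [TEnc β] [inst : ∀ a, Decidable (p a)] {f g : α → β} (hp : PP p)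
    (hf : Poly f) (hg : Poly g) : Poly (fun a => @_root_.ite β (p a) (inst a) (f a) (g a)) :=
  Poly.ite (dec hp) hf hg

end PP

end Pool.Agent.NPC
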