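import Pool.Agent.NPC.Defs

/-!
# The class `Π₂ᵖ`: definitions
-/

namespace Pool.Agent.NPC.P2

/-- The class `Π₂ᵖ`: `x ∈ L` iff for all strings `u` of length `p(|x|)` there is a string `v` of
length `p(|x|)` such that the polynomial-time predicate `V` accepts `(x, u ++ v)`. -/
def InPi2 (L : Set (List Bool)) : Prop :=
  ∃ (V : List Bool → List Bool) (p : Polynomial ℕ), PolyTime V ∧
    ∀ x, x ∈ L ↔ ∀ u : List Bool, u.length = p.eval x.length →
      ∃ v : List Bool, v.length = p.eval x.length ∧ V (pairBits x (u ++ v)) = [true]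

/-- `Π₂ᵖ`-hardness under polynomial-time many-one reductions. -/
def Pi2Hard (L : Set (List Bool)) : Prop := ∀ L', InPi2 L' → Reduces L' L

/-- `Π₂ᵖ`-completeness under polynomial-time many-one reductions. -/
def Pi2Complete (L : Set (List Bool)) : Prop := InPi2 L ∧ Pi2Hard L

end Pool.Agent.NPC.P2
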