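import Pool.Agent.H596R2.Sigma2
import Pool.Agent.H622R2.CoNP
import Pool.Agent.H601R2.PP
import Pool.Agent.H601R2.Pi2Defs

/-!
# The class `Π₂ᵖ`
-/

namespace Pool.Agent.NPC.P2

open Turing Pool.Agent.H622R2

theorem take_eq {β : Type} (l : List β) (k : ℕ) :
    (l.zipIdx.filter (fun q => decide (q.2 < k))).map (fun q => q.1) = l.take k := by
  have e1 : ∀ q ∈ (l.take k).zipIdx, q.2 < k := by
    intro q hq
    rw [List.mem_zipIdx_iff_getElem?] at hq
    by_contra hlt
    rw [List.getElem?_eq_none (by rw [List.length_take]; omega)] at hq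
    simp at hq
  by_cases hk : k ≤ l.length
  · have e2 : ∀ q ∈ (l.drop k).zipIdx (0 + (l.take k).length), ¬ q.2 < k := by
      intro q hq
      have := List.le_snd_of_mem_zipIdx (x := q) hq
      rw [List.length_take] at this
      omega
    conv_lhs => rw [← List.take_append_drop k l]
    rw [List.zipIdx_append, List.filter_append]
    have f1 : (l.take k).zipIdx.filter (fun q => decide (q.2 < k)) = (l.take k).zipIdx := by
      rw [List.filter_eq_self]
      intro q hq
      simpa using e1 q hq
    have f2 : ((l.drop k).zipIdx (0 + (l.take k).length)).filter (fun q => decide (q.2 < k)) =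
        [] := by
      rw [List.filter_eq_nil_iff]
      intro q hq
      simpa using e2 q hq
    rw [f1, f2, List.append_nil]
    exact List.zipIdx_map_fst 0 _
  · rw [List.take_of_length_le (by omega)] at e1 ⊢
    have f1 : l.zipIdx.filter (fun q => decide (q.2 < k)) = l.zipIdx := by
      rw [List.filter_eq_self]
      intro q hq
      simpa using e1 q hq
    rw [f1]
    exact List.zipIdx_map_fst 0 _

theorem poly_take {α β : Type} [TEnc α] [TEnc β] {l : α → List β} {k : α → ℕ} (hl : Poly l)
    (hk : Poly k) : Poly (fun a => (l a).take (k a)) :=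
  (Poly.map (F := fun _ q => q.1) (Poly.filter (p := fun a (q : β × ℕ) => decide (q.2 < k a))
      (Poly.zipIdx hl) (Poly.decide_lt (Poly.snd (Poly.snd Poly.id))
        (hk.comp (Poly.fst Poly.id)))) (Poly.fst (Poly.snd Poly.id))).congr fun a => take_eq _ _

theorem poly_drop {α β : Type} [TEnc α] [TEnc β] {l : α → List β} {k : α → ℕ} (hl : Poly l)
    (hk : Poly k) : Poly (fun a => (l a).drop (k a)) :=
  (Poly.reverse (poly_take (Poly.reverse hl) (Poly.sub (Poly.length hl) hk))).congr fun a => by
    have _ := a
    rw [List.take_reverse, List.reverse_reverse]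
    by_cases h : k a ≤ (l a).length
    · congr 1
      omega
    · rw [List.drop_of_length_le (by omega), List.drop_of_length_le (by omega)]

/-- Complements of `Π₂ᵖ` languages are in `Σ₂ᵖ`. -/
theorem InPi2.compl {L : Set (List Bool)} (h : InPi2 L) : S2.InSigma2 Lᶜ := by
  obtain ⟨V, p, hV, hL⟩ := h
  refine ⟨fun z => [!decide (V z = [true])], p, polyTime_test hV (g := fun w =>
    !decide (w = [true])) (Poly.not (Poly.decide_eq Poly.id (Poly.const [true]))), fun x => ?_⟩
  rw [Set.mem_compl_iff, hL x]
  push Not
  simp

/-- Complements of `Σ₂ᵖ`-hard problems are `Π₂ᵖ`-hard. -/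
theorem pi2Hard_of_hardS2 {α : Type} [TEnc α] {Pr P : α → Prop}
    (hP : S2.HardS2 Pr (fun a => ¬ P a)) : Pi2Hard (lang P) := by
  intro L hL
  obtain ⟨f, hf, _, hfL⟩ := hP _ hL.compl
  refine ⟨fun x => bits (f x), PC.toPolyTime hf, fun x => ?_⟩
  have := hfL x
  rw [Set.mem_compl_iff] at this
  rw [bits_mem_lang]
  tauto

/-- A problem about decodable data of the form `∀ u ∃ v, R (a, u, v)`, where `u`, `v` range over
the strings of length `p(|a|)` and `R` is computable in polynomial time, is in `Π₂ᵖ`. -/
theorem inPi2P_of {α : Type} [TEnc α] [TDec α] {P : α → Prop}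
    {R : α × List Bool × List Bool → Bool} (hR : Poly R) (p : Polynomial ℕ)
    (h : ∀ a, P a ↔ ∀ u : List Bool, u.length = p.eval (sz a) →
      ∃ v : List Bool, v.length = p.eval (sz a) ∧ R (a, u, v) = true) : InPi2 (lang P) := by
  have hhalf : Poly (fun y : List Bool => (unpair y).2.length / 2) :=
    Poly.div (Poly.length (Poly.snd poly_unpair)) (Poly.const 2)
  have h1 : Poly (fun y : List Bool => (unpair y).2.take ((unpair y).2.length / 2)) :=
    poly_take (Poly.snd poly_unpair) hhalf
  have h2 : Poly (fun y : List Bool => (unpair y).2.drop ((unpair y).2.length / 2)) :=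
    poly_drop (Poly.snd poly_unpair) hhalf
  refine ⟨fun y => [match unbits α (unpair y).1 with
      | none => false
      | some a => R (a, (unpair y).2.take ((unpair y).2.length / 2),
          (unpair y).2.drop ((unpair y).2.length / 2))], p, ?_, fun x => ?_⟩
  · refine polyTime_of_poly (Poly.optCases (g := fun _ => false)
      (h := fun y a => R (a, (unpair y).2.take ((unpair y).2.length / 2),
          (unpair y).2.drop ((unpair y).2.length / 2))) (poly_unbits.comp (Poly.fst poly_unpair))
          (Poly.const _) ?_)
    exact hR.comp (Poly.pair (Poly.snd Poly.id) (Poly.pair (h1.comp (Poly.fst Poly.id))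
      (h2.comp (Poly.fst Poly.id))))
  · rw [mem_lang_iff]
    cases hx : unbits α x with
    | none =>
      simp only [reduceCtorEq, false_and, exists_false, false_iff]
      intro hall
      obtain ⟨v, hv, hv'⟩ := hall (List.replicate (p.eval x.length) false) (by simp)
      simp only [unpair_pairBits, hx] at hv'
      simp at hv'
    | some a =>
      simp only [Option.some.injEq, exists_eq_left']
      have e1 : sz a = x.length := by rw [← bits_length, bits_of_unbits hx]
      rw [h a, e1]
      refine forall₂_congr fun u hu => exists_congr fun v => and_congr_right fun hv => ?_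
      have e2 : (u ++ v).length / 2 = u.length := by
        rw [List.length_append]
        omega
      simp only [unpair_pairBits, hx, e2, List.take_left', List.drop_left', List.cons.injEq,
        and_true]

/-- If `NP = coNP` then `Π₂ᵖ = coNP`. -/
theorem inCoNP_of_inPi2 (hcol : ∀ L, InNP L → InCoNP L) {L : Set (List Bool)} (h : InPi2 L) :
    InCoNP L := by
  obtain ⟨V, p, hV, hL⟩ := h
  have pV := poly_of_polyTime hV
  -- the inner language
  let L₁ : Set (List Bool) := {z | ∃ v : List Bool, v.length = p.eval (unpair z).1.length ∧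
    V (pairBits (unpair z).1 ((unpair z).2 ++ v)) = [true]}
  have hL₁ : InNP L₁ := by
    have p1 : Poly (fun y : List Bool => (unpair (unpair y).1).1) :=
      Poly.fst (poly_unpair.comp (Poly.fst poly_unpair))
    have p2 : Poly (fun y : List Bool => (unpair (unpair y).1).2) :=
      Poly.snd (poly_unpair.comp (Poly.fst poly_unpair))
    have p3 : Poly (fun y : List Bool => (unpair y).2) := Poly.snd poly_unpair
    have t1 : PP (fun y : List Bool => (unpair y).2.length =
        p.eval (unpair (unpair y).1).1.length) :=
      PP.eq (Poly.length p3) (UPoly.toPoly (UPoly.eval (UPoly.length p1) p))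
    have t2 : PP (fun y : List Bool => V (pairBits (unpair (unpair y).1).1
        ((unpair (unpair y).1).2 ++ (unpair y).2)) = [true]) :=
      PP.eq (pV.comp (poly_pairBits p1 (Poly.append p2 p3))) (Poly.const _)
    obtain ⟨b, hb, hb'⟩ := PP.and t1 t2
    obtain ⟨q, hq⟩ := (Poly.fst poly_unpair).sz_le
    have hle : ∀ z : List Bool, (unpair z).1.length ≤
        (q.comp (Polynomial.C 4 * Polynomial.X + Polynomial.C 1)).eval z.length := by
      intro z
      rw [Polynomial.eval_comp]
      have h3 := length_lt_sz (unpair z).1
      refine h3.le.trans ((hq z).trans (eval_mono _ ?_))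
      have h4 := sz_listBool_le z
      simpa using h4
    refine ⟨fun y => [b y], p.comp (q.comp (Polynomial.C 4 * Polynomial.X + Polynomial.C 1)),
      polyTime_of_poly hb, fun z => ?_⟩
    constructor
    · rintro ⟨v, hv1, hv2⟩
      refine ⟨v, ?_, ?_⟩
      · rw [hv1, Polynomial.eval_comp]
        exact eval_mono _ (hle z)
      · have := (hb' (pairBits z v)).2 (by
          simp only [unpair_pairBits]
          exact ⟨hv1, hv2⟩)
        simp only [this]
    · rintro ⟨v, _, hv⟩
      have := (hb' (pairBits z v)).1 (by simpa using hv)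
      simp only [unpair_pairBits] at this
      exact ⟨v, this.1, this.2⟩
  obtain ⟨V₁, p₁, hV₁, hL₁'⟩ := hcol L₁ hL₁
  have pV₁ := poly_of_polyTime hV₁
  have c1 : Poly (fun y : List Bool => (unpair y).1) := Poly.fst poly_unpair
  have c2 : Poly (fun y : List Bool => (unpair (unpair y).2).1) :=
    Poly.fst (poly_unpair.comp (Poly.snd poly_unpair))
  have c3 : Poly (fun y : List Bool => (unpair (unpair y).2).2) :=
    Poly.snd (poly_unpair.comp (Poly.snd poly_unpair))
  have c4 : Poly (fun y : List Bool => pairBits (unpair y).1 (unpair (unpair y).2).1) :=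
    poly_pairBits c1 c2
  have t1 : PP (fun y : List Bool => (unpair (unpair y).2).1.length =
      p.eval (unpair y).1.length) :=
    PP.eq (Poly.length c2) (UPoly.toPoly (UPoly.eval (UPoly.length c1) p))
  have t2 : PP (fun y : List Bool => (unpair (unpair y).2).2.length ≤
      p₁.eval (pairBits (unpair y).1 (unpair (unpair y).2).1).length) :=
    PP.le (Poly.length c3) (UPoly.toPoly (UPoly.eval (UPoly.length c4) p₁))
  have t3 : PP (fun y : List Bool => V₁ (pairBits (pairBits (unpair y).1
      (unpair (unpair y).2).1) (unpair (unpair y).2).2) = [true]) :=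
    PP.eq (pV₁.comp (poly_pairBits c4 c3)) (Poly.const _)
  obtain ⟨b, hb, hb'⟩ := PP.and t1 (PP.and t2 t3)
  have hlen : ∀ x w : List Bool, (pairBits x w).length = 2 * x.length + 1 + w.length := by
    intro x w
    unfold pairBits
    simp only [List.length_append, List.length_flatMap, List.length_cons, List.length_nil,
      List.map_const', List.sum_replicate, smul_eq_mul]
    omega
  refine ⟨fun y => [b y], Polynomial.C 2 * p + Polynomial.C 1 +
    p₁.comp (Polynomial.C 2 * Polynomial.X + Polynomial.C 1 + p), polyTime_of_poly hb,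
    fun x => ?_⟩
  rw [Set.mem_compl_iff, hL x]
  have hcompl : ∀ u : List Bool, (¬ ∃ v : List Bool, v.length = p.eval x.length ∧
      V (pairBits x (u ++ v)) = [true]) ↔ pairBits x u ∈ L₁ᶜ := by
    intro u
    rw [Set.mem_compl_iff]
    simp only [L₁, Set.mem_ofPred_eq, unpair_pairBits]
  constructor
  · intro hno
    push Not at hno
    obtain ⟨u, hu, hu'⟩ := hno
    obtain ⟨w, hw1, hw2⟩ := (hL₁' _).1 ((hcompl u).1 (by push Not; exact hu'))
    refine ⟨pairBits u w, ?_, ?_⟩
    · rw [hlen] at hw1
      rw [hlen, hu]
      simp only [Polynomial.eval_add, Polynomial.eval_mul, Polynomial.eval_C,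
        Polynomial.eval_comp, Polynomial.eval_X]
      rw [hu] at hw1
      omega
    · have := (hb' (pairBits x (pairBits u w))).2 (by
        simp only [unpair_pairBits]
        exact ⟨hu, hw1, hw2⟩)
      simp only [this]
  · rintro ⟨c, _, hc⟩ hall
    have := (hb' (pairBits x c)).1 (by simpa using hc)
    simp only [unpair_pairBits] at this
    obtain ⟨h1, h2, h3⟩ := this
    have h4 := (hL₁' _).2 ⟨_, h2, h3⟩
    exact (hcompl _).2 h4 (hall _ h1)

end Pool.Agent.NPC.P2
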