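import Pool.Agent.H601R2.KPPoly
import Pool.Agent.H601R2.Pi2

/-!
# Kernel-perfectness is in `Π₂ᵖ`
-/

namespace Pool.Agent.NPC

theorem nodup_iff_zipIdx {β : Type} (l : List β) :
    (∀ x ∈ l.zipIdx, ∀ y ∈ l.zipIdx, x.1 ≠ y.1 ∨ x.2 = y.2) ↔ l.Nodup := by
  rw [List.nodup_iff_injective_getElem]
  constructor
  · intro h i j hij
    have h1 := h (l[i], i.1) (by
      rw [List.mem_zipIdx_iff_getElem?]; simp) (l[j], j.1) (by
      rw [List.mem_zipIdx_iff_getElem?]; simp)
    simp only at h1 hij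
    rcases h1 with h1 | h1
    · exact absurd hij h1
    · exact Fin.ext h1
  · rintro h ⟨x, i⟩ hx ⟨y, j⟩ hy
    rw [List.mem_zipIdx_iff_getElem?] at hx hy
    simp only at hx hy ⊢
    by_cases hxy : x = y
    · right
      obtain ⟨hi, hi'⟩ := List.getElem?_eq_some_iff.1 hx
      obtain ⟨hj, hj'⟩ := List.getElem?_eq_some_iff.1 hy
      have := @h ⟨i, hi⟩ ⟨j, hj⟩ (by simp only; rw [hi', hj', hxy])
      simpa using this
    · exact Or.inl hxy

theorem PP.nodup {α β : Type} [TEnc α] [TEnc β] {l : α → List β} (hl : Poly l) :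
    PP (fun a => (l a).Nodup) := by
  refine PP.congr (p := fun a => ∀ x ∈ (l a).zipIdx, ∀ y ∈ (l a).zipIdx, x.1 ≠ y.1 ∨ x.2 = y.2)
    ?_ (fun a => nodup_iff_zipIdx _)
  refine PP.ball (r := fun a (x : β × ℕ) => ∀ y ∈ (l a).zipIdx, x.1 ≠ y.1 ∨ x.2 = y.2)
    (Poly.zipIdx hl) ?_
  refine PP.ball (l := fun z : α × (β × ℕ) => (l z.1).zipIdx)
    (r := fun (z : α × (β × ℕ)) (y : β × ℕ) => z.2.1 ≠ y.1 ∨ z.2.2 = y.2)
    (Poly.zipIdx (hl.comp (Poly.fst Poly.id))) ?_
  exact PP.or (PP.ne (Poly.fst (Poly.snd (Poly.fst Poly.id))) (Poly.fst (Poly.snd Poly.id)))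
    (PP.eq (Poly.snd (Poly.snd (Poly.fst Poly.id))) (Poly.snd (Poly.snd Poly.id)))

namespace KP

open P2

/-- The elements of `l` selected by the bits of `u`. -/
def sel (l : List ℕ) (u : List Bool) : List ℕ := ((l.zip u).filter (fun x => x.2)).map (fun x => x.1)

theorem poly_sel {α : Type} [TEnc α] {l : α → List ℕ} {u : α → List Bool} (hl : Poly l)
    (hu : Poly u) : Poly (fun a => sel (l a) (u a)) := by
  unfold sel
  exact Poly.map (F := fun _ (x : ℕ × Bool) => x.1) (Poly.filter (p := fun _ (x : ℕ × Bool) => x.2)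
    (Poly.zip hl hu) (Poly.snd (Poly.snd Poly.id))) (Poly.fst (Poly.snd Poly.id))

theorem sel_mem {l : List ℕ} {u : List Bool} {x : ℕ} (h : x ∈ sel l u) : x ∈ l := by
  unfold sel at h
  rw [List.mem_map] at h
  obtain ⟨⟨y, b⟩, h1, rfl⟩ := h
  exact (List.of_mem_zip (List.mem_filter.1 h1).1).1

open Classical in
/-- The bits describing a set, padded to length `n`. -/
noncomputable def bitsOf (l : List ℕ) (S : Finset ℕ) (n : ℕ) : List Bool :=
  l.map (fun x => decide (x ∈ S)) ++ List.replicate (n - l.length) false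

theorem bitsOf_length {l : List ℕ} {S : Finset ℕ} {n : ℕ} (h : l.length ≤ n) :
    (bitsOf l S n).length = n := by
  simp [bitsOf]
  omega

theorem mem_sel_bitsOf {l : List ℕ} {S : Finset ℕ} {n : ℕ} {x : ℕ} :
    x ∈ sel l (bitsOf l S n) ↔ x ∈ l ∧ x ∈ S := by
  classical
  unfold sel bitsOf
  have h1 : l.zip (l.map (fun x => decide (x ∈ S)) ++ List.replicate (n - l.length) false) =
      l.map (fun x => (x, decide (x ∈ S))) := by
    apply List.ext_getElem
    · simp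
    · intro i h1 h2
      simp only [List.length_map] at h2
      rw [List.getElem_zip, List.getElem_map, List.getElem_append_left (by simpa using h2),
        List.getElem_map]
  rw [h1]
  simp only [List.mem_map, List.mem_filter]
  constructor
  · rintro ⟨⟨y, b⟩, ⟨⟨z, hz, hz'⟩, hb⟩, rfl⟩
    simp only [Prod.mk.injEq] at hz'
    obtain ⟨rfl, rfl⟩ := hz'
    exact ⟨hz, by simpa using hb⟩
  · rintro ⟨h2, h3⟩
    exact ⟨(x, decide (x ∈ S)), ⟨⟨x, h2, rfl⟩, by simpa using h3⟩, rfl⟩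

/-- The relation verified in polynomial time. -/
def Rel (z : DG × List Bool × List Bool) : Prop :=
  IsDigraph z.1 ∧
    (∀ x ∈ sel z.1.1 z.2.2, ∀ y ∈ sel z.1.1 z.2.2, x ∈ sel z.1.1 z.2.1 ∧ (x, y) ∉ z.1.2) ∧
    ∀ x ∈ sel z.1.1 z.2.1, x ∈ sel z.1.1 z.2.2 ∨ ∃ y ∈ sel z.1.1 z.2.2, (x, y) ∈ z.1.2

theorem pp_isDigraph {α : Type} [TEnc α] {D : α → DG} (hD : Poly D) :
    PP (fun a => IsDigraph (D a)) := by
  refine PP.and (PP.nodup (Poly.fst hD)) (PP.and (PP.nodup (Poly.snd hD)) ?_)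
  refine PP.ball (r := fun a (e : ℕ × ℕ) => e.1 ∈ (D a).1 ∧ e.2 ∈ (D a).1 ∧ e.1 ≠ e.2)
    (Poly.snd hD) ?_
  have h1 : Poly (fun x : α × (ℕ × ℕ) => (D x.1).1) := Poly.fst (hD.comp (Poly.fst Poly.id))
  exact PP.and (PP.mem (Poly.fst (Poly.snd Poly.id)) h1)
    (PP.and (PP.mem (Poly.snd (Poly.snd Poly.id)) h1)
      (PP.ne (Poly.fst (Poly.snd Poly.id)) (Poly.snd (Poly.snd Poly.id))))

theorem pp_Rel : PP Rel := by
  have hD : Poly (fun z : DG × List Bool × List Bool => z.1) := Poly.fst Poly.id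
  have hS : Poly (fun z : DG × List Bool × List Bool => sel z.1.1 z.2.1) :=
    poly_sel (Poly.fst hD) (Poly.fst (Poly.snd Poly.id))
  have hK : Poly (fun z : DG × List Bool × List Bool => sel z.1.1 z.2.2) :=
    poly_sel (Poly.fst hD) (Poly.snd (Poly.snd Poly.id))
  refine PP.and (pp_isDigraph hD) (PP.and ?_ ?_)
  · refine PP.ball (r := fun (z : DG × List Bool × List Bool) x => ∀ y ∈ sel z.1.1 z.2.2,
      x ∈ sel z.1.1 z.2.1 ∧ (x, y) ∉ z.1.2) hK ?_
    refine PP.ball (l := fun w : (DG × List Bool × List Bool) × ℕ => sel w.1.1.1 w.1.2.2)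
      (r := fun (w : (DG × List Bool × List Bool) × ℕ) y =>
        w.2 ∈ sel w.1.1.1 w.1.2.1 ∧ (w.2, y) ∉ w.1.1.2) (hK.comp (Poly.fst Poly.id)) ?_
    have f1 : Poly (fun w : ((DG × List Bool × List Bool) × ℕ) × ℕ => w.1.1) :=
      Poly.fst (Poly.fst Poly.id)
    have f2 : Poly (fun w : ((DG × List Bool × List Bool) × ℕ) × ℕ => w.1.2) :=
      Poly.snd (Poly.fst Poly.id)
    exact PP.and (PP.mem f2 (hS.comp f1)) (PP.not (PP.mem (Poly.pair f2 (Poly.snd Poly.id))
      (Poly.snd (hD.comp f1))))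
  · refine PP.ball (r := fun (z : DG × List Bool × List Bool) x =>
      x ∈ sel z.1.1 z.2.2 ∨ ∃ y ∈ sel z.1.1 z.2.2, (x, y) ∈ z.1.2) hS ?_
    refine PP.or (PP.mem (Poly.snd Poly.id) (hK.comp (Poly.fst Poly.id))) ?_
    refine PP.bex (l := fun w : (DG × List Bool × List Bool) × ℕ => sel w.1.1.1 w.1.2.2)
      (r := fun (w : (DG × List Bool × List Bool) × ℕ) y => (w.2, y) ∈ w.1.1.2)
      (hK.comp (Poly.fst Poly.id)) ?_
    have f1 : Poly (fun w : ((DG × List Bool × List Bool) × ℕ) × ℕ => w.1.1) :=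
      Poly.fst (Poly.fst Poly.id)
    have f2 : Poly (fun w : ((DG × List Bool × List Bool) × ℕ) × ℕ => w.1.2) :=
      Poly.snd (Poly.fst Poly.id)
    exact PP.mem (Poly.pair f2 (Poly.snd Poly.id)) (Poly.snd (hD.comp f1))

theorem kernelPerfect_iff (D : DG) (n : ℕ) (hn : D.1.length ≤ n) : KernelPerfect D ↔
    ∀ u : List Bool, u.length = n → ∃ v : List Bool, v.length = n ∧ Rel (D, u, v) := by
  classical
  constructor
  · rintro ⟨h1, h2⟩ u hu
    obtain ⟨K, hKS, hind, habs⟩ := h2 (sel D.1 u).toFinset (fun x hx =>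
      sel_mem (List.mem_toFinset.1 hx))
    have hsel : ∀ x, x ∈ sel D.1 (bitsOf D.1 K n) ↔ x ∈ K := by
      intro x
      rw [mem_sel_bitsOf]
      exact ⟨fun h => h.2, fun h => ⟨sel_mem (List.mem_toFinset.1 (hKS h)), h⟩⟩
    refine ⟨bitsOf D.1 K n, bitsOf_length hn, h1, ?_, ?_⟩
    · intro x hx y hy
      rw [hsel] at hx hy
      exact ⟨List.mem_toFinset.1 (hKS hx), hind x hx y hy⟩
    · intro x hx
      rw [hsel]
      by_cases hxK : x ∈ K
      · exact Or.inl hxK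
      · right
        obtain ⟨y, hy, hxy⟩ := habs x (List.mem_toFinset.2 hx) hxK
        exact ⟨y, (hsel y).2 hy, hxy⟩
  · intro h
    have h0 : IsDigraph D := by
      obtain ⟨v, _, hv⟩ := h (List.replicate n false) (by simp)
      exact hv.1
    refine ⟨h0, fun S hS => ?_⟩
    have hsel : ∀ x, x ∈ sel D.1 (bitsOf D.1 S n) ↔ x ∈ S := by
      intro x
      rw [mem_sel_bitsOf]
      exact ⟨fun h => h.2, fun h => ⟨hS x h, h⟩⟩
    obtain ⟨v, _, _, h1, h2⟩ := h (bitsOf D.1 S n) (bitsOf_length hn)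
    simp only at h1 h2
    refine ⟨(sel D.1 v).toFinset, ?_, ?_, ?_⟩
    · intro x hx
      rw [List.mem_toFinset] at hx
      exact (hsel x).1 (h1 x hx x hx).1
    · intro x hx y hy
      rw [List.mem_toFinset] at hx hy
      exact (h1 x hx y hy).2
    · intro x hx hxK
      rw [List.mem_toFinset] at hxK
      rcases h2 x ((hsel x).2 hx) with h3 | ⟨y, hy, hxy⟩
      · exact absurd h3 hxK
      · exact ⟨y, List.mem_toFinset.2 hy, hxy⟩

theorem kernelPerfect_inPi2 : InPi2 (lang KernelPerfect) := by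
  obtain ⟨R, hR, hR'⟩ := pp_Rel
  refine inPi2P_of hR Polynomial.X fun D => ?_
  rw [kernelPerfect_iff D (sz D) (by
    have h1 := length_lt_sz D.1
    have h2 : sz D = sz D.1 + sz D.2 + 1 := sz_pair _ _
    omega)]
  simp only [Polynomial.eval_X, hR']

theorem kernelPerfect_hard : Pi2Hard (lang KernelPerfect) := by
  refine pi2Hard_of_hardS2 (Pr := fun _ => True) ?_
  exact S2.HardS2.trans S2.hardS2_EA poly_red (fun _ _ => trivial) (fun I _ => red_correct I)

theorem kernelPerfect_npHard : NPHardP KernelPerfect := by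
  have hf : Poly (fun φ : List (List (Bool × ℕ)) => red ([], [], S2.negDNF φ)) := by
    refine poly_red.comp (Poly.pair (Poly.const _) (Poly.pair (Poly.const _) ?_))
    exact Poly.map (F := fun (_ : List (List (Bool × ℕ))) (c : List (Bool × ℕ)) =>
      c.map (fun l => (!l.1, l.2))) Poly.id (Poly.map (F := fun (_ : List (List (Bool × ℕ)) ×
        List (Bool × ℕ)) (l : Bool × ℕ) => (!l.1, l.2)) (Poly.snd Poly.id)
        (Poly.pair (Poly.not (Poly.fst (Poly.snd Poly.id))) (Poly.snd (Poly.snd Poly.id))))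
  refine (hardI_SAT.trans hf fun φ => ?_).toNPHardP
  have h1 := red_correct ([], [], S2.negDNF φ)
  have h2 : S2.EA ([], [], S2.negDNF φ) ↔ ¬ SAT φ := by
    have hmix : ∀ Y X : ℕ → Bool, ∀ v, S2.mix 0 Y X v = X v := by
      intro Y X v
      simp [S2.mix]
    unfold S2.EA SAT SatV
    simp only [List.length_nil, hmix]
    constructor
    · rintro ⟨_, h⟩ ⟨X, hX⟩
      exact (S2.negDNF_iff.1 (h X)) hX
    · intro h
      exact ⟨fun _ => false, fun X => S2.negDNF_iff.2 fun hX => h ⟨X, hX⟩⟩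
  tauto

/-- Kernel-perfectness is in `coNP` if and only if `NP = coNP`. -/
theorem inCoNP_iff : InCoNP (lang KernelPerfect) ↔ ∀ L : Set (List Bool), InNP L ↔ InCoNP L := by
  constructor
  · intro h
    have key : ∀ L' : Set (List Bool), InNP L' → InCoNP L' := fun L' hL' =>
      H622R2.InNP.of_reduces (H622R2.Reduces.compl (kernelPerfect_npHard L' hL')) h
    intro L'
    refine ⟨key L', fun hL' => ?_⟩
    have h3 : InNP L'ᶜᶜ := key L'ᶜ hL'
    rwa [compl_compl] at h3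
  · intro h
    exact inCoNP_of_inPi2 (fun L hL => (h L).1 hL) kernelPerfect_inPi2

end KP

end Pool.Agent.NPC
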