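import Pool.Agent.H601R2.KPRed
import Pool.Agent.H601R2.PP

/-!
# The reduction is computable in polynomial time
-/

namespace Pool.Agent.NPC.KP

variable {α : Type} [TEnc α] {I : α → Inst} {u v r o r' o' : α → ℕ}

theorem poly_trk (hI : Poly I) : Poly (fun a => trk (I a)) := by
  unfold trk
  fun_prop

theorem u_R (hI : Poly I) : UPoly (fun a => (ring (I a)).R) := UPoly.length (poly_trk hI)

theorem u_M (hI : Poly I) : UPoly (fun a => (ring (I a)).M) :=
  UPoly.length (Poly.flatten (poly_trk hI))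

theorem u_g (hI : Poly I) : UPoly (fun a => (ring (I a)).g) :=
  UPoly.add (UPoly.mul (UPoly.const 3) (u_M hI)) (UPoly.const 6)

theorem u_d (hI : Poly I) : UPoly (fun a => (ring (I a)).d) :=
  UPoly.add (UPoly.mul (u_R hI) (u_g hI)) (UPoly.const 2)

theorem u_L (hI : Poly I) : UPoly (fun a => (ring (I a)).L) := UPoly.add (u_d hI) (u_g hI)

theorem u_nv (hI : Poly I) : UPoly (fun a => nv (I a)) :=
  UPoly.mul (UPoly.const 2) (UPoly.mul (u_R hI) (u_L hI))

theorem poly_tr (hI : Poly I) (hv : Poly v) : Poly (fun a => tr (I a) (v a)) :=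
  Poly.div (Poly.div hv (Poly.const 2)) (u_L hI).toPoly

theorem poly_of (hI : Poly I) (hv : Poly v) : Poly (fun a => of (I a) (v a)) :=
  Poly.mod (Poly.div hv (Poly.const 2)) (u_L hI).toPoly

theorem poly_co (hv : Poly v) : Poly (fun a => co (v a)) :=
  Poly.decide_eq (Poly.mod hv (Poly.const 2)) (Poly.const 1)

theorem poly_lab (hI : Poly I) (hv : Poly v) : Poly (fun a => lab (I a) (v a)) :=
  Poly.getD (Poly.getD (poly_trk hI) (poly_tr hI hv) (Poly.const []))
    (Poly.sub (Poly.div (poly_of hI hv) (Poly.const 3)) (Poly.const 1)) (Poly.const _)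

theorem poly_nx (hI : Poly I) (hr : Poly r) : Poly (fun a => (ring (I a)).nx (r a)) :=
  PP.ite (PP.eq (Poly.add hr (Poly.const 1)) (u_R hI).toPoly) (Poly.const 0)
    (Poly.add hr (Poly.const 1))

theorem pp_stop (hI : Poly I) (hr : Poly r) (ho : Poly o) :
    PP (fun a => (ring (I a)).stop (r a) (o a)) :=
  PP.and (PP.le (Poly.const 3) ho) (PP.and (PP.eq (Poly.mod ho (Poly.const 3)) (Poly.const 0))
    (PP.le (Poly.div ho (Poly.const 3))
      (Poly.length (Poly.getD (poly_trk hI) hr (Poly.const [])))))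

theorem pp_fwd (hI : Poly I) (hr : Poly r) (ho : Poly o) (hr' : Poly r') (ho' : Poly o') :
    PP (fun a => (ring (I a)).fwd (r a) (o a) (r' a) (o' a)) :=
  PP.or (PP.and (PP.eq hr' hr) (PP.eq ho' (Poly.add ho (Poly.const 1))))
    (PP.and (PP.eq hr' (poly_nx hI hr)) (PP.and (PP.eq (Poly.add ho (Poly.const 1))
      (u_L hI).toPoly) (PP.eq ho' (Poly.const 0))))

theorem pp_ahead (hI : Poly I) (hr : Poly r) (ho : Poly o) (hr' : Poly r') (ho' : Poly o') :
    PP (fun a => (ring (I a)).ahead (r a) (o a) (r' a) (o' a)) :=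
  PP.or (PP.and (PP.eq hr' hr) (PP.and (PP.le (Poly.add ho (Poly.const 2)) ho')
      (PP.lt ho' (Poly.add ho (u_d hI).toPoly))))
    (PP.and (PP.eq hr' (poly_nx hI hr)) (PP.and (PP.le (Poly.add ho (Poly.const 2))
      (Poly.add ho' (u_L hI).toPoly)) (PP.lt (Poly.add ho' (u_L hI).toPoly)
        (Poly.add ho (u_d hI).toPoly))))

theorem pp_link (hI : Poly I) (hr : Poly r) (ho : Poly o) (hr' : Poly r') (ho' : Poly o') :
    PP (fun a => (ring (I a)).link (r a) (o a) (r' a) (o' a)) :=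
  PP.and (PP.le (Poly.const 1) ho) (PP.and (pp_stop hI hr (Poly.sub ho (Poly.const 1)))
    (PP.and (PP.eq hr' (poly_nx hI hr)) (pp_stop hI hr' ho')))

theorem pp_cf (hI : Poly I) (hu : Poly u) (hv : Poly v) : PP (fun a => cf (I a) (u a) (v a)) :=
  PP.and (pp_stop hI (poly_tr hI hu) (poly_of hI hu))
    (PP.and (pp_stop hI (poly_tr hI hv) (poly_of hI hv))
      (PP.or (PP.and (PP.eq (Poly.snd (poly_lab hI hu)) (Poly.snd (poly_lab hI hv)))
          (PP.ne (Poly.fst (poly_lab hI hu)) (Poly.fst (poly_lab hI hv))))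
        (PP.and (PP.lt (poly_tr hI hu) (Poly.length (Poly.fst hI)))
          (PP.and (PP.eq (Poly.snd (poly_lab hI hv)) (Poly.add (poly_tr hI hu) (Poly.const 1)))
            (PP.eq (Poly.fst (poly_lab hI hv)) (poly_co hu))))))

theorem pp_arc (hI : Poly I) (hu : Poly u) (hv : Poly v) : PP (fun a => arc (I a) (u a) (v a)) :=
  PP.and (PP.ne hu hv) (PP.or
    (pp_fwd hI (poly_tr hI hu) (poly_of hI hu) (poly_tr hI hv) (poly_of hI hv)) (PP.or
    (pp_ahead hI (poly_tr hI hu) (poly_of hI hu) (poly_tr hI hv) (poly_of hI hv)) (PP.or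
    (pp_ahead hI (poly_tr hI hv) (poly_of hI hv) (poly_tr hI hu) (poly_of hI hu)) (PP.or
    (PP.and (PP.eq (poly_tr hI hu) (poly_tr hI hv)) (PP.eq (poly_of hI hu) (poly_of hI hv)))
    (PP.or (pp_link hI (poly_tr hI hu) (poly_of hI hu) (poly_tr hI hv) (poly_of hI hv)) (PP.or
    (pp_link hI (poly_tr hI hv) (poly_of hI hv) (poly_tr hI hu) (poly_of hI hu)) (PP.or
    (pp_cf hI hu hv) (pp_cf hI hv hu))))))))

theorem poly_red : Poly red := by
  classical
  have h : Poly (fun I : Inst => List.range (nv I)) := (u_nv Poly.id).range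
  unfold red
  refine Poly.pair h ?_
  exact PP.filter (r := fun (I : Inst) (e : ℕ × ℕ) => arc I e.1 e.2) (R671.poly_product h h)
    (pp_arc (Poly.fst Poly.id) (Poly.fst (Poly.snd Poly.id)) (Poly.snd (Poly.snd Poly.id)))

end Pool.Agent.NPC.KP
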