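import Pool.Agent.H601R2.KPCore
import Pool.Agent.H601R2.KPDefs
import Pool.Agent.H596R2.Sigma2
import Pool.Agent.H671R2.PolyAuto

/-!
# The reduction from `∃∀`-DNF to the failure of kernel-perfectness
-/

namespace Pool.Agent.NPC.KP

/-- Instances of `∃∀`-DNF. -/
abbrev Inst : Type := List Unit × List Unit × List (List (Bool × ℕ))

/-- The stops of the tracks, with their labels: one track with a single stop for each existential
variable, one track for each term, with a stop for each of its literals, and two tracks with a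
single stop.  The label `(b, i + 1)` says that variable `i` has not the value `b`. -/
def trk (I : Inst) : List (List (Bool × ℕ)) :=
  I.1.map (fun _ => [(false, 0)]) ++
    (I.2.2.map (fun t => t.map (fun l => (l.1, l.2 + 1))) ++ [[(false, 0)], [(false, 0)]])

theorem trk_length (I : Inst) : (trk I).length = I.1.length + I.2.2.length + 2 := by
  simp [trk]
  omega

theorem trk_var (I : Inst) {r : ℕ} (h : r < I.1.length) : (trk I).getD r [] = [(false, 0)] := by
  unfold trk
  rw [List.getD_eq_getElem?_getD, List.getElem?_append_left (by simpa using h),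
    List.getElem?_map, List.getElem?_eq_getElem h]
  rfl

theorem trk_term (I : Inst) {j : ℕ} (h : j < I.2.2.length) :
    (trk I).getD (I.1.length + j) [] = (I.2.2[j]).map (fun l => (l.1, l.2 + 1)) := by
  unfold trk
  rw [List.getD_eq_getElem?_getD, List.getElem?_append_right (by simp),
    List.getElem?_append_left (by simpa using h), List.getElem?_map, List.length_map,
    Nat.add_sub_cancel_left, List.getElem?_eq_getElem h]
  rfl

theorem trk_dummy (I : Inst) {r : ℕ} (h : I.1.length + I.2.2.length ≤ r) (h' : r < (trk I).length) :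
    (trk I).getD r [] = [(false, 0)] := by
  rw [trk_length] at h'
  unfold trk
  rw [List.getD_eq_getElem?_getD, List.getElem?_append_right (by simp; omega),
    List.getElem?_append_right (by simp; omega), List.length_map, List.length_map]
  have : r - I.1.length - I.2.2.length = 0 ∨ r - I.1.length - I.2.2.length = 1 := by omega
  rcases this with h | h <;> rw [h] <;> rfl

theorem getD_length_le {β : Type} (l : List (List β)) (r : ℕ) :
    (l.getD r []).length ≤ l.flatten.length := by
  rw [List.length_flatten]
  by_cases hr : r < l.length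
  · rw [List.getD_eq_getElem _ _ hr]
    exact List.le_sum_of_mem (List.mem_map.2 ⟨_, List.getElem_mem hr, rfl⟩)
  · rw [List.getD_eq_default _ _ (by omega)]
    simp

/-- The ring of an instance. -/
def ring (I : Inst) : Ring where
  R := (trk I).length
  M := (trk I).flatten.length
  len r := ((trk I).getD r []).length
  hR := by rw [trk_length]; omega
  hlen := getD_length_le _

/-- The track of a vertex. -/
def tr (I : Inst) (v : ℕ) : ℕ := v / 2 / (ring I).L

/-- The offset of a vertex. -/
def of (I : Inst) (v : ℕ) : ℕ := v / 2 % (ring I).L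

/-- The copy of a vertex. -/
def co (v : ℕ) : Bool := decide (v % 2 = 1)

/-- The label of a stop. -/
def lab (I : Inst) (v : ℕ) : Bool × ℕ := ((trk I).getD (tr I v) []).getD (of I v / 3 - 1) (false, 0)

/-- Conflicts. -/
def cf (I : Inst) (u v : ℕ) : Prop :=
  (ring I).stop (tr I u) (of I u) ∧ (ring I).stop (tr I v) (of I v) ∧
    (((lab I u).2 = (lab I v).2 ∧ (lab I u).1 ≠ (lab I v).1) ∨
      (tr I u < I.1.length ∧ (lab I v).2 = tr I u + 1 ∧ (lab I v).1 = co u))

/-- The arcs of the digraph of an instance. -/
def arc (I : Inst) : ℕ → ℕ → Prop := (ring I).arc (tr I) (of I) (cf I)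

/-- Number of vertices. -/
def nv (I : Inst) : ℕ := 2 * ((ring I).R * (ring I).L)

open Classical in
/-- The digraph of an instance. -/
noncomputable def red (I : Inst) : DG :=
  (List.range (nv I), ((List.range (nv I)) ×ˢ (List.range (nv I))).filter
    (fun e => decide (arc I e.1 e.2)))

theorem L_pos (I : Inst) : 0 < (ring I).L := by
  have := (ring I).L_eq
  have := (ring I).d_ge
  omega

/-- The vertex at a given position. -/
def vx (I : Inst) (r o : ℕ) (c : Bool) : ℕ := 2 * (r * (ring I).L + o) + c.toNat

theorem vx_half (I : Inst) (r o : ℕ) (c : Bool) : vx I r o c / 2 = r * (ring I).L + o := by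
  unfold vx
  cases c <;> simp <;> omega

theorem tr_vx (I : Inst) {r o : ℕ} (c : Bool) (ho : o < (ring I).L) : tr I (vx I r o c) = r := by
  unfold tr
  rw [vx_half, Nat.mul_comm, Nat.mul_add_div (L_pos I), Nat.div_eq_of_lt ho, Nat.add_zero]

theorem of_vx (I : Inst) {r o : ℕ} (c : Bool) (ho : o < (ring I).L) : of I (vx I r o c) = o := by
  unfold of
  rw [vx_half, Nat.mul_comm, Nat.mul_add_mod, Nat.mod_eq_of_lt ho]

theorem co_vx (I : Inst) (r o : ℕ) (c : Bool) : co (vx I r o c) = c := by
  unfold co vx
  cases c
  · simp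
  · simp

theorem vx_lt (I : Inst) {r o : ℕ} (c : Bool) (hr : r < (ring I).R) (ho : o < (ring I).L) :
    vx I r o c < nv I := by
  have h1 : (r + 1) * (ring I).L ≤ (ring I).R * (ring I).L := Nat.mul_le_mul_right _ hr
  rw [Nat.succ_mul] at h1
  unfold vx nv
  cases c <;> simp <;> omega

theorem vx_surj (I : Inst) {v : ℕ} : v = vx I (tr I v) (of I v) (co v) := by
  unfold vx tr of co
  have h1 := Nat.div_add_mod (v / 2) (ring I).L
  rw [Nat.mul_comm] at h1
  rw [h1]
  have h2 := Nat.div_add_mod v 2
  rcases Nat.mod_two_eq_zero_or_one v with h | h <;> simp [h] <;> omega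

theorem lt_of_lt (I : Inst) {v : ℕ} (h : v < nv I) : tr I v < (ring I).R ∧ of I v < (ring I).L := by
  constructor
  · unfold tr
    rw [Nat.div_lt_iff_lt_mul (L_pos I)]
    unfold nv at h
    omega
  · exact Nat.mod_lt _ (L_pos I)

theorem mem_red {I : Inst} {u v : ℕ} :
    (u, v) ∈ (red I).2 ↔ (u < nv I ∧ v < nv I) ∧ arc I u v := by
  simp only [red, List.mem_filter, List.mem_product, List.mem_range, decide_eq_true_eq]

theorem isDigraph_red (I : Inst) : IsDigraph (red I) := by
  refine ⟨List.nodup_range, ?_, ?_⟩
  · exact List.Nodup.filter _ (List.Nodup.product List.nodup_range List.nodup_range)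
  · rintro ⟨u, v⟩ he
    obtain ⟨⟨h1, h2⟩, h3⟩ := mem_red.1 he
    exact ⟨List.mem_range.2 h1, List.mem_range.2 h2, h3.1⟩

theorem isKernelOf_iff (I : Inst) {S K : Finset ℕ} (hS : ∀ v ∈ S, v < nv I) :
    IsKernelOf (red I) S K ↔ IsKernel (arc I) S K := by
  have key : ∀ u v, u ∈ S → v ∈ S → ((u, v) ∈ (red I).2 ↔ arc I u v) := by
    intro u v hu hv
    rw [mem_red]
    exact ⟨fun h => h.2, fun h => ⟨⟨hS u hu, hS v hv⟩, h⟩⟩
  unfold IsKernelOf IsKernel
  constructor
  · rintro ⟨h1, h2, h3⟩
    refine ⟨h1, fun u hu v hv h => h2 u hu v hv ((key u v (h1 hu) (h1 hv)).2 h), ?_⟩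
    intro u hu huK
    obtain ⟨v, hv, h⟩ := h3 u hu huK
    exact ⟨v, hv, (key u v hu (h1 hv)).1 h⟩
  · rintro ⟨h1, h2, h3⟩
    refine ⟨h1, fun u hu v hv h => h2 u hu v hv ((key u v (h1 hu) (h1 hv)).1 h), ?_⟩
    intro u hu huK
    obtain ⟨v, hv, h⟩ := h3 u hu huK
    exact ⟨v, hv, (key u v hu (h1 hv)).2 h⟩

/-- A stop at the `a`-th place of a track. -/
theorem stop_iff (I : Inst) {r a : ℕ} (h : a < ((trk I).getD r []).length) :
    (ring I).stop r (3 * a + 3) := by
  refine ⟨by omega, by omega, ?_⟩
  change (3 * a + 3) / 3 ≤ ((trk I).getD r []).length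
  omega

theorem stop_lt_L (I : Inst) {r o : ℕ} (h : (ring I).stop r o) : o < (ring I).L := by
  have h1 := (ring I).stop_lt h
  have h2 := (ring I).g_ge
  have h3 := (ring I).L_eq
  omega

/-- The label at a stop is an entry of the track. -/
theorem lab_mem (I : Inst) {v : ℕ} (h : (ring I).stop (tr I v) (of I v)) :
    lab I v ∈ (trk I).getD (tr I v) [] := by
  obtain ⟨h1, h2, h3⟩ := h
  have h3 : of I v / 3 ≤ ((trk I).getD (tr I v) []).length := h3
  have h4 : of I v / 3 - 1 < ((trk I).getD (tr I v) []).length := by omega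
  unfold lab
  rw [List.getD_eq_getElem ((trk I).getD (tr I v) []) (false, 0) h4]
  exact List.getElem_mem _

/-- The stop of a track with a single stop. -/
theorem stop_single (I : Inst) {r o : ℕ} (hr : (trk I).getD r [] = [(false, 0)])
    (h : (ring I).stop r o) : o = 3 := by
  obtain ⟨h1, h2, h3⟩ := h
  have h3 : o / 3 ≤ ((trk I).getD r []).length := h3
  rw [hr] at h3
  simp at h3
  omega

theorem hard_direction (I : Inst) (h : S2.EA I) : ¬ KernelPerfect (red I) := by
  classical
  rintro ⟨_, hKP⟩
  obtain ⟨Y, hY⟩ := h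
  let S : Finset ℕ := (Finset.range (nv I)).filter
    (fun v => tr I v < I.1.length → of I v = 3 → co v = Y (tr I v))
  have hSlt : ∀ v ∈ S, v < nv I := fun v hv => Finset.mem_range.1 (Finset.mem_filter.1 hv).1
  obtain ⟨K, hK⟩ := hKP S (fun v hv => List.mem_range.2 (hSlt v hv))
  rw [isKernelOf_iff I hSlt] at hK
  have hS : ∀ v ∈ S, tr I v < (ring I).R ∧ of I v < (ring I).L := fun v hv =>
    lt_of_lt I (hSlt v hv)
  have hfull : ∀ r < (ring I).R, ∀ o < (ring I).L, ∃ v ∈ S, tr I v = r ∧ of I v = o := by
    intro r hr o ho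
    refine ⟨vx I r o (Y r), Finset.mem_filter.2 ⟨Finset.mem_range.2 (vx_lt I _ hr ho), ?_⟩,
      tr_vx I _ ho, of_vx I _ ho⟩
    intro _ _
    rw [co_vx, tr_vx I _ ho]
  have hcf : ∀ u v, cf I u v → (ring I).stop (tr I u) (of I u) ∧
      (ring I).stop (tr I v) (of I v) := fun u v h => ⟨h.1, h.2.1⟩
  have hst := Ring.all_stops hS hfull hcf hK
  have hnocf : ∀ u ∈ K, ∀ v ∈ K, ¬ cf I u v := by
    intro u hu v hv hc
    refine hK.2.1 u hu v hv ⟨?_, by tauto⟩
    rintro rfl
    rcases hc.2.2 with h | h
    · exact h.2 rfl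
    · -- a variable track has label `(false, 0)`
      have h1 := lab_mem I hc.1
      rw [trk_var I h.1, List.mem_singleton] at h1
      rw [h1] at h
      simp at h
  obtain ⟨t, ht, hl⟩ := hY (fun i => decide (∃ v ∈ K, (ring I).stop (tr I v) (of I v) ∧
    lab I v = (false, i + 1)))
  obtain ⟨j, hj, rfl⟩ := List.getElem_of_mem ht
  obtain ⟨o, ⟨w, hw, hw1, hw2⟩, hst2⟩ := hst (I.1.length + j) (by
    change _ < (trk I).length
    rw [trk_length]
    omega)
  have hwst : (ring I).stop (tr I w) (of I w) := by rw [hw1, hw2]; exact hst2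
  have h1 := lab_mem I hwst
  rw [hw1, trk_term I hj, List.mem_map] at h1
  obtain ⟨⟨b, i⟩, hbi, hlab⟩ := h1
  have h2 := hl _ hbi
  simp only at h2 hlab
  unfold S2.mix at h2
  split_ifs at h2 with hi
  · obtain ⟨o', ⟨x, hx, hx1, hx2⟩, hst3⟩ := hst i (by
      change _ < (trk I).length
      rw [trk_length]
      omega)
    have hxst : (ring I).stop (tr I x) (of I x) := by rw [hx1, hx2]; exact hst3
    have h3 := stop_single I (trk_var I hi) hst3
    refine hnocf x hx w hw ⟨hxst, hwst, Or.inr ⟨by rw [hx1]; exact hi, ?_, ?_⟩⟩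
    · rw [← hlab, hx1]
    · rw [← hlab]
      have h4 := (Finset.mem_filter.1 (hK.1 hx)).2 (by rw [hx1]; exact hi) (by rw [hx2, h3])
      rw [h4, hx1]
      exact h2.symm
  · cases b with
    | false =>
      have := of_decide_eq_false h2
      exact this ⟨w, hw, hwst, hlab.symm⟩
    | true =>
      obtain ⟨x, hx, hxst, hx1⟩ := of_decide_eq_true h2
      refine hnocf x hx w hw ⟨hxst, hwst, Or.inl ⟨?_, ?_⟩⟩
      · rw [hx1, ← hlab]
      · rw [hx1, ← hlab]
        simp

theorem easy_direction (I : Inst) (h : ¬ S2.EA I) : KernelPerfect (red I) := by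
  classical
  refine ⟨isDigraph_red I, fun S hSV => ?_⟩
  have hSlt : ∀ v ∈ S, v < nv I := fun v hv => List.mem_range.1 (hSV v hv)
  have hS : ∀ v ∈ S, tr I v < (ring I).R ∧ of I v < (ring I).L := fun v hv =>
    lt_of_lt I (hSlt v hv)
  suffices h : ∃ K, IsKernel (arc I) S K by
    obtain ⟨K, hK⟩ := h
    exact ⟨K, (isKernelOf_iff I hSlt).2 hK⟩
  by_cases hfull : ∀ r < (ring I).R, ∀ o < (ring I).L, ∃ v ∈ S, tr I v = r ∧ of I v = o
  · let Y : ℕ → Bool := fun r => decide (vx I r 3 true ∈ S)
    have hY : ∀ r < (ring I).R, vx I r 3 (Y r) ∈ S := by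
      intro r hr
      by_cases hc : vx I r 3 true ∈ S
      · rw [show Y r = true from decide_eq_true hc]
        exact hc
      · rw [show Y r = false from decide_eq_false hc]
        have h3 : 3 < (ring I).L := by
          have h2 := (ring I).g_ge
          have h3 := (ring I).L_eq
          omega
        obtain ⟨v, hv, h1, h2⟩ := hfull r hr 3 h3
        have h4 := vx_surj I (v := v)
        rw [h1, h2] at h4
        cases hco : co v with
        | false => rw [hco] at h4; rw [← h4]; exact hv
        | true => rw [hco] at h4; rw [h4] at hv; exact absurd hv hc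
    unfold S2.EA at h
    push Not at h
    obtain ⟨X, hX⟩ := h Y
    -- the selection
    have hsel : ∀ r, ∃ v, r < (ring I).R → (v ∈ S ∧ tr I v = r ∧ (ring I).stop r (of I v) ∧
        (∀ i, (lab I v).2 = i + 1 → S2.mix I.1.length Y X i ≠ (lab I v).1) ∧
        ((lab I v).2 = 0 → (lab I v).1 = false) ∧ (r < I.1.length → co v = Y r)) := by
      intro r
      by_cases hr : r < (ring I).R
      · have hr' : r < (trk I).length := hr
        have single : (trk I).getD r [] = [(false, 0)] → (v : ℕ) → v ∈ S → tr I v = r →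
            of I v = 3 → (r < I.1.length → co v = Y r) → (v ∈ S ∧ tr I v = r ∧
            (ring I).stop r (of I v) ∧
            (∀ i, (lab I v).2 = i + 1 → S2.mix I.1.length Y X i ≠ (lab I v).1) ∧
            ((lab I v).2 = 0 → (lab I v).1 = false) ∧ (r < I.1.length → co v = Y r)) := by
          intro ht v hv h1 h2 h3
          have hst : (ring I).stop r (of I v) := by
            rw [h2]
            have := stop_iff I (r := r) (a := 0) (by rw [ht]; simp)
            exact this
          have hlab : lab I v = (false, 0) := by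
            have := lab_mem I (v := v) (by rw [h1]; exact hst)
            rw [h1, ht, List.mem_singleton] at this
            exact this
          refine ⟨hv, h1, hst, ?_, ?_, h3⟩
          · intro i hi
            rw [hlab] at hi
            simp at hi
          · intro _
            rw [hlab]
        have h3L : 3 < (ring I).L := by
          have h2 := (ring I).g_ge
          have h3 := (ring I).L_eq
          omega
        by_cases c1 : r < I.1.length
        · exact ⟨vx I r 3 (Y r), fun _ => single (trk_var I c1) _ (hY r hr) (tr_vx I _ h3L)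
            (of_vx I _ h3L) (fun _ => co_vx I _ _ _)⟩
        by_cases c2 : r < I.1.length + I.2.2.length
        · obtain ⟨j, rfl⟩ : ∃ j, r = I.1.length + j := ⟨r - I.1.length, by omega⟩
          have hj : j < I.2.2.length := by omega
          obtain ⟨l, hl, hl2⟩ := hX _ (List.getElem_mem hj)
          obtain ⟨a, ha, hal⟩ := List.getElem_of_mem hl
          have hst := stop_iff I (r := I.1.length + j) (a := a) (by
            rw [trk_term I hj]; simpa using ha)
          have hoL := stop_lt_L I hst
          obtain ⟨v, hv, h1, h2⟩ := hfull _ hr _ hoL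
          have hlab : lab I v = (l.1, l.2 + 1) := by
            unfold lab
            rw [h1, h2, trk_term I hj, show (3 * a + 3) / 3 - 1 = a by omega,
              List.getD_eq_getElem _ _ (by simpa using ha), List.getElem_map, hal]
          refine ⟨v, fun _ => ⟨hv, h1, by rw [h2]; exact hst, ?_, ?_, ?_⟩⟩
          · intro i hi
            rw [hlab] at hi ⊢
            have : l.2 = i := by simpa using hi
            rw [← this]
            exact hl2
          · intro h0
            rw [hlab] at h0
            simp at h0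
          · intro h0
            omega
        · obtain ⟨v, hv, h1, h2⟩ := hfull r hr 3 h3L
          exact ⟨v, fun _ => single (trk_dummy I (by omega) hr') v hv h1 h2
            (fun h0 => absurd h0 c1)⟩
      · exact ⟨0, fun h0 => absurd h0 hr⟩
    choose k hk using hsel
    refine Ring.kernel_of_selection (A := ring I) (tr := tr I) (of := of I) (cf := cf I) hS k ?_ ?_
    · intro r hr
      obtain ⟨h1, h2, h3, _⟩ := hk r hr
      exact ⟨h1, h2, h3⟩
    · intro r hr r' hr' hc
      obtain ⟨h1, h2, h3, h4, h5, h6⟩ := hk r hr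
      obtain ⟨h1', h2', h3', h4', h5', h6'⟩ := hk r' hr'
      obtain ⟨_, _, hc⟩ := hc
      rcases hc with ⟨c1, c2⟩ | ⟨c1, c2, c3⟩
      · cases hi : (lab I (k r)).2 with
        | zero =>
          rw [h5 hi, h5' (by rw [← c1]; exact hi)] at c2
          exact c2 rfl
        | succ i =>
          have e1 := h4 i hi
          have e2 := h4' i (by rw [← c1]; exact hi)
          revert e1 e2 c2
          cases (lab I (k r)).1 <;> cases (lab I (k r')).1 <;>
            cases S2.mix I.1.length Y X i <;> simp
      · rw [h2] at c1 c2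
        have e1 := h4' r c2
        rw [c3, h6 c1] at e1
        apply e1
        unfold S2.mix
        rw [if_pos c1]
  · push Not at hfull
    obtain ⟨r₀, hr₀, o₀, ho₀, hmiss⟩ := hfull
    exact (ring I).kernel_of_missing (tr I) (of I) (cf I) hS hr₀ ho₀
      (fun v hv h => hmiss v hv h.1 h.2)

theorem red_correct (I : Inst) : S2.EA I ↔ ¬ KernelPerfect (red I) :=
  ⟨hard_direction I, fun h => by
    by_contra h'
    exact h (easy_direction I h')⟩

end Pool.Agent.NPC.KP
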