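import Mathlib

/-! Moments of the normalised Moebius sums from their variance. -/

set_option autoImplicit false

open MeasureTheory Set

namespace Pool.Agent.H601R2.MoebMom

/-- the sum of `μ(n)` over `|n - x| < H/2` -/
noncomputable def M (x H : ℝ) : ℝ :=
  ∑ n ∈ (Finset.range (⌈x + H⌉₊ + 1)).filter (fun n : ℕ => |(n : ℝ) - x| < H / 2),
    ((ArithmeticFunction.moebius n : ℤ) : ℝ)

/-- the same sum over a fixed range -/
noncomputable def g (N : ℕ) (H x : ℝ) : ℝ :=
  ∑ n ∈ Finset.range N, if |(n : ℝ) - x| < H / 2 then ((ArithmeticFunction.moebius n : ℤ) : ℝ) else 0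

theorem M_eq (X H x : ℝ) (hX : 0 < X) (hH : 0 < H) (hx : x ≤ 2 * X) (hx0 : X ≤ x) :
    M x H = g (⌈2 * X + H⌉₊ + 1) H x := by
  unfold M g
  rw [← Finset.sum_filter]
  congr 1
  ext n
  simp only [Finset.mem_filter, Finset.mem_range]
  constructor
  · rintro ⟨h1, h2⟩
    refine ⟨lt_of_lt_of_le h1 ?_, h2⟩
    have : ⌈x + H⌉₊ ≤ ⌈2 * X + H⌉₊ := Nat.ceil_mono (by linarith)
    omega
  · rintro ⟨-, h2⟩
    refine ⟨?_, h2⟩
    have h3 := (abs_lt.1 h2).2
    have h4 : (n : ℝ) ≤ (⌈x + H⌉₊ : ℝ) := by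
      have := Nat.le_ceil (x + H)
      linarith
    have h5 : n ≤ ⌈x + H⌉₊ := by exact_mod_cast h4
    omega

theorem g_meas (N : ℕ) (H : ℝ) : Measurable (g N H) := by
  unfold g
  apply Finset.measurable_sum
  intro n _
  apply Measurable.ite _ measurable_const measurable_const
  exact measurableSet_lt (by fun_prop) measurable_const

theorem g_bound (N : ℕ) (H x : ℝ) : |g N H x| ≤ N := by
  unfold g
  refine (Finset.abs_sum_le_sum_abs _ _).trans ?_
  calc _ ≤ ∑ _n ∈ Finset.range N, (1 : ℝ) := by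
        apply Finset.sum_le_sum
        intro n _
        split_ifs
        · have h1 : |ArithmeticFunction.moebius n| ≤ 1 := ArithmeticFunction.abs_moebius_le_one
          have h2 : ((|ArithmeticFunction.moebius n| : ℤ) : ℝ) ≤ 1 := by exact_mod_cast h1
          rwa [Int.cast_abs] at h2
        · simp
    _ = N := by simp

/-- integrability -/
theorem intg (X H : ℝ) (hX : 0 < X) (hH : 0 < H) (F : ℝ → ℝ) (hF : Continuous F) :
    IntervalIntegrable (fun x => F (M x H)) volume X (2 * X) := by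
  rw [intervalIntegrable_iff_integrableOn_Ioc_of_le (by linarith)]
  set N := ⌈2 * X + H⌉₊ + 1 with hN
  obtain ⟨K, hK⟩ := (isCompact_Icc (a := -(N : ℝ)) (b := N)).exists_bound_of_continuousOn
    hF.continuousOn
  have h1 : IntegrableOn (fun x => F (g N H x)) (Ioc X (2 * X)) volume := by
    apply Measure.integrableOn_of_bounded (M := K)
    · simp
    · exact (hF.measurable.comp (g_meas N H)).aestronglyMeasurable
    · refine Filter.Eventually.of_forall fun x => ?_
      exact hK _ (abs_le.1 (g_bound N H x))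
  refine h1.congr_fun (fun x hx => ?_) measurableSet_Ioc
  show F (g N H x) = F (M x H)
  rw [M_eq X H x hX hH hx.2 hx.1.le]

theorem moment_ge (X H q c z : ℝ) (hX : 0 < X) (hH : 0 < H) (hq : 1 ≤ q) (hc : 0 < c) (hz : 0 < z)
    (hV : c * H ≤ (1 / X) * ∫ x in X..2 * X, M x H ^ 2) :
    (c * z) ^ q ≤ (1 / X) * ∫ x in X..2 * X, (M x H ^ 2 / (H / z)) ^ q := by
  set A : ℝ := c * z with hA
  have hA0 : 0 < A := by positivity
  have hHz : 0 < H / z := by positivity
  have hpt : ∀ x, A ^ q * (1 + q * (M x H ^ 2 / (H / z) / A - 1)) ≤ (M x H ^ 2 / (H / z)) ^ q := by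
    intro x
    have hy : 0 ≤ M x H ^ 2 / (H / z) := by positivity
    have h1 : -1 ≤ M x H ^ 2 / (H / z) / A - 1 := by
      have : 0 ≤ M x H ^ 2 / (H / z) / A := by positivity
      linarith
    have h2 := one_add_mul_self_le_rpow_one_add h1 hq
    have h3 : 1 + (M x H ^ 2 / (H / z) / A - 1) = M x H ^ 2 / (H / z) / A := by ring
    rw [h3, Real.div_rpow hy hA0.le] at h2
    have h4 : 0 < A ^ q := by positivity
    rw [le_div_iff₀ h4] at h2
    linarith
  have i1 : IntervalIntegrable (fun x => A ^ q * (1 + q * (M x H ^ 2 / (H / z) / A - 1))) volume X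
      (2 * X) := intg X H hX hH (fun m => A ^ q * (1 + q * (m ^ 2 / (H / z) / A - 1))) (by fun_prop)
  have i2 : IntervalIntegrable (fun x => (M x H ^ 2 / (H / z)) ^ q) volume X (2 * X) :=
    intg X H hX hH (fun m => (m ^ 2 / (H / z)) ^ q) (by
      apply Continuous.rpow_const (by fun_prop)
      intro x
      right
      linarith)
  have h5 := intervalIntegral.integral_mono_on (by linarith : X ≤ 2 * X) i1 i2 fun x _ => hpt x
  have i3 : IntervalIntegrable (fun x => M x H ^ 2) volume X (2 * X) :=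
    intg X H hX hH (fun m => m ^ 2) (by fun_prop)
  have h6 : ∫ x in X..2 * X, A ^ q * (1 + q * (M x H ^ 2 / (H / z) / A - 1)) =
      A ^ q * ((1 - q) * X) + A ^ q * (q / (H / z) / A) * ∫ x in X..2 * X, M x H ^ 2 := by
    have e : (fun x => A ^ q * (1 + q * (M x H ^ 2 / (H / z) / A - 1))) =
        fun x => A ^ q * (1 - q) + A ^ q * (q / (H / z) / A) * M x H ^ 2 := by
      funext x
      ring
    rw [e, intervalIntegral.integral_add intervalIntegrable_const (i3.const_mul _),
      intervalIntegral.integral_const, intervalIntegral.integral_const_mul]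
    simp only [smul_eq_mul]
    ring
  rw [h6] at h5
  have h7 : 1 / X * (A ^ q * ((1 - q) * X) + A ^ q * (q / (H / z) / A) *
      ∫ x in X..2 * X, M x H ^ 2) ≤ 1 / X * ∫ x in X..2 * X, (M x H ^ 2 / (H / z)) ^ q :=
    mul_le_mul_of_nonneg_left h5 (by positivity)
  refine le_trans ?_ h7
  have h8 : 1 / X * (A ^ q * ((1 - q) * X) + A ^ q * (q / (H / z) / A) *
      ∫ x in X..2 * X, M x H ^ 2) = A ^ q * (1 - q) + A ^ q * (q / (H / z) / A) *
      (1 / X * ∫ x in X..2 * X, M x H ^ 2) := by
    field_simp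
  rw [h8]
  have h9 : A ^ q * (q / (H / z) / A) * (c * H) ≤ A ^ q * (q / (H / z) / A) *
      (1 / X * ∫ x in X..2 * X, M x H ^ 2) := mul_le_mul_of_nonneg_left hV (by positivity)
  have h10 : A ^ q * (q / (H / z) / A) * (c * H) = A ^ q * q := by
    rw [hA]
    field_simp
  nlinarith

end Pool.Agent.H601R2.MoebMom
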