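import Mathlib
import Pool.Agent.H312R2.RG.Fin
import Pool.Agent.H312R2.RG.C1
import Pool.Agent.H510R2.Maier.MB9
import Pool.Agent.H510R2.Maier.MB10

/-! Real windows `(x, x + h(x))`: exact small prime counts at the record length, and poor and rich
windows of length `(log x)^2`. -/

set_option autoImplicit false

open Filter Finset MeasureTheory

namespace Pool.Agent.H601R2.RealWin

open Pool.Agent.H256R2.SC (ff)
open Pool.Agent.H378R2 (yy)

/-- the number of primes `p` with `a < p < b` -/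
noncomputable def primesIn (a b : ℝ) : ℕ := {p : ℕ | p.Prime ∧ a < p ∧ (p : ℝ) < b}.ncard

theorem primesIn_finite (a b : ℝ) : {p : ℕ | p.Prime ∧ a < p ∧ (p : ℝ) < b}.Finite :=
  (Set.finite_Iic ⌊b⌋₊).subset fun p hp => Nat.le_floor hp.2.2.le

/-- unit intervals inside a set -/
theorem vol_ge (S : Finset ℕ) (s : ℝ) (E : Set ℝ)
    (h : ∀ n ∈ S, Set.Ioo ((n : ℝ) + s) (n + s + 1) ⊆ E) : (S.card : ENNReal) ≤ volume E := by
  have h1 : volume (⋃ n ∈ S, Set.Ioo ((n : ℝ) + s) (n + s + 1)) = S.card := by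
    rw [measure_biUnion_finset]
    · have : ∀ n ∈ S, volume (Set.Ioo ((n : ℝ) + s) (n + s + 1)) = 1 := by
        intro n _
        rw [Real.volume_Ioo]
        have : (n : ℝ) + s + 1 - (n + s) = 1 := by ring
        rw [this, ENNReal.ofReal_one]
      rw [Finset.sum_congr rfl this]
      simp
    · intro m _ n _ hmn
      rw [Function.onFun, Set.disjoint_left]
      rintro x ⟨h1, h2⟩ ⟨h3, h4⟩
      rcases lt_or_gt_of_ne hmn with hlt | hlt
      · have : (m : ℝ) + 1 ≤ n := by exact_mod_cast hlt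
        linarith
      · have : (n : ℝ) + 1 ≤ m := by exact_mod_cast hlt
        linarith
    · intro n _
      exact measurableSet_Ioo
  rw [← h1]
  exact measure_mono (Set.iUnion₂_subset h)

theorem ofReal_le_card {y : ℝ} {S : Finset ℕ} (h : y ≤ (S.card : ℝ)) :
    ENNReal.ofReal y ≤ (S.card : ENNReal) := by
  rw [← ENNReal.ofReal_natCast]
  exact ENNReal.ofReal_le_ofReal h

/-! ### part 1 -/

theorem ff_mono : ∃ x₁ : ℝ, ∀ x y : ℝ, x₁ ≤ x → x ≤ y → ff x ≤ ff y := by
  have t1 := Real.tendsto_log_atTop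
  have t2 : Tendsto (fun X : ℝ => Real.log (Real.log X)) atTop atTop := t1.comp t1
  have t3 : Tendsto (fun X : ℝ => Real.log (Real.log (Real.log X))) atTop atTop := t1.comp t2
  have t4 : Tendsto (fun X : ℝ => Real.log (Real.log (Real.log (Real.log X)))) atTop atTop :=
    t1.comp t3
  obtain ⟨x₁, hx₁⟩ := eventually_atTop.1 ((t1.eventually_ge_atTop 1).and
    ((t2.eventually_ge_atTop (Real.exp 1)).and ((t3.eventually_ge_atTop 1).and
      ((t4.eventually_ge_atTop 1).and (eventually_ge_atTop 1)))))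
  refine ⟨x₁, fun x y hx hxy => ?_⟩
  obtain ⟨a1, a2, a3, a4, a0⟩ := hx₁ x hx
  have b1 : Real.log x ≤ Real.log y := Real.log_le_log (by linarith) hxy
  have b2 : Real.log (Real.log x) ≤ Real.log (Real.log y) := Real.log_le_log (by linarith) b1
  have he : 0 < Real.exp 1 := Real.exp_pos 1
  have b3 : Real.log (Real.log (Real.log x)) ≤ Real.log (Real.log (Real.log y)) :=
    Real.log_le_log (by linarith) b2
  have b4 : Real.log (Real.log (Real.log (Real.log x))) ≤
      Real.log (Real.log (Real.log (Real.log y))) := Real.log_le_log (by linarith) b3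
  have b5 := Real.log_div_self_antitoneOn (show Real.log (Real.log x) ∈ {x | Real.exp 1 ≤ x} from a2)
    (show Real.log (Real.log y) ∈ {x | Real.exp 1 ≤ x} from a2.trans b2) b2
  unfold ff
  set p1 := Real.log x
  set q1 := Real.log y
  set p2 := Real.log p1
  set q2 := Real.log q1
  set p3 := Real.log p2
  set q3 := Real.log q2
  set p4 := Real.log p3
  set q4 := Real.log q3
  simp only at b5
  have hp2 : 0 < p2 := by linarith
  have hq2 : 0 < q2 := by linarith
  have hp3 : 0 < p3 := by linarith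
  have hq3 : 0 < q3 := by linarith
  have b6 : p2 / p3 ≤ q2 / q3 := by
    rw [div_le_div_iff₀ hq2 hp2] at b5
    rw [div_le_div_iff₀ hp3 hq3]
    linarith
  have e1 : p1 * p2 ^ 2 * p4 / p3 ^ 2 = p1 * (p2 / p3) ^ 2 * p4 := by
    field_simp
  have e2 : q1 * q2 ^ 2 * q4 / q3 ^ 2 = q1 * (q2 / q3) ^ 2 * q4 := by
    field_simp
  rw [e1, e2]
  have hq1 : 0 < q1 := by linarith
  have h0 : 0 ≤ p2 / p3 := by positivity
  have h1 : (p2 / p3) ^ 2 ≤ (q2 / q3) ^ 2 := pow_le_pow_left₀ h0 b6 2
  have h2 : p1 * (p2 / p3) ^ 2 ≤ q1 * (q2 / q3) ^ 2 :=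
    mul_le_mul b1 h1 (by positivity) (by linarith)
  exact mul_le_mul h2 b4 (by linarith) (by positivity)

/-- Exactly `j` primes in `(x, x + c L(x))`, for many real `x`. -/
theorem exact (j : ℕ) : ∃ c : ℝ, 0 < c ∧ ∃ X₀ : ℝ, ∀ X : ℝ, X₀ ≤ X →
    ENNReal.ofReal (X ^ (7 / 8 : ℝ)) ≤
      volume {x : ℝ | X < x ∧ x < 4 * X ∧ primesIn x (x + c * ff x) = j} := by
  classical
  obtain ⟨K, -, c0, hc0, X0, hX0⟩ := Pool.Agent.H312R2.RG.mtrg (j + 1)
  obtain ⟨x₁, hx₁⟩ := ff_mono
  refine ⟨c0 / 4, by positivity, ?_⟩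
  have t5 : Tendsto (fun X : ℝ => 5 * X) atTop atTop := tendsto_id.const_mul_atTop (by norm_num)
  have ev : ∀ᶠ X : ℝ in atTop, ENNReal.ofReal (X ^ (7 / 8 : ℝ)) ≤
      volume {x : ℝ | X < x ∧ x < 4 * X ∧ primesIn x (x + c0 / 4 * ff x) = j} := by
    filter_upwards [eventually_ge_atTop X0, Pool.Agent.H312R2.RG.c1_ff_log (4 ^ (K + 1) * 12 / c0),
      Pool.Agent.H312R2.RG.ev_ff c0 hc0, t5.eventually Pool.Agent.H378R2.RGT.ff_half,
      t5.eventually Pool.Agent.H312R2.RG.c1_card, Real.tendsto_log_atTop.eventually_ge_atTop 1,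
      eventually_ge_atTop 10, eventually_ge_atTop x₁] with X e1 e2 e3 e4 e5 e6 e7 e8
    have hX0' : 0 < X := by linarith
    have h55 : 5 * X / 5 = X := by ring
    rw [h55] at e4 e5
    set H : ℝ := c0 * ff X with hH
    obtain ⟨f1, f2, f3⟩ := e3
    have hH0 : 0 ≤ H := mul_nonneg hc0.le f2
    have hyy : (yy X : ℝ) ≤ Real.log X := by
      unfold yy
      refine (Nat.floor_le (by positivity)).trans ?_
      linarith
    have hHbig : 4 ^ (K + 1) * ((yy X : ℝ) + 2) ≤ H / 4 := by
      have h1 : (4 ^ (K + 1) * 12 / c0 * Real.log X) * c0 ≤ ff X * c0 :=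
        mul_le_mul_of_nonneg_right e2 hc0.le
      have h2 : (4 ^ (K + 1) * 12 / c0 * Real.log X) * c0 = 4 ^ (K + 1) * (12 * Real.log X) := by
        field_simp
      have h3 : (4 : ℝ) ^ (K + 1) * ((yy X : ℝ) + 2) ≤ 4 ^ (K + 1) * (3 * Real.log X) := by
        apply mul_le_mul_of_nonneg_left _ (by positivity)
        linarith
      rw [hH, mul_comm c0]
      linarith
    have hH8 : 8 ≤ H := by
      have h1 : (1 : ℝ) ≤ 4 ^ (K + 1) := one_le_pow₀ (by norm_num)
      have h2 : (2 : ℝ) ≤ 4 ^ (K + 1) * ((yy X : ℝ) + 2) := by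
        have h3 : (0 : ℝ) ≤ yy X := Nat.cast_nonneg _
        nlinarith
      linarith
    obtain ⟨t, ht, hsep⟩ := Pool.Agent.H312R2.RG.c1_primes K (yy X) (H / 4) hHbig
    have hgap : 0 < H / 4 / 4 ^ K := by positivity
    have hinj : Function.Injective t := by
      intro i i' hij
      rcases lt_trichotomy i i' with hlt | heq | hlt
      · have := hsep i i' hlt
        rw [hij] at this
        linarith
      · exact heq
      · have := hsep i' i hlt
        rw [hij] at this
        linarith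
    set E : Set ℝ := {x : ℝ | X < x ∧ x < 4 * X ∧ primesIn x (x + c0 / 4 * ff x) = j} with hE
    set U : Finset ℕ := (Finset.range ⌊4 * X⌋₊).filter
      (fun u : ℕ => Set.Ioo ((u : ℝ) + 0) (u + 0 + 1) ⊆ E) with hU
    set B : ℕ := ⌊H⌋₊ with hB
    have hBle : (B : ℝ) ≤ H := Nat.floor_le hH0
    have hUcard : X ^ (7 / 8 : ℝ) ≤ (U.card : ℝ) := by
      by_contra hcon
      push Not at hcon
      let bad : Finset ℕ := U.biUnion (fun u => Finset.Icc (u - B) u)
      have hbad : (bad.card : ℝ) ≤ X ^ (9 / 10 : ℝ) := by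
        have h1 : bad.card ≤ ∑ n ∈ U, (B + 1) := by
          refine Finset.card_biUnion_le.trans (Finset.sum_le_sum fun n _ => ?_)
          rw [Nat.card_Icc]
          omega
        rw [Finset.sum_const, smul_eq_mul] at h1
        have h2 : (bad.card : ℝ) ≤ (U.card : ℝ) * ((B : ℝ) + 1) := by exact_mod_cast h1
        have h3 : X ^ (7 / 8 : ℝ) ≤ (5 * X) ^ (7 / 8 : ℝ) :=
          Real.rpow_le_rpow hX0'.le (by linarith) (by norm_num)
        refine h2.trans (le_trans ?_ e5)
        apply mul_le_mul (hcon.le.trans h3) _ (by positivity) (by positivity)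
        linarith
      obtain ⟨N, hN1, hN2, hNbad, hNr, hNs⟩ := hX0 X e1 t hinj (fun i => ⟨(ht i).1, (ht i).2.1,
        (ht i).2.2.trans (by linarith)⟩) bad hbad
      -- the number of primes up to `N + B`
      obtain ⟨M, hM⟩ : ∃ M : ℕ, M = Nat.count Nat.Prime (N + (B + 1)) := ⟨_, rfl⟩
      have hcount : Nat.count Nat.Prime N + (j + 1) ≤ M := by
        rw [hM, Nat.count_add]
        apply Nat.add_le_add_left
        rw [Nat.count_eq_card_filter_range]
        refine hNr.trans ?_
        refine Finset.card_le_card_of_injOn t ?_ (fun i _ i' _ hij => hinj hij)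
        intro i hi
        simp only [Finset.coe_filter, Finset.mem_univ, true_and, Set.mem_ofPred_eq] at hi
        simp only [Finset.coe_filter, Finset.mem_range, Set.mem_ofPred_eq]
        refine ⟨?_, hi⟩
        have : t i ≤ B := Nat.le_floor ((ht i).2.2.trans (by linarith))
        omega
      obtain ⟨q, hq⟩ : ∃ q : ℕ, q = Nat.nth Nat.Prime (M - (j + 1)) := ⟨_, rfl⟩
      have hqp : q.Prime := by rw [hq]; exact Nat.prime_nth_prime _
      have hqN : N ≤ q := by
        by_contra hc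
        push Not at hc
        have h2 : Nat.count Nat.Prime (q + 1) ≤ Nat.count Nat.Prime N := Nat.count_monotone _ hc
        rw [Nat.count_succ, hq, Nat.count_nth_of_infinite Nat.infinite_setOfPred_prime,
          if_pos (hq ▸ hqp)] at h2
        omega
      have hqB : q ≤ N + B := by
        have h1 : q < N + (B + 1) := by
          rw [hq]
          exact Nat.nth_lt_of_lt_count (by omega)
        omega
      have hform : ∀ p : ℕ, p.Prime → N ≤ p → p ≤ N + B → (p : ℝ) ≤ N + H / 4 := by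
        intro p hp h1 h2
        obtain ⟨s, hs⟩ := Nat.exists_eq_add_of_le h1
        have hsB : s ≤ B := by omega
        have hsH : (s : ℝ) ≤ H := le_trans (by exact_mod_cast hsB) hBle
        obtain ⟨i, hi⟩ := hNs s hsH (hs ▸ hp)
        rw [hs, hi]
        push_cast
        linarith [(ht i).2.2]
      have hqH : (q : ℝ) ≤ N + H / 4 := hform q hqp hqN hqB
      have hHX : 2 * H ≤ X := f3
      have hNq : (N : ℝ) ≤ q := by exact_mod_cast hqN
      -- the unit interval to the right of `q`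
      have hsub : Set.Ioo ((q : ℝ) + 0) (q + 0 + 1) ⊆ E := by
        rintro x ⟨h1, h2⟩
        rw [add_zero] at h1 h2
        have hx1 : X < x := by linarith
        have hx2 : x < 4 * X := by linarith
        refine ⟨hx1, hx2, ?_⟩
        have g1 : ff X ≤ ff x := hx₁ X x e8 hx1.le
        have g2 : ff x ≤ 2 * ff X := by
          have := hx₁ x (5 * X) (e8.trans hx1.le) (by linarith)
          linarith
        have g3 : H / 4 ≤ c0 / 4 * ff x := by
          have := mul_le_mul_of_nonneg_left g1 hc0.le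
          rw [hH]
          linarith
        have g4 : c0 / 4 * ff x ≤ H / 2 := by
          have := mul_le_mul_of_nonneg_left g2 hc0.le
          rw [hH]
          linarith
        have hset : {p : ℕ | p.Prime ∧ x < p ∧ (p : ℝ) < x + c0 / 4 * ff x} =
            (((Finset.range (N + (B + 1))).filter Nat.Prime \
              (Finset.range (q + 1)).filter Nat.Prime : Finset ℕ) : Set ℕ) := by
          ext p
          rw [Finset.coe_sdiff, Set.mem_sdiff, Finset.mem_coe, Finset.mem_coe, Finset.mem_filter,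
            Finset.mem_filter, Finset.mem_range, Finset.mem_range, Set.mem_ofPred_eq]
          constructor
          · rintro ⟨h3, h4, h5⟩
            have h6 : (q : ℝ) < p := h1.trans h4
            have h6' : q < p := by exact_mod_cast h6
            have h7 : (p : ℝ) < N + H := by linarith
            refine ⟨⟨?_, h3⟩, fun h => by omega⟩
            obtain ⟨s, hs⟩ := Nat.exists_eq_add_of_le (hqN.trans h6'.le)
            have h8 : (s : ℝ) ≤ H := by
              rw [hs] at h7
              push_cast at h7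
              linarith
            have h9 : s ≤ B := Nat.le_floor h8
            omega
          · rintro ⟨⟨h3, h4⟩, h5⟩
            have h6 : q + 1 ≤ p := by
              by_contra hc
              exact h5 ⟨by omega, h4⟩
            have h6' : (q : ℝ) + 1 ≤ p := by exact_mod_cast h6
            have h7 := hform p h4 (by omega) (by omega)
            exact ⟨h4, by linarith, by linarith⟩
        unfold primesIn
        rw [hset, Set.ncard_coe_finset, Finset.card_sdiff_of_subset, ← Nat.count_eq_card_filter_range,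
          ← Nat.count_eq_card_filter_range, ← hM, Nat.count_succ, if_pos hqp]
        · have h3 : Nat.count Nat.Prime q = M - (j + 1) := by
            rw [hq, Nat.count_nth_of_infinite Nat.infinite_setOfPred_prime]
          rw [h3]
          omega
        · apply Finset.filter_subset_filter
          intro a ha
          rw [Finset.mem_range] at ha ⊢
          omega
      have hqU : q ∈ U := by
        rw [hU, Finset.mem_filter, Finset.mem_range]
        refine ⟨?_, hsub⟩
        have h1 : q + 1 ≤ ⌊4 * X⌋₊ := Nat.le_floor (by push_cast; linarith)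
        omega
      apply hNbad
      rw [Finset.mem_biUnion]
      exact ⟨q, hqU, Finset.mem_Icc.2 ⟨by omega, hqN⟩⟩
    exact (ofReal_le_card hUcard).trans (vol_ge U 0 E fun u hu => (Finset.mem_filter.1 hu).2)
  exact eventually_atTop.1 ev

/-! ### part 2 -/

theorem transfer (Q : ℕ → Prop) [DecidablePred Q] (E : Set ℝ) (s : ℝ) (hs0 : s ≤ 0) (hs1 : -1 ≤ s)
    (hE : ∀ᶠ n : ℕ in atTop, Q n → Set.Ioo ((n : ℝ) + s) (n + s + 1) ⊆ E)
    (hQ : ∀ η : ℝ, 0 < η → ∀ᶠ N : ℕ in atTop, (N : ℝ) ^ (1 - η) ≤ (((Icc 1 N).filter Q).card : ℝ))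
    (η : ℝ) (hη : 0 < η) : ∃ X₀ : ℝ, ∀ X : ℝ, X₀ ≤ X →
      ENNReal.ofReal (X ^ (1 - η)) ≤ volume {x : ℝ | 8 < x ∧ x ≤ X ∧ x ∈ E} := by
  obtain ⟨n₀, hn₀⟩ := eventually_atTop.1 hE
  obtain ⟨η', hη'⟩ : ∃ η' : ℝ, η' = min η (1 / 2) := ⟨_, rfl⟩
  have h0 : 0 < η' := by rw [hη']; positivity
  have h1 : η' ≤ η := by rw [hη']; exact min_le_left _ _
  have h2 : η' ≤ 1 / 2 := by rw [hη']; exact min_le_right _ _
  have hQ' := hQ (η' / 2) (by positivity)
  have tf : Tendsto (fun X : ℝ => ⌊X⌋₊ - 1) atTop atTop :=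
    (tendsto_sub_atTop_nat 1).comp tendsto_nat_floor_atTop
  have p1 : ∀ᶠ X : ℝ in atTop, (4 : ℝ) ≤ X ^ (η' / 2) :=
    (tendsto_rpow_atTop (by positivity)).eventually_ge_atTop 4
  have p2 : ∀ᶠ X : ℝ in atTop, ((max n₀ 9 : ℕ) : ℝ) ≤ X ^ (1 / 2 : ℝ) :=
    (tendsto_rpow_atTop (by positivity)).eventually_ge_atTop _
  have ev : ∀ᶠ X : ℝ in atTop, ENNReal.ofReal (X ^ (1 - η)) ≤
      volume {x : ℝ | 8 < x ∧ x ≤ X ∧ x ∈ E} := by
    filter_upwards [tf.eventually hQ', p1, p2, eventually_ge_atTop 10] with X g1 g2 g3 g4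
    have hX0 : 0 < X := by linarith
    set N : ℕ := ⌊X⌋₊ - 1 with hN
    have hfl : X < (⌊X⌋₊ : ℝ) + 1 := Nat.lt_floor_add_one X
    have hfl' : (⌊X⌋₊ : ℝ) ≤ X := Nat.floor_le hX0.le
    have hfl1 : 1 ≤ ⌊X⌋₊ := Nat.le_floor (by push_cast; linarith)
    have hNr : (N : ℝ) = (⌊X⌋₊ : ℝ) - 1 := by
      rw [hN, Nat.cast_sub hfl1]
      simp
    have hN2 : X / 2 ≤ N := by linarith
    set S : Finset ℕ := ((Icc 1 N).filter Q).filter (fun n => max n₀ 9 ≤ n) with hS
    have hcard : ((Icc 1 N).filter Q).card ≤ S.card + max n₀ 9 := by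
      have h3 : ((Icc 1 N).filter Q) ⊆ S ∪ Finset.range (max n₀ 9) := by
        intro n hn
        rw [Finset.mem_union, hS, Finset.mem_filter, Finset.mem_range]
        by_cases h : max n₀ 9 ≤ n
        · exact Or.inl ⟨hn, h⟩
        · exact Or.inr (by omega)
      calc _ ≤ (S ∪ Finset.range (max n₀ 9)).card := Finset.card_le_card h3
        _ ≤ S.card + (Finset.range (max n₀ 9)).card := Finset.card_union_le _ _
        _ = _ := by rw [Finset.card_range]
    have hcard' : (((Icc 1 N).filter Q).card : ℝ) ≤ (S.card : ℝ) + ((max n₀ 9 : ℕ) : ℝ) := by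
      exact_mod_cast hcard
    have h3 : X ^ (1 - η) ≤ X ^ (1 - η') :=
      Real.rpow_le_rpow_of_exponent_le (by linarith) (by linarith)
    have h4 : X ^ (1 / 2 : ℝ) ≤ X ^ (1 - η') :=
      Real.rpow_le_rpow_of_exponent_le (by linarith) (by linarith)
    have h5 : (X / 2) ^ (1 - η' / 2) ≤ (N : ℝ) ^ (1 - η' / 2) :=
      Real.rpow_le_rpow (by positivity) hN2 (by linarith)
    have h6 : (X / 2) ^ (1 - η' / 2) = X ^ (1 - η' / 2) / 2 ^ (1 - η' / 2) :=
      Real.div_rpow hX0.le (by norm_num) _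
    have h7 : (2 : ℝ) ^ (1 - η' / 2) ≤ 2 := by
      calc (2 : ℝ) ^ (1 - η' / 2) ≤ 2 ^ (1 : ℝ) :=
            Real.rpow_le_rpow_of_exponent_le (by norm_num) (by linarith)
        _ = 2 := Real.rpow_one 2
    have h8 : X ^ (1 - η' / 2) / 2 ≤ X ^ (1 - η' / 2) / 2 ^ (1 - η' / 2) :=
      div_le_div_of_nonneg_left (by positivity) (by positivity) h7
    have h9 : X ^ (1 - η' / 2) = X ^ (1 - η') * X ^ (η' / 2) := by
      rw [← Real.rpow_add hX0]; congr 1; ring
    have h10 : 0 < X ^ (1 - η') := by positivity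
    have h11 : X ^ (1 - η') * 4 ≤ X ^ (1 - η') * X ^ (η' / 2) :=
      mul_le_mul_of_nonneg_left g2 h10.le
    have hSc : X ^ (1 - η) ≤ (S.card : ℝ) := by linarith
    refine (ofReal_le_card hSc).trans (vol_ge S s _ fun n hn x hx => ?_)
    rw [hS, Finset.mem_filter, Finset.mem_filter, Finset.mem_Icc] at hn
    obtain ⟨⟨⟨k1, k2⟩, k3⟩, k4⟩ := hn
    have k5 : n₀ ≤ n := (le_max_left _ _).trans k4
    have k6 : 9 ≤ n := (le_max_right _ _).trans k4
    have k6' : (9 : ℝ) ≤ n := by exact_mod_cast k6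
    have k2' : (n : ℝ) ≤ N := by exact_mod_cast k2
    refine ⟨?_, ?_, hn₀ n k5 k3 hx⟩
    · linarith [hx.1]
    · linarith [hx.2]
  exact eventually_atTop.1 ev

/-- poor windows -/
theorem poor (κ η : ℝ) (hκ : Real.exp Real.eulerMascheroniConstant / 2 < κ) (hη : 0 < η) :
    ∃ X₀ : ℝ, ∀ X : ℝ, X₀ ≤ X → ENNReal.ofReal (X ^ (1 - η)) ≤
      volume {x : ℝ | 8 < x ∧ x ≤ X ∧ (primesIn x (x + (Real.log x) ^ 2) : ℝ) ≤ κ * Real.log x} := by
  classical
  have hE0 : 0 < Real.exp Real.eulerMascheroniConstant := Real.exp_pos _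
  have hκ0 : 0 < κ := lt_trans (by positivity) hκ
  have h1 : 1 < 2 * Real.exp (-Real.eulerMascheroniConstant) * κ := by
    rw [Real.exp_neg]
    have h2 : 2 * (Real.exp Real.eulerMascheroniConstant)⁻¹ * κ =
        κ / (Real.exp Real.eulerMascheroniConstant / 2) := by field_simp
    rw [h2, one_lt_div (by positivity)]
    exact hκ
  obtain ⟨c, hc1, hc2⟩ := exists_between h1
  have key := transfer (fun n => (Pool.Agent.H510R2.Maier.cntP Nat.Prime n
      ⌊c * (Real.log n) ^ 2⌋₊ : ℝ) ≤ κ * Real.log n)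
    {x : ℝ | (primesIn x (x + (Real.log x) ^ 2) : ℝ) ≤ κ * Real.log x} 0 le_rfl (by norm_num) ?_
    (fun η' hη' => ?_) η hη
  · obtain ⟨X₀, hX₀⟩ := key
    exact ⟨X₀, fun X hX => hX₀ X hX⟩
  · have tl : Tendsto (fun n : ℕ => Real.log (n : ℝ)) atTop atTop :=
      Real.tendsto_log_atTop.comp tendsto_natCast_atTop_atTop
    filter_upwards [tl.eventually_ge_atTop (max 1 (4 / (c - 1))), eventually_ge_atTop 2]
      with n g1 g2 hQ x hx
    rw [add_zero] at hx
    obtain ⟨x1, x2⟩ := hx
    have hn2 : (2 : ℝ) ≤ n := by exact_mod_cast g2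
    set L : ℝ := Real.log n with hL
    have hL1 : 1 ≤ L := (le_max_left _ _).trans g1
    have hL2 : 4 / (c - 1) ≤ L := (le_max_right _ _).trans g1
    rw [div_le_iff₀ (by linarith)] at hL2
    have hlx : Real.log x ≤ L + 1 := by
      have h3 : Real.log x ≤ Real.log (2 * n) := Real.log_le_log (by linarith) (by linarith)
      rw [Real.log_mul (by norm_num) (by linarith)] at h3
      have := Real.log_two_lt_d9
      linarith
    have hlx0 : L ≤ Real.log x := Real.log_le_log (by linarith) x1.le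
    have hsq : (Real.log x) ^ 2 ≤ (L + 1) ^ 2 := pow_le_pow_left₀ (by linarith) hlx 2
    have hbd : 1 + (L + 1) ^ 2 ≤ c * L ^ 2 := by nlinarith
    rw [Set.mem_ofPred_eq]
    have hle : primesIn x (x + (Real.log x) ^ 2) ≤ Pool.Agent.H510R2.Maier.cntP Nat.Prime n
        ⌊c * (Real.log n) ^ 2⌋₊ := by
      rw [Pool.Agent.H510R2.Maier.cntP_eq]
      unfold primesIn
      rw [Set.ncard_eq_toFinset_card _ (primesIn_finite _ _)]
      apply Finset.card_le_card_of_injOn (fun p => p - n)
      · intro p hp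
        rw [Finset.mem_coe, Set.Finite.mem_toFinset] at hp
        obtain ⟨k1, k2, k3⟩ := hp
        have k4 : (n : ℝ) < p := x1.trans k2
        have k4' : n < p := by exact_mod_cast k4
        rw [Finset.mem_coe, Finset.mem_filter, Finset.mem_Icc]
        refine ⟨⟨Nat.sub_pos_of_lt k4', Nat.le_floor ?_⟩, ?_⟩
        · show ((p - n : ℕ) : ℝ) ≤ c * (Real.log n) ^ 2
          rw [Nat.cast_sub k4'.le]
          linarith
        · show (n + (p - n)).Prime
          rw [Nat.add_sub_cancel' k4'.le]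
          exact k1
      · intro p hp p' hp' h
        rw [Finset.mem_coe, Set.Finite.mem_toFinset] at hp hp'
        have k4 : (n : ℝ) < p := x1.trans hp.2.1
        have k5 : (n : ℝ) < p' := x1.trans hp'.2.1
        have k4' : n < p := by exact_mod_cast k4
        have k5' : n < p' := by exact_mod_cast k5
        simp only at h
        omega
    calc (primesIn x (x + (Real.log x) ^ 2) : ℝ) ≤ _ := by exact_mod_cast hle
      _ ≤ κ * L := hQ
      _ ≤ κ * Real.log x := mul_le_mul_of_nonneg_left hlx0 hκ0.le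
  · filter_upwards [Pool.Agent.H510R2.Maier.G.few_freq κ c η' hκ0 hc2 hη'] with N hN
    unfold Pool.Agent.H510R2.Maier.G.NF at hN
    convert hN using 3

/-- rich windows -/
theorem rich (κ η : ℝ) (hκ0 : 0 < κ) (hκ : κ < 1.07) (hη : 0 < η) :
    ∃ X₀ : ℝ, ∀ X : ℝ, X₀ ≤ X → ENNReal.ofReal (X ^ (1 - η)) ≤
      volume {x : ℝ | 8 < x ∧ x ≤ X ∧ κ * Real.log x ≤ (primesIn x (x + (Real.log x) ^ 2) : ℝ)} := by
  classical
  have h1 : κ / 1.07 < 1 := by rw [div_lt_one (by norm_num)]; exact hκ
  obtain ⟨c, hc1, hc2⟩ := exists_between h1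
  have hc0 : 0 < c := lt_trans (by positivity) hc1
  have key := transfer (fun n => κ * Real.log n ≤ (Pool.Agent.H510R2.Maier.cntP Nat.Prime n
      ⌊c * (Real.log n) ^ 2⌋₊ : ℝ))
    {x : ℝ | κ * Real.log x ≤ (primesIn x (x + (Real.log x) ^ 2) : ℝ)} (-1) (by norm_num) le_rfl ?_
    (fun η' hη' => ?_) η hη
  · obtain ⟨X₀, hX₀⟩ := key
    exact ⟨X₀, fun X hX => hX₀ X hX⟩
  · have tl : Tendsto (fun n : ℕ => Real.log (n : ℝ)) atTop atTop :=
      Real.tendsto_log_atTop.comp tendsto_natCast_atTop_atTop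
    filter_upwards [tl.eventually_ge_atTop (max 2 (2 / (1 - c))), eventually_ge_atTop 3]
      with n g1 g2 hQ x hx
    obtain ⟨x1, x2⟩ := hx
    have hn3 : (3 : ℝ) ≤ n := by exact_mod_cast g2
    set L : ℝ := Real.log n with hL
    have hL1 : 2 ≤ L := (le_max_left _ _).trans g1
    have hL2 : 2 / (1 - c) ≤ L := (le_max_right _ _).trans g1
    rw [div_le_iff₀ (by linarith)] at hL2
    have hx0 : 0 < x := by linarith
    have hxn : x ≤ n := by linarith
    have hlx0 : Real.log x ≤ L := Real.log_le_log hx0 hxn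
    have hlx : L - 1 ≤ Real.log x := by
      have h3 : Real.log (n / 2) ≤ Real.log x := Real.log_le_log (by linarith) (by linarith)
      rw [Real.log_div (by linarith) (by norm_num)] at h3
      have := Real.log_two_lt_d9
      linarith
    have hsq : (L - 1) ^ 2 ≤ (Real.log x) ^ 2 := pow_le_pow_left₀ (by linarith) hlx 2
    have hbd : c * L ^ 2 + 1 ≤ (L - 1) ^ 2 := by nlinarith
    rw [Set.mem_ofPred_eq]
    have hle : Pool.Agent.H510R2.Maier.cntP Nat.Prime n ⌊c * (Real.log n) ^ 2⌋₊ ≤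
        primesIn x (x + (Real.log x) ^ 2) := by
      rw [Pool.Agent.H510R2.Maier.cntP_eq]
      unfold primesIn
      rw [Set.ncard_eq_toFinset_card _ (primesIn_finite _ _)]
      apply Finset.card_le_card_of_injOn (fun h => n + h)
      · intro h hh
        rw [Finset.mem_coe, Finset.mem_filter, Finset.mem_Icc] at hh
        obtain ⟨⟨k1, k2⟩, k3⟩ := hh
        have k2' : (h : ℝ) ≤ c * L ^ 2 := (Nat.le_floor_iff (by positivity)).1 k2
        have k1' : (1 : ℝ) ≤ h := by exact_mod_cast k1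
        rw [Finset.mem_coe, Set.Finite.mem_toFinset]
        refine ⟨k3, ?_, ?_⟩
        · push_cast
          linarith
        · push_cast
          linarith
      · intro h _ h' _ heq
        simp only at heq
        omega
    calc κ * Real.log x ≤ κ * L := mul_le_mul_of_nonneg_left hlx0 hκ0.le
      _ ≤ _ := hQ
      _ ≤ (primesIn x (x + (Real.log x) ^ 2) : ℝ) := by exact_mod_cast hle
  · filter_upwards [Pool.Agent.H510R2.Maier.G.many_freq κ c η' hκ0 hc1 hη'] with N hN
    unfold Pool.Agent.H510R2.Maier.G.NM at hN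
    convert hN using 3

end Pool.Agent.H601R2.RealWin
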