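import Mathlib
import Pool.Agent.H378R2.QG.Main

/-! Many squares inside prime gaps of record length. -/

set_option autoImplicit false

open Filter Finset

namespace Pool.Agent.H601R2.SqGap

/-- the record function -/
noncomputable def L (x : ℝ) : ℝ :=
  Real.log x * (Real.log (Real.log x)) ^ 2 * Real.log (Real.log (Real.log (Real.log x))) /
    (Real.log (Real.log (Real.log x))) ^ 2

theorem L_mono : ∃ x₁ : ℝ, ∀ x y : ℝ, x₁ ≤ x → x ≤ y → L x ≤ L y := by
  have t1 := Real.tendsto_log_atTop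
  have t2 : Tendsto (fun X : ℝ => Real.log (Real.log X)) atTop atTop := t1.comp t1
  have t3 : Tendsto (fun X : ℝ => Real.log (Real.log (Real.log X))) atTop atTop := t1.comp t2
  have t4 : Tendsto (fun X : ℝ => Real.log (Real.log (Real.log (Real.log X)))) atTop atTop :=
    t1.comp t3
  obtain ⟨x₁, hx₁⟩ := eventually_atTop.1 ((t1.eventually_ge_atTop 1).and
    ((t2.eventually_ge_atTop (Real.exp 1)).and ((t3.eventually_ge_atTop 1).and
      ((t4.eventually_ge_atTop 1).and (eventually_ge_atTop 1)))))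
  refine ⟨x₁, fun x y hx hxy => ?_⟩
  obtain ⟨a1, a2, a3, a4, a0⟩ := hx₁ x hx
  have b1 : Real.log x ≤ Real.log y := Real.log_le_log (by linarith) hxy
  have b2 : Real.log (Real.log x) ≤ Real.log (Real.log y) := Real.log_le_log (by linarith) b1
  have he : 0 < Real.exp 1 := Real.exp_pos 1
  have b3 : Real.log (Real.log (Real.log x)) ≤ Real.log (Real.log (Real.log y)) :=
    Real.log_le_log (by linarith) b2
  have b4 : Real.log (Real.log (Real.log (Real.log x))) ≤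
      Real.log (Real.log (Real.log (Real.log y))) := Real.log_le_log (by linarith) b3
  have b5 := Real.log_div_self_antitoneOn (show Real.log (Real.log x) ∈ {x | Real.exp 1 ≤ x} from a2)
    (show Real.log (Real.log y) ∈ {x | Real.exp 1 ≤ x} from a2.trans b2) b2
  unfold L
  set p1 := Real.log x
  set q1 := Real.log y
  set p2 := Real.log p1
  set q2 := Real.log q1
  set p3 := Real.log p2
  set q3 := Real.log q2
  set p4 := Real.log p3
  set q4 := Real.log q3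
  simp only at b5
  have hp2 : 0 < p2 := by linarith
  have hq2 : 0 < q2 := by linarith
  have hp3 : 0 < p3 := by linarith
  have hq3 : 0 < q3 := by linarith
  have b6 : p2 / p3 ≤ q2 / q3 := by
    rw [div_le_div_iff₀ hq2 hp2] at b5
    rw [div_le_div_iff₀ hp3 hq3]
    linarith
  have e1 : p1 * p2 ^ 2 * p4 / p3 ^ 2 = p1 * (p2 / p3) ^ 2 * p4 := by
    field_simp
  have e2 : q1 * q2 ^ 2 * q4 / q3 ^ 2 = q1 * (q2 / q3) ^ 2 * q4 := by
    field_simp
  rw [e1, e2]
  have hq1 : 0 < q1 := by linarith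
  have h0 : 0 ≤ p2 / p3 := by positivity
  have h1 : (p2 / p3) ^ 2 ≤ (q2 / q3) ^ 2 := pow_le_pow_left₀ h0 b6 2
  have h2 : p1 * (p2 / p3) ^ 2 ≤ q1 * (q2 / q3) ^ 2 :=
    mul_le_mul b1 h1 (by positivity) (by linarith)
  exact mul_le_mul h2 b4 (by linarith) (by positivity)

/-- comparison of `L (N ^ θ)` and `L (2 N)` -/
theorem L_pow (θ : ℝ) (hθ : 0 < θ) (hθ1 : θ ≤ 1) : ∀ᶠ N : ℝ in atTop,
    θ / 2 * L (2 * N) ≤ L (N ^ θ) := by
  have t1 := Real.tendsto_log_atTop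
  have t2 : Tendsto (fun X : ℝ => Real.log (Real.log X)) atTop atTop := t1.comp t1
  have t3 : Tendsto (fun X : ℝ => Real.log (Real.log (Real.log X))) atTop atTop := t1.comp t2
  have t4 : Tendsto (fun X : ℝ => Real.log (Real.log (Real.log (Real.log X)))) atTop atTop :=
    t1.comp t3
  have tp : Tendsto (fun N : ℝ => N ^ θ) atTop atTop := tendsto_rpow_atTop hθ
  have td : Tendsto (fun N : ℝ => 2 * N) atTop atTop := tendsto_id.const_mul_atTop (by norm_num)
  filter_upwards [t1.eventually_ge_atTop 10, t2.eventually_ge_atTop (10 * (1 - Real.log θ)),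
    (t4.comp tp).eventually_ge_atTop 2, (t3.comp tp).eventually_ge_atTop 2,
    (t2.comp tp).eventually_ge_atTop 2, (t3.comp td).eventually_ge_atTop 2,
    (t4.comp td).eventually_ge_atTop 2, (t2.comp td).eventually_ge_atTop 2,
    eventually_ge_atTop 1] with N g1 g2 g3 g4 g5 g6 g7 g8 g9
  simp only [Function.comp] at g3 g4 g5 g6 g7 g8
  have hN0 : 0 < N := by linarith
  have hlz : Real.log (N ^ θ) = θ * Real.log N := Real.log_rpow hN0 θ
  have hl2 : Real.log (2 * N) = Real.log 2 + Real.log N := Real.log_mul (by norm_num) hN0.ne'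
  have hlog2 := Real.log_two_lt_d9
  have hlog2' := Real.log_two_gt_d9
  unfold L
  obtain ⟨A1, hA1⟩ : ∃ A1 : ℝ, A1 = Real.log (N ^ θ) := ⟨_, rfl⟩
  obtain ⟨B1, hB1⟩ : ∃ B1 : ℝ, B1 = Real.log (2 * N) := ⟨_, rfl⟩
  rw [← hA1] at g3 g4 g5 hlz ⊢
  rw [← hB1] at g6 g7 g8 hl2 ⊢
  have hB1N : B1 ≤ 2 * Real.log N := by linarith
  have hN1 : 0.9 * B1 ≤ Real.log N := by linarith
  have hB10 : 0 < B1 := by linarith
  have hA10 : 0 < A1 := by rw [hlz]; positivity
  obtain ⟨A2, hA2⟩ : ∃ A2 : ℝ, A2 = Real.log A1 := ⟨_, rfl⟩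
  obtain ⟨B2, hB2⟩ : ∃ B2 : ℝ, B2 = Real.log B1 := ⟨_, rfl⟩
  rw [← hA2] at g3 g4 g5 ⊢
  rw [← hB2] at g6 g7 g8 ⊢
  have c2 : 0.9 * B2 ≤ A2 := by
    have h1 : A2 = Real.log θ + Real.log (Real.log N) := by
      rw [hA2, hlz, Real.log_mul hθ.ne' (by linarith)]
    have h2 : B2 ≤ Real.log 2 + Real.log (Real.log N) := by
      rw [hB2, ← Real.log_mul (by norm_num) (by linarith)]
      exact Real.log_le_log hB10 hB1N
    linarith
  have c2' : A2 ≤ B2 := by
    rw [hA2, hB2]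
    apply Real.log_le_log hA10
    rw [hlz]
    nlinarith
  obtain ⟨A3, hA3⟩ : ∃ A3 : ℝ, A3 = Real.log A2 := ⟨_, rfl⟩
  obtain ⟨B3, hB3⟩ : ∃ B3 : ℝ, B3 = Real.log B2 := ⟨_, rfl⟩
  rw [← hA3] at g3 g4 ⊢
  rw [← hB3] at g6 g7 ⊢
  have h09 : -0.2 ≤ Real.log 0.9 := by
    have h1 : (0.9 : ℝ) = 1 / (10 / 9) := by norm_num
    rw [h1, one_div, Real.log_inv]
    have h2 : Real.log (10 / 9) ≤ 10 / 9 - 1 := Real.log_le_sub_one_of_pos (by norm_num)
    linarith
  have c3 : 0.9 * B3 ≤ A3 := by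
    have h1 : Real.log (0.9 * B2) ≤ A3 := by
      rw [hA3]
      exact Real.log_le_log (by positivity) c2
    rw [Real.log_mul (by norm_num) (by linarith), ← hB3] at h1
    linarith
  have c3' : A3 ≤ B3 := by
    rw [hA3, hB3]
    exact Real.log_le_log (by linarith) c2'
  have c4 : 0.9 * Real.log B3 ≤ Real.log A3 := by
    have h1 : Real.log (0.9 * B3) ≤ Real.log A3 := Real.log_le_log (by positivity) c3
    rw [Real.log_mul (by norm_num) (by linarith)] at h1
    linarith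
  have hA30 : 0 < A3 := by linarith
  have hB30 : 0 < B3 := by linarith
  have hA40 : 0 < Real.log A3 := by linarith
  have hB40 : 0 < Real.log B3 := by linarith
  have d1 : A1 * A2 ^ 2 * Real.log A3 / B3 ^ 2 ≤ A1 * A2 ^ 2 * Real.log A3 / A3 ^ 2 := by
    apply div_le_div_of_nonneg_left (by positivity) (by positivity)
    exact pow_le_pow_left₀ hA30.le c3' 2
  refine le_trans ?_ d1
  rw [← mul_div_assoc]
  apply div_le_div_of_nonneg_right _ (by positivity)
  have d2 : (0.9 * B2) ^ 2 ≤ A2 ^ 2 := pow_le_pow_left₀ (by positivity) c2 2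
  have d3 : θ * (0.9 * B1) ≤ A1 := by
    rw [hlz]
    exact mul_le_mul_of_nonneg_left hN1 hθ.le
  have d4 : θ * (0.9 * B1) * (0.9 * B2) ^ 2 ≤ A1 * A2 ^ 2 :=
    mul_le_mul d3 d2 (by positivity) hA10.le
  have d5 : θ * (0.9 * B1) * (0.9 * B2) ^ 2 * (0.9 * Real.log B3) ≤ A1 * A2 ^ 2 * Real.log A3 :=
    mul_le_mul d4 c4 (by positivity) (by positivity)
  refine le_trans ?_ d5
  have d6 : 0 ≤ θ * B1 * B2 ^ 2 * Real.log B3 := by positivity
  nlinarith

open Classical in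
/-- Many `n` with no prime within `c ε L(n)` of `n ^ 2`. -/
theorem many : ∃ c : ℝ, 0 < c ∧ ∀ ε : ℝ, 0 < ε → ε ≤ 1 → ∃ N₀ : ℕ, ∀ N : ℕ, N₀ ≤ N →
    (N : ℝ) ^ (1 - ε) ≤ (((Finset.Ioc N (2 * N)).filter (fun n : ℕ =>
      ∀ q : ℕ, q.Prime → c * ε * L n < |(q : ℝ) - (n : ℝ) ^ 2|)).card : ℝ) := by
  obtain ⟨c0, hc0, Z₀, hZ₀⟩ := Pool.Agent.H378R2.QG.main
  obtain ⟨x₁, hx₁⟩ := L_mono
  refine ⟨c0 / 4, by positivity, fun ε hε hε1 => ?_⟩
  obtain ⟨θ, hθ⟩ : ∃ θ : ℝ, θ = ε / 2 := ⟨_, rfl⟩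
  have hθ0 : 0 < θ := by rw [hθ]; positivity
  have hθ1 : θ ≤ 1 := by rw [hθ]; linarith
  have tn : Tendsto (fun N : ℕ => (N : ℝ)) atTop atTop := tendsto_natCast_atTop_atTop
  have tz : Tendsto (fun N : ℕ => (N : ℝ) ^ θ) atTop atTop := (tendsto_rpow_atTop hθ0).comp tn
  have ev : ∀ᶠ N : ℕ in atTop, (N : ℝ) ^ (1 - ε) ≤ (((Finset.Ioc N (2 * N)).filter (fun n : ℕ =>
      ∀ q : ℕ, q.Prime → c0 / 4 * ε * L n < |(q : ℝ) - (n : ℝ) ^ 2|)).card : ℝ) := by
    filter_upwards [tn.eventually (L_pow θ hθ0 hθ1), tz.eventually_ge_atTop (max Z₀ 4),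
      tn.eventually_ge_atTop (max x₁ 1)] with N g1 g2 g3
    have hN1 : (1 : ℝ) ≤ N := (le_max_right _ _).trans g3
    have hNx : x₁ ≤ N := (le_max_left _ _).trans g3
    have hN0 : (0 : ℝ) < N := by linarith
    obtain ⟨Z, hZ⟩ : ∃ Z : ℝ, Z = (N : ℝ) ^ θ := ⟨_, rfl⟩
    rw [← hZ] at g1 g2
    have hZZ : Z₀ ≤ Z := (le_max_left _ _).trans g2
    have hZ4 : 4 ≤ Z := (le_max_right _ _).trans g2
    have hZN : Z ≤ N := by
      rw [hZ]
      calc (N : ℝ) ^ θ ≤ (N : ℝ) ^ (1 : ℝ) := Real.rpow_le_rpow_of_exponent_le hN1 hθ1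
        _ = N := Real.rpow_one _
    obtain ⟨R, hR⟩ : ∃ R : ℕ, R = ⌊(N : ℝ) / Z⌋₊ := ⟨_, rfl⟩
    have hZ0 : 0 < Z := by linarith
    have hRle : (R : ℝ) * Z ≤ N := by
      have h1 : (R : ℝ) ≤ N / Z := by rw [hR]; exact Nat.floor_le (by positivity)
      rwa [le_div_iff₀ hZ0] at h1
    have hex : ∀ i ∈ Finset.range R, ∃ x : ℕ, (N : ℝ) + i * Z < x ∧ (x : ℝ) ≤ N + i * Z + Z ∧
        ∀ q : ℕ, q.Prime → c0 * L Z < |(q : ℝ) - (x : ℝ) ^ 2| := by
      intro i _
      exact hZ₀ Z hZZ (N + i * Z) (by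
        have : 0 ≤ (i : ℝ) * Z := by positivity
        linarith)
    choose! f hf1 hf2 hf3 using hex
    have hmaps : ∀ i ∈ Finset.range R, f i ∈ (Finset.Ioc N (2 * N)).filter (fun n : ℕ =>
        ∀ q : ℕ, q.Prime → c0 / 4 * ε * L n < |(q : ℝ) - (n : ℝ) ^ 2|) := by
      intro i hi
      have hiR : (i : ℝ) + 1 ≤ R := by exact_mod_cast Finset.mem_range.1 hi
      have k1 : (N : ℝ) < f i := by
        have h1 := hf1 i hi
        have : 0 ≤ (i : ℝ) * Z := by positivity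
        linarith
      have k2 : (f i : ℝ) ≤ 2 * N := by
        have h1 := hf2 i hi
        have h2 : ((i : ℝ) + 1) * Z ≤ R * Z := mul_le_mul_of_nonneg_right hiR hZ0.le
        linarith
      rw [Finset.mem_filter, Finset.mem_Ioc]
      refine ⟨⟨by exact_mod_cast k1, by exact_mod_cast k2⟩, fun q hq => ?_⟩
      refine lt_of_le_of_lt ?_ (hf3 i hi q hq)
      have h3 : L (f i) ≤ L (2 * N) := hx₁ _ _ (hNx.trans k1.le) k2
      have h4 : c0 / 4 * ε * L (f i) ≤ c0 / 4 * ε * L (2 * N) :=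
        mul_le_mul_of_nonneg_left h3 (by positivity)
      have h5 : c0 * (θ / 2 * L (2 * N)) ≤ c0 * L Z := mul_le_mul_of_nonneg_left g1 hc0.le
      have h6 : c0 * (θ / 2 * L (2 * N)) = c0 / 4 * ε * L (2 * N) := by rw [hθ]; ring
      linarith
    have hinj : Set.InjOn f (Finset.range R : Set ℕ) := by
      have key : ∀ i j : ℕ, i ∈ Finset.range R → j ∈ Finset.range R → i < j → f i ≠ f j := by
        intro i j hi hj hij h
        have h1 := hf2 i hi
        have h2 := hf1 j hj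
        rw [← h] at h2
        have h3 : (i : ℝ) + 1 ≤ j := by exact_mod_cast hij
        have h4 : ((i : ℝ) + 1) * Z ≤ j * Z := mul_le_mul_of_nonneg_right h3 hZ0.le
        linarith
      intro i hi j hj h
      rcases lt_trichotomy i j with hlt | heq | hlt
      · exact absurd h (key i j hi hj hlt)
      · exact heq
      · exact absurd h.symm (key j i hj hi hlt)
    have hcard : R ≤ ((Finset.Ioc N (2 * N)).filter (fun n : ℕ =>
        ∀ q : ℕ, q.Prime → c0 / 4 * ε * L n < |(q : ℝ) - (n : ℝ) ^ 2|)).card := by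
      have h1 := Finset.card_le_card_of_injOn f (fun i hi => hmaps i hi) hinj
      rwa [Finset.card_range] at h1
    have hcard' : (R : ℝ) ≤ (((Finset.Ioc N (2 * N)).filter (fun n : ℕ =>
        ∀ q : ℕ, q.Prime → c0 / 4 * ε * L n < |(q : ℝ) - (n : ℝ) ^ 2|)).card : ℝ) := by
      exact_mod_cast hcard
    refine le_trans ?_ hcard'
    have h1 : (N : ℝ) / Z - 1 < R := by
      rw [hR]
      have := Nat.lt_floor_add_one ((N : ℝ) / Z)
      linarith
    have h2 : (N : ℝ) / Z = (N : ℝ) ^ (1 - ε) * Z := by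
      rw [hZ, div_eq_iff (by positivity), mul_assoc, ← Real.rpow_add hN0, ← Real.rpow_add hN0]
      have : 1 - ε + (θ + θ) = 1 := by rw [hθ]; ring
      rw [this, Real.rpow_one]
    have h3 : 1 ≤ (N : ℝ) ^ (1 - ε) := Real.one_le_rpow hN1 (by linarith)
    rw [h2] at h1
    nlinarith
  exact eventually_atTop.1 ev

end Pool.Agent.H601R2.SqGap
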