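import Pool.Agent.H408R2.EHLow.LowerBoundLib

set_option autoImplicit false

namespace Pool.Agent.H601R2.SqLow

open Finset Filter Pool.Agent.H408R2.EHLow

lemma var_shift {ι : Type} [Fintype ι] (A : ι → ℝ) (c m φ : ℝ) (hφ : φ = Fintype.card ι) (h0 : 0 < φ) :
    ∑ b, (A b - m) ^ 2 ≤ ∑ b, (A b - c) ^ 2 + (∑ b, A b - φ * m) ^ 2 / φ := by
  have e : ∀ t : ℝ, ∑ b, (A b - t) ^ 2 = ∑ b, A b ^ 2 - 2 * t * ∑ b, A b + φ * t ^ 2 := by
    intro t
    have h1 : ∀ b, (A b - t) ^ 2 = A b ^ 2 - 2 * t * A b + t ^ 2 := fun b => by ring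
    rw [sum_congr rfl fun b _ => h1 b, sum_add_distrib, sum_sub_distrib, ← mul_sum, sum_const,
      card_univ, nsmul_eq_mul, hφ]
  rw [e m, e c]
  set S := ∑ b, A b
  have h2 : 0 ≤ (φ * c - S) ^ 2 / φ := by positivity
  have h3 : (S - φ * m) ^ 2 / φ = S ^ 2 / φ - 2 * m * S + φ * m ^ 2 := by
    field_simp
    ring
  have h4 : (φ * c - S) ^ 2 / φ = S ^ 2 / φ - 2 * c * S + φ * c ^ 2 := by
    field_simp
    ring
  rw [h4] at h2
  rw [h3]
  linarith

lemma sum_units (N q : ℕ) [NeZero q] :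
    ∑ b : (ZMod q)ˣ, (N34c950ba.primesInAPCount N q b : ℝ) =
      (((PP N).filter (fun p : ℕ => p.Coprime q)).card : ℝ) := by
  have h1 : ∀ b : (ZMod q)ˣ, (N34c950ba.primesInAPCount N q b : ℝ) =
      ∑ p ∈ PP N, if (p : ZMod q) = b then (1:ℝ) else 0 := by
    intro b
    rw [AP_eq, card_filter]
    push_cast
    rfl
  rw [sum_congr rfl fun b _ => h1 b, sum_comm, card_filter]
  push_cast
  apply sum_congr rfl
  intro p _
  split_ifs with h
  · have hu := ZMod.unitOfCoprime p h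
    rw [sum_eq_single (ZMod.unitOfCoprime p h)]
    · rw [if_pos]
      rw [ZMod.coe_unitOfCoprime]
    · intro b _ hb
      rw [if_neg]
      intro h2
      apply hb
      apply Units.ext
      rw [ZMod.coe_unitOfCoprime, h2]
    · intro h2
      exact absurd (mem_univ _) h2
  · apply sum_eq_zero
    intro b _
    rw [if_neg]
    intro h2
    apply h
    rw [← ZMod.isUnit_iff_coprime, h2]
    exact b.isUnit

lemma defect (N q : ℕ) [NeZero q] (hq : 1 ≤ q) (hqN : q ≤ N) :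
    (∑ b : (ZMod q)ˣ, (N34c950ba.primesInAPCount N q b : ℝ) - N.primeCounting) ^ 2 ≤
      4 * Real.log N ^ 2 := by
  rw [sum_units, ← PP_card]
  have h1 := card_filter_add_card_filter_not (s := PP N) (fun p : ℕ => p.Coprime q)
  have h2 : (PP N).filter (fun p : ℕ => ¬ p.Coprime q) ⊆ q.primeFactors := by
    intro p hp
    unfold PP at hp
    rw [mem_filter, mem_filter] at hp
    rw [Nat.mem_primeFactors]
    refine ⟨hp.1.2, ?_, by omega⟩
    by_contra hcon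
    exact hp.2 ((Nat.Prime.coprime_iff_not_dvd hp.1.2).mpr hcon)
  have h3 := card_le_card h2
  have h4 : 2 ^ q.primeFactors.card ≤ q := by
    calc 2 ^ q.primeFactors.card ≤ ∏ p ∈ q.primeFactors, p :=
          pow_card_le_prod _ _ _ fun p hp => (Nat.prime_of_mem_primeFactors hp).two_le
      _ ≤ q := Nat.le_of_dvd (by omega) (Nat.prod_primeFactors_dvd q)
  have h5 : (q.primeFactors.card : ℝ) * Real.log 2 ≤ Real.log N := by
    rw [← Real.log_pow]
    apply Real.log_le_log (by positivity)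
    have : 2 ^ q.primeFactors.card ≤ N := h4.trans hqN
    exact_mod_cast this
  have hl2 := Real.log_two_gt_d9
  have h6 : (((PP N).filter (fun p : ℕ => ¬ p.Coprime q)).card : ℝ) ≤ q.primeFactors.card := by
    exact_mod_cast h3
  have h7 : (((PP N).filter (fun p : ℕ => p.Coprime q)).card : ℝ) +
      ((PP N).filter (fun p : ℕ => ¬ p.Coprime q)).card = (PP N).card := by exact_mod_cast h1
  have h8 : (0:ℝ) ≤ q.primeFactors.card := Nat.cast_nonneg _
  have h9 : (((PP N).filter (fun p : ℕ => p.Coprime q)).card : ℝ) - (PP N).card =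
      -((PP N).filter (fun p : ℕ => ¬ p.Coprime q)).card := by linarith
  rw [h9, neg_sq]
  have h10 : (((PP N).filter (fun p : ℕ => ¬ p.Coprime q)).card : ℝ) ≤ 2 * Real.log N := by
    nlinarith
  calc (((PP N).filter (fun p : ℕ => ¬ p.Coprime q)).card : ℝ) ^ 2 ≤ (2 * Real.log N) ^ 2 :=
        pow_le_pow_left₀ (Nat.cast_nonneg _) h10 2
    _ = _ := by ring

lemma log_small (η : ℝ) (hη1 : η < 1) : ∀ᶠ N : ℕ in atTop,
    4 * Real.log N ^ 2 ≤ (N:ℝ) ^ (1 - η) / 2 := by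
  have hr : 0 < (1 - η) / 2 := by linarith
  have h1 := (isLittleO_log_rpow_atTop hr).bound (by norm_num : (0:ℝ) < 1 / 4)
  have h2 := tendsto_natCast_atTop_atTop (R := ℝ) |>.eventually h1
  filter_upwards [h2, eventually_ge_atTop 1] with N hN hN1
  have hN1' : (1:ℝ) ≤ N := by exact_mod_cast hN1
  have hN0 : (0:ℝ) < N := by linarith
  rw [Real.norm_eq_abs, Real.norm_eq_abs, abs_of_nonneg (Real.log_nonneg hN1'),
    abs_of_nonneg (Real.rpow_nonneg hN0.le _)] at hN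
  have h3 : Real.log N ^ 2 ≤ (1 / 4 * (N:ℝ) ^ ((1 - η) / 2)) ^ 2 :=
    pow_le_pow_left₀ (Real.log_nonneg hN1') hN 2
  have h4 : ((N:ℝ) ^ ((1 - η) / 2)) ^ 2 = (N:ℝ) ^ (1 - η) := by
    rw [← Real.rpow_natCast, ← Real.rpow_mul hN0.le]
    congr 1
    push_cast
    ring
  rw [mul_pow, h4] at h3
  have h5 := Real.rpow_nonneg hN0.le (1 - η)
  linarith

theorem low (η : ℝ) (hη : 0 < η) (hη1 : η < 1) : ∀ᶠ N : ℕ in atTop, ∀ (c M : ℕ → ℝ),
    (∀ q, 1 ≤ q → ∀ b : (ZMod q)ˣ, |(N34c950ba.primesInAPCount N q b : ℝ) - c q| ≤ M q) →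
    ∑ q ∈ (Icc 1 N).filter (fun q : ℕ => 2 * q * M q ^ 2 < (N:ℝ) ^ (1 - η)), (q:ℝ) ≤ (N:ℝ) ^ (1 + η) := by
  filter_upwards [Pool.Agent.H408R2.EHLow.LowerBoundLib.base η hη, log_small η hη1] with N hb hl
  intro c M hM
  apply hb
  · intro q hq
    exact mem_Icc.mp (mem_filter.mp hq).1
  · intro q hq inst
    obtain ⟨h1, h2⟩ := mem_filter.mp hq
    rw [mem_Icc] at h1
    have hφ0 : (0:ℝ) < Nat.totient q := by exact_mod_cast Nat.totient_pos.mpr (by omega)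
    have hφ1 : (1:ℝ) ≤ Nat.totient q := by exact_mod_cast Nat.totient_pos.mpr (by omega)
    have h3 := var_shift (fun b : (ZMod q)ˣ => (N34c950ba.primesInAPCount N q b : ℝ)) (c q)
      ((N.primeCounting : ℝ) / (q.totient : ℝ)) (Nat.totient q)
      (by rw [ZMod.card_units_eq_totient]) hφ0
    unfold Vr
    refine h3.trans ?_
    have h4 : ∑ b : (ZMod q)ˣ, ((N34c950ba.primesInAPCount N q b : ℝ) - c q) ^ 2 ≤ q * M q ^ 2 := by
      calc ∑ b : (ZMod q)ˣ, ((N34c950ba.primesInAPCount N q b : ℝ) - c q) ^ 2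
          ≤ ∑ _b : (ZMod q)ˣ, M q ^ 2 := by
            apply sum_le_sum
            intro b _
            rw [← sq_abs]
            exact pow_le_pow_left₀ (abs_nonneg _) (hM q h1.1 b) 2
        _ = (q.totient : ℝ) * M q ^ 2 := by
            rw [sum_const, card_univ, ZMod.card_units_eq_totient, nsmul_eq_mul]
        _ ≤ _ := by
            apply mul_le_mul_of_nonneg_right _ (sq_nonneg _)
            exact_mod_cast Nat.totient_le q
    have h5 := defect N q h1.1 h1.2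
    have h6 : (Nat.totient q : ℝ) * ((N.primeCounting : ℝ) / (q.totient : ℝ)) = N.primeCounting := by
      field_simp
    rw [h6]
    have h7 : (∑ b : (ZMod q)ˣ, (N34c950ba.primesInAPCount N q b : ℝ) - N.primeCounting) ^ 2 /
        (Nat.totient q : ℝ) ≤ 4 * Real.log N ^ 2 :=
      (div_le_self (sq_nonneg _) hφ1).trans h5
    linarith

lemma sum_inv_sq (n : ℕ) (hn : 1 ≤ n) : ∑ k ∈ Icc 2 n, (1:ℝ) / k ^ 2 ≤ 3 / 4 := by
  have h : ∀ m : ℕ, ∑ k ∈ Icc 2 (m + 2), (1:ℝ) / k ^ 2 ≤ 3 / 4 - 1 / (m + 2) := by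
    intro m
    induction m with
    | zero => norm_num
    | succ m ih =>
      rw [sum_Icc_succ_top (by omega)]
      have h1 : (1:ℝ) / ((m + 1 + 2 : ℕ) : ℝ) ^ 2 ≤ 1 / (m + 2) - 1 / (m + 3) := by
        have h2 : (1:ℝ) / (m + 2) - 1 / (m + 3) = 1 / ((m + 2) * (m + 3)) := by
          field_simp
          ring
        rw [h2]
        apply one_div_le_one_div_of_le (by positivity)
        push_cast
        nlinarith
      have h3 : ((m + 1 + 2 : ℕ) : ℝ) = m + 3 := by push_cast; ring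
      have h4 : ((m + 2 + 1 : ℕ) : ℝ) = m + 3 := by push_cast; ring
      have h5 : ((m + 1 : ℕ) : ℝ) + 2 = m + 3 := by push_cast; ring
      rw [h3] at h1
      rw [h4, h5]
      linarith
  rcases Nat.lt_or_ge n 2 with h1 | h1
  · have : n = 1 := by omega
    subst this
    norm_num
  · obtain ⟨m, rfl⟩ := Nat.exists_eq_add_of_le h1
    rw [add_comm 2 m]
    refine (h m).trans ?_
    have : (0:ℝ) ≤ 1 / (m + 2) := by positivity
    linarith

lemma sqfree_count (K : ℕ) : (K:ℝ) / 4 ≤ (((Icc 1 K).filter (fun n => Squarefree n)).card : ℝ) := by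
  rcases Nat.eq_zero_or_pos K with hK | hK
  · subst hK; simp
  have h1 := card_filter_add_card_filter_not (s := Icc 1 K) (fun n : ℕ => Squarefree n)
  have h2 : (Icc 1 K).filter (fun n : ℕ => ¬ Squarefree n) ⊆
      (Icc 2 K).biUnion (fun k => (Ioc 0 K).filter (fun n => k ^ 2 ∣ n)) := by
    intro n hn
    rw [mem_filter, mem_Icc] at hn
    rw [mem_biUnion]
    obtain ⟨⟨hn1, hnK⟩, hns⟩ := hn
    rw [Nat.squarefree_iff_prime_squarefree] at hns
    push Not at hns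
    obtain ⟨p, hp, hpn⟩ := hns
    have hp2 := hp.two_le
    have hle : p * p ≤ n := Nat.le_of_dvd (by omega) hpn
    refine ⟨p, ?_, ?_⟩
    · rw [mem_Icc]
      refine ⟨hp2, ?_⟩
      nlinarith
    · rw [mem_filter, mem_Ioc]
      exact ⟨⟨by omega, hnK⟩, by rwa [pow_two]⟩
  have h3 : (((Icc 1 K).filter (fun n : ℕ => ¬ Squarefree n)).card : ℝ) ≤ K * (3 / 4) := by
    calc (((Icc 1 K).filter (fun n : ℕ => ¬ Squarefree n)).card : ℝ)
        ≤ ∑ k ∈ Icc 2 K, (((Ioc 0 K).filter (fun n => k ^ 2 ∣ n)).card : ℝ) := by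
          exact_mod_cast (card_le_card h2).trans card_biUnion_le
      _ ≤ ∑ k ∈ Icc 2 K, (K:ℝ) * (1 / k ^ 2) := by
          apply sum_le_sum
          intro k hk
          rw [Nat.Ioc_filter_dvd_card_eq_div]
          refine Nat.cast_div_le.trans ?_
          push_cast
          rw [div_eq_mul_one_div]
      _ = K * ∑ k ∈ Icc 2 K, (1:ℝ) / k ^ 2 := by rw [mul_sum]
      _ ≤ _ := mul_le_mul_of_nonneg_left (sum_inv_sq K hK) (Nat.cast_nonneg _)
  have h4 : (((Icc 1 K).filter (fun n : ℕ => Squarefree n)).card : ℝ) +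
      ((Icc 1 K).filter (fun n : ℕ => ¬ Squarefree n)).card = K := by
    have h5 : (Icc 1 K).card = K := by simp
    rw [h5] at h1
    exact_mod_cast h1
  linarith

theorem lower (ε : ℝ) (hε : 0 < ε) : ∀ᶠ x : ℝ in atTop, ∀ Q : ℝ, x ^ (1/2 + ε) ≤ Q → Q ≤ x →
    ∀ (c M : ℕ → ℝ), (∀ q, 0 ≤ M q) →
    (∀ q, 1 ≤ q → ∀ b : (ZMod q)ˣ, |(N34c950ba.primesInAPCount ⌊x⌋₊ q b : ℝ) - c q| ≤ M q) →
    x ^ (-ε) * Real.sqrt (x * Q) ≤ ∑ q ∈ (Icc 1 ⌊Q⌋₊).filter (fun n => Squarefree n), M q := by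
  obtain ⟨η, hη⟩ : ∃ η : ℝ, η = min ε (1/2) := ⟨_, rfl⟩
  have hη0 : 0 < η := by rw [hη]; positivity
  have hηε : η ≤ ε := by rw [hη]; exact min_le_left _ _
  have hη1 : η < 1 := by
    have : η ≤ 1/2 := by rw [hη]; exact min_le_right _ _
    linarith
  have e1 : ∀ᶠ x : ℝ in atTop, (2048:ℝ) ≤ x ^ ε :=
    (tendsto_rpow_atTop hε).eventually (eventually_ge_atTop 2048)
  have e2 := tendsto_nat_floor_atTop (α := ℝ) |>.eventually (low η hη0 hη1)
  filter_upwards [e1, e2, eventually_ge_atTop 2] with x hx1 hx2 hx3 Q hQ1 hQx c M hM0 hM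
  have hx0 : 0 < x := by linarith
  have hx1' : 1 ≤ x := by linarith
  have hlow := hx2 c M hM
  obtain ⟨N, hN⟩ : ∃ N : ℕ, N = ⌊x⌋₊ := ⟨_, rfl⟩
  obtain ⟨K, hK⟩ : ∃ K : ℕ, K = ⌊Q⌋₊ := ⟨_, rfl⟩
  rw [← hN] at hlow
  rw [← hK]
  have hQone : 1 ≤ Q := by
    refine le_trans ?_ hQ1
    exact Real.one_le_rpow hx1' (by linarith)
  have hQ0 : 0 < Q := by linarith
  have hNx : (N:ℝ) ≤ x := by rw [hN]; exact Nat.floor_le hx0.le
  have hNx2 : x / 2 ≤ N := by
    have := Nat.lt_floor_add_one x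
    rw [← hN] at this
    linarith
  have hKQ : (K:ℝ) ≤ Q := by rw [hK]; exact Nat.floor_le hQ0.le
  have hKN : K ≤ N := by rw [hK, hN]; exact Nat.floor_le_floor hQx
  have hKQ2 : Q / 2 ≤ K := by
    have h1 := Nat.lt_floor_add_one Q
    rw [← hK] at h1
    have h2 : 1 ≤ K := by rw [hK]; exact Nat.le_floor (by exact_mod_cast hQone)
    have h3 : (1:ℝ) ≤ K := by exact_mod_cast h2
    linarith
  have hK0 : (0:ℝ) < K := by linarith
  have hN0 : (0:ℝ) < N := by linarith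
  -- size of K
  have hKK : 128 * (N:ℝ) ^ (1 + η) ≤ (K:ℝ) ^ 2 := by
    have h1 : (N:ℝ) ^ (1 + η) ≤ x ^ (1 + η) := Real.rpow_le_rpow hN0.le hNx (by linarith)
    have h2 : x ^ (1 + η) ≤ x ^ (1 + ε) := Real.rpow_le_rpow_of_exponent_le hx1' (by linarith)
    have h3 : (x ^ (1/2 + ε)) ^ 2 = x ^ (1 + ε) * x ^ ε := by
      rw [← Real.rpow_add hx0, ← Real.rpow_natCast, ← Real.rpow_mul hx0.le]
      congr 1
      push_cast
      ring
    have h4 : (x ^ (1/2 + ε)) ^ 2 ≤ Q ^ 2 := pow_le_pow_left₀ (Real.rpow_nonneg hx0.le _) hQ1 2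
    have h5 : (Q / 2) ^ 2 ≤ (K:ℝ) ^ 2 := pow_le_pow_left₀ (by positivity) hKQ2 2
    have h6 : 0 ≤ x ^ (1 + ε) := Real.rpow_nonneg hx0.le _
    have h7 : x ^ (1 + ε) * 2048 ≤ x ^ (1 + ε) * x ^ ε := mul_le_mul_of_nonneg_left hx1 h6
    rw [h3] at h4
    nlinarith
  -- the good moduli
  obtain ⟨Ex, hEx⟩ : ∃ Ex : Finset ℕ, Ex = (Icc 1 N).filter
    (fun q : ℕ => 2 * q * M q ^ 2 < (N:ℝ) ^ (1 - η)) := ⟨_, rfl⟩
  rw [← hEx] at hlow
  obtain ⟨T, hT⟩ : ∃ T : Finset ℕ, T = ((Icc 1 K).filter (fun n => Squarefree n)).filter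
    (fun n : ℕ => (K:ℝ) / 8 < n ∧ n ∉ Ex) := ⟨_, rfl⟩
  have hTcard : (K:ℝ) / 16 ≤ T.card := by
    have h1 := sqfree_count K
    have h2 : (Icc 1 K).filter (fun n => Squarefree n) ⊆ T ∪ (Icc 1 (K / 8) ∪
        Ex.filter (fun n : ℕ => (K:ℝ) / 8 < n)) := by
      intro n hn
      rw [mem_union, mem_union]
      by_cases hn1 : (K:ℝ) / 8 < n
      · by_cases hn2 : n ∈ Ex
        · right; right; exact mem_filter.mpr ⟨hn2, hn1⟩
        · left; rw [hT]; exact mem_filter.mpr ⟨hn, hn1, hn2⟩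
      · right; left
        push Not at hn1
        rw [mem_filter, mem_Icc] at hn
        rw [mem_Icc]
        refine ⟨hn.1.1, ?_⟩
        rw [Nat.le_div_iff_mul_le (by norm_num)]
        have : (n:ℝ) * 8 ≤ K := by linarith
        exact_mod_cast this
    have h3 : (((Icc 1 K).filter (fun n => Squarefree n)).card : ℝ) ≤ T.card + ((K / 8 : ℕ) +
        (Ex.filter (fun n : ℕ => (K:ℝ) / 8 < n)).card) := by
      have h4 := (card_le_card h2).trans ((card_union_le _ _).trans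
        (Nat.add_le_add_left (card_union_le _ _) _))
      rw [Nat.card_Icc, Nat.add_sub_cancel] at h4
      exact_mod_cast h4
    have h5 : ((K / 8 : ℕ) : ℝ) ≤ K / 8 := by
      have := @Nat.cast_div_le ℝ _ _ _ K 8
      simpa using this
    have h6 : ((Ex.filter (fun n : ℕ => (K:ℝ) / 8 < n)).card : ℝ) * (K / 8) ≤ (N:ℝ) ^ (1 + η) := by
      calc ((Ex.filter (fun n : ℕ => (K:ℝ) / 8 < n)).card : ℝ) * (K / 8)
          = ∑ _n ∈ Ex.filter (fun n : ℕ => (K:ℝ) / 8 < n), (K:ℝ) / 8 := by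
            rw [sum_const, nsmul_eq_mul]
        _ ≤ ∑ n ∈ Ex.filter (fun n : ℕ => (K:ℝ) / 8 < n), (n:ℝ) := by
            apply sum_le_sum
            intro n hn
            exact (mem_filter.mp hn).2.le
        _ ≤ ∑ n ∈ Ex, (n:ℝ) := by
            apply sum_le_sum_of_subset_of_nonneg (filter_subset _ _)
            intro n _ _; positivity
        _ ≤ _ := hlow
    have h7 : ((Ex.filter (fun n : ℕ => (K:ℝ) / 8 < n)).card : ℝ) ≤ K / 16 := by
      by_contra hcon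
      push Not at hcon
      nlinarith
    linarith
  have hTM : ∀ n ∈ T, Real.sqrt ((N:ℝ) ^ (1 - η) / (2 * K)) ≤ M n := by
    intro n hn
    rw [hT, mem_filter, mem_filter, mem_Icc] at hn
    obtain ⟨⟨⟨hn1, hnK⟩, hns⟩, hn8, hnE⟩ := hn
    have hn0 : (0:ℝ) < n := by exact_mod_cast hn1
    have hnK' : (n:ℝ) ≤ K := by exact_mod_cast hnK
    rw [Real.sqrt_le_left (hM0 n)]
    by_contra hcon
    push Not at hcon
    apply hnE
    rw [hEx, mem_filter, mem_Icc]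
    refine ⟨⟨hn1, hnK.trans hKN⟩, ?_⟩
    rw [lt_div_iff₀ (by positivity)] at hcon
    have h1 : 2 * n * M n ^ 2 ≤ M n ^ 2 * (2 * K) := by
      have := sq_nonneg (M n)
      nlinarith
    linarith
  have hsum : (K:ℝ) / 16 * Real.sqrt ((N:ℝ) ^ (1 - η) / (2 * K)) ≤
      ∑ q ∈ (Icc 1 K).filter (fun n => Squarefree n), M q := by
    calc (K:ℝ) / 16 * Real.sqrt ((N:ℝ) ^ (1 - η) / (2 * K))
        ≤ (T.card : ℝ) * Real.sqrt ((N:ℝ) ^ (1 - η) / (2 * K)) :=
          mul_le_mul_of_nonneg_right hTcard (Real.sqrt_nonneg _)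
      _ = ∑ _n ∈ T, Real.sqrt ((N:ℝ) ^ (1 - η) / (2 * K)) := by rw [sum_const, nsmul_eq_mul]
      _ ≤ ∑ n ∈ T, M n := sum_le_sum hTM
      _ ≤ _ := by
          apply sum_le_sum_of_subset_of_nonneg
          · rw [hT]; exact filter_subset _ _
          · intro n _ _; exact hM0 n
  refine le_trans ?_ hsum
  -- numerical comparison
  have hlhs : x ^ (-ε) * Real.sqrt (x * Q) = Real.sqrt ((x ^ (-ε)) ^ 2 * (x * Q)) := by
    rw [Real.sqrt_mul (sq_nonneg _), Real.sqrt_sq (Real.rpow_nonneg hx0.le _)]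
  have hrhs : (K:ℝ) / 16 * Real.sqrt ((N:ℝ) ^ (1 - η) / (2 * K)) =
      Real.sqrt (((K:ℝ) / 16) ^ 2 * ((N:ℝ) ^ (1 - η) / (2 * K))) := by
    rw [Real.sqrt_mul (sq_nonneg _), Real.sqrt_sq (by positivity)]
  rw [hlhs, hrhs]
  apply Real.sqrt_le_sqrt
  have h1 : ((K:ℝ) / 16) ^ 2 * ((N:ℝ) ^ (1 - η) / (2 * K)) = K * (N:ℝ) ^ (1 - η) / 512 := by
    field_simp
    norm_num
  rw [h1]
  have h2 : x ^ (1 - η) / 2 ≤ (N:ℝ) ^ (1 - η) := by
    have h3 : (x / 2) ^ (1 - η) ≤ (N:ℝ) ^ (1 - η) := Real.rpow_le_rpow (by positivity) hNx2 (by linarith)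
    have h4 : (x / 2) ^ (1 - η) = x ^ (1 - η) / 2 ^ (1 - η) := Real.div_rpow hx0.le (by norm_num) _
    have h5 : (2:ℝ) ^ (1 - η) ≤ 2 := by
      have := Real.rpow_le_rpow_of_exponent_le (by norm_num : (1:ℝ) ≤ 2) (by linarith : 1 - η ≤ 1)
      simpa using this
    have h6 : 0 < (2:ℝ) ^ (1 - η) := by positivity
    have h7 : x ^ (1 - η) / 2 ≤ x ^ (1 - η) / 2 ^ (1 - η) :=
      div_le_div_of_nonneg_left (Real.rpow_nonneg hx0.le _) h6 h5
    linarith
  have h8 : (x ^ (-ε)) ^ 2 * x * 2048 ≤ x ^ (1 - η) := by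
    have h9 : (x ^ (-ε)) ^ 2 * x = x ^ (1 - 2 * ε) := by
      rw [← Real.rpow_natCast, ← Real.rpow_mul hx0.le]
      nth_rewrite 2 [← Real.rpow_one x]
      rw [← Real.rpow_add hx0]
      congr 1
      push_cast
      ring
    rw [h9]
    calc x ^ (1 - 2 * ε) * 2048 ≤ x ^ (1 - 2 * ε) * x ^ ε :=
          mul_le_mul_of_nonneg_left hx1 (Real.rpow_nonneg hx0.le _)
      _ = x ^ (1 - ε) := by rw [← Real.rpow_add hx0]; congr 1; ring
      _ ≤ x ^ (1 - η) := Real.rpow_le_rpow_of_exponent_le hx1' (by linarith)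
  have h10 : 0 ≤ x ^ (1 - η) := Real.rpow_nonneg hx0.le _
  calc (x ^ (-ε)) ^ 2 * (x * Q) = ((x ^ (-ε)) ^ 2 * x * 2048) * Q / 2048 := by ring
    _ ≤ x ^ (1 - η) * Q / 2048 := by gcongr
    _ = (Q / 2) * (x ^ (1 - η) / 2) / 512 := by ring
    _ ≤ K * (N:ℝ) ^ (1 - η) / 512 := by gcongr

end Pool.Agent.H601R2.SqLow
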