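import Pool.Agent.H378R2.QG.Main
import Pool.Agent.H305R2.MertensE
import Pool.Agent.H601R2.SqGap

set_option autoImplicit false
set_option linter.unusedSectionVars false

/-! Squares in long prime gaps whose root has a small totient. -/

namespace Pool.Agent.H601R2.SqTot

open Finset Filter
open Pool.Agent.H378R2.QG
open Pool.Agent.H256R2.SC (ff)
open Pool.Agent.H256R2.SC.LG (ana exists_crt count_Ioc)

section

open scoped Classical

/-- `Pool.Agent.H378R2.QG.main` (helper378), keeping the divisibility by the medium primes -/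
theorem main' : ∃ c : ℝ, 0 < c ∧ ∃ Z₀ : ℝ, ∀ Z : ℝ, Z₀ ≤ Z → ∀ M : ℝ, Z ≤ M →
    ∃ x : ℕ, M < x ∧ (x : ℝ) ≤ M + Z ∧ (∀ p : ℕ, p.Prime → w0 (Real.log Z / 10) < p →
      (p : ℝ) ≤ Real.log Z / 10 → p ∣ x) ∧
      ∀ q : ℕ, q.Prime → c * ff Z < |(q : ℝ) - (x : ℝ) ^ 2| := by
  obtain ⟨c₁, hc₁, X₁, hcov⟩ := qcov
  obtain ⟨C, hC, y₀, hsur⟩ := survivors
  obtain ⟨c, hc, X₂, hana⟩ := ana (y₀ := y₀) hc₁ hC
  obtain ⟨X₃, hev⟩ := ev_pow
  refine ⟨c, hc, max (max X₁ X₂) X₃, fun Z hZ M hM => ?_⟩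
  obtain ⟨R, hR⟩ : ∃ R : ℕ, R = ⌊c * ff Z⌋₊ := ⟨_, rfl⟩
  obtain ⟨L, hL⟩ : ∃ L : ℝ, L = Real.log Z := ⟨_, rfl⟩
  obtain ⟨y, hy⟩ : ∃ y : ℝ, y = Real.log Z / 10 := ⟨_, rfl⟩
  obtain ⟨a1, a2, a3, a4, a5, a6, a7, a8, a9, a10, a11, a12, a13, a14, a15, a16, a17⟩ :=
    hana Z (((le_max_right _ _).trans (le_max_left _ _)).trans hZ) y _ hy rfl R hR
  obtain ⟨b1, b2, b3, b4⟩ := hev Z ((le_max_right _ _).trans hZ)
  have hcovZ := hcov Z (((le_max_left _ _).trans (le_max_left _ _)).trans hZ)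
  have hs := hsur y a3 R a5 a7
  rw [← hL] at b1 b3
  have hZ0 : 0 < Z := by linarith
  have hRL : (R : ℝ) ≤ L ^ 2 := by rw [hL]; exact a9
  have hZ1000 : 10000 ≤ Z := by nlinarith
  have hLZ : 100 * L ^ 2 ≤ Z := b3
  -- the small primes
  obtain ⟨P, hP⟩ : ∃ P : ℕ, P = primorial ⌊y⌋₊ := ⟨_, rfl⟩
  have hP0 : 0 < P := by rw [hP]; exact primorial_pos _
  obtain ⟨b0, hb0, hb0'⟩ := exists_crt ⌊y⌋₊ (cl y)
  -- the survivors
  obtain ⟨S, hS⟩ : ∃ S : Finset ℤ, S = ((Finset.Icc (-(R : ℤ)) R).filter (fun h => h ≠ 0 ∧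
      ∀ p : ℕ, p.Prime → (p : ℝ) ≤ y → ¬ ((p : ℤ) ∣ (cl y p : ℤ) ^ 2 + h))).filter
        (fun h => ¬ IsSquare (-h)) := ⟨_, rfl⟩
  have hScard : (S.card : ℝ) ≤ c₁ * Real.log Z := by
    refine le_trans ?_ (hs.trans a8)
    rw [hS]
    exact_mod_cast Finset.card_filter_le _ _
  have hSb : ∀ h ∈ S, |(h : ℝ)| ≤ (Real.log Z) ^ (11 / 10 : ℝ) ∧ ¬ IsSquare (-h) := by
    intro h hh
    rw [hS, Finset.mem_filter, Finset.mem_filter, Finset.mem_Icc] at hh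
    refine ⟨?_, hh.2⟩
    have h1 : |h| ≤ (R : ℤ) := abs_le.mpr hh.1.1
    have h2 : |(h : ℝ)| ≤ (R : ℝ) := by exact_mod_cast h1
    refine h2.trans (a7.trans ?_)
    rw [hy]
    exact b2
  -- the set of the `x`
  obtain ⟨A, hA⟩ : ∃ A : ℤ, A = ⌊M⌋ := ⟨_, rfl⟩
  obtain ⟨B, hB⟩ : ∃ B : ℤ, B = ⌊M + Z⌋ := ⟨_, rfl⟩
  have hAB : A ≤ B := by rw [hA, hB]; exact Int.floor_mono (by linarith)
  have hA1 : (A : ℝ) ≤ M := by rw [hA]; exact Int.floor_le _
  have hA2 : M < (A : ℝ) + 1 := by rw [hA]; exact Int.lt_floor_add_one _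
  have hB1 : (B : ℝ) ≤ M + Z := by rw [hB]; exact Int.floor_le _
  have hB2 : M + Z < (B : ℝ) + 1 := by rw [hB]; exact Int.lt_floor_add_one _
  have hPR : (0 : ℝ) < P := by exact_mod_cast hP0
  rw [← hP] at a11
  have hN : Z ^ (1 / 2 : ℝ) ≤ ((B : ℝ) - A) / P := by
    rw [le_div_iff₀ hPR]
    have h1 : Z ^ (1 / 2 : ℝ) * Z ^ (1 / 2 : ℝ) = Z := by
      rw [← Real.rpow_add hZ0]; norm_num
    have h2 : 0 < Z ^ (1 / 2 : ℝ) := Real.rpow_pos_of_pos hZ0 _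
    have h3 : Z ^ (1 / 2 : ℝ) * (4 * (P : ℝ)) ≤ Z := by
      calc Z ^ (1 / 2 : ℝ) * (4 * (P : ℝ)) ≤ Z ^ (1 / 2 : ℝ) * Z ^ (1 / 2 : ℝ) :=
            mul_le_mul_of_nonneg_left a11 h2.le
        _ = Z := h1
    nlinarith
  obtain ⟨x, hx, hxS⟩ := hcovZ S hSb hScard ((Ioc A B).filter (fun x => (P : ℤ) ∣ x - b0))
    (((B : ℝ) - A) / P) 1 hN zero_le_one b4 (fun q hq1 hq2 hq3 r => by
      have hq0 : 0 < q := Nat.pos_of_ne_zero hq1.ne_zero
      have hcop : Nat.Coprime P q := by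
        rw [Nat.coprime_iff_gcd_eq_one]
        by_contra hne
        obtain ⟨p, hp, hpd⟩ := Nat.exists_prime_and_dvd hne
        have h1 : p ∣ P := hpd.trans (Nat.gcd_dvd_left _ _)
        have h2 : p ∣ q := hpd.trans (Nat.gcd_dvd_right _ _)
        have h3 := hq3 p (Nat.mem_primeFactors.mpr ⟨hp, h2, hq0.ne'⟩)
        rw [hP, primorial] at h1
        rw [Prime.dvd_finsetProd_iff hp.prime] at h1
        obtain ⟨p', hp', hpp'⟩ := h1
        rw [Finset.mem_filter, Finset.mem_range] at hp'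
        have h4 : p = p' := (Nat.prime_dvd_prime_iff_eq hp hp'.2).1 hpp'
        have h5 : (p : ℝ) ≤ y := by
          have : p ≤ ⌊y⌋₊ := by omega
          calc (p : ℝ) ≤ (⌊y⌋₊ : ℝ) := by exact_mod_cast this
            _ ≤ y := Nat.floor_le a4
        linarith
      exact count_two A B hAB P q hP0 hq0 hcop b0 r)
  rw [Finset.mem_filter, Finset.mem_Ioc] at hx
  obtain ⟨⟨hx1, hx2⟩, hx3⟩ := hx
  have hxM : M < (x : ℝ) := by
    have : (A : ℝ) + 1 ≤ x := by exact_mod_cast hx1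
    linarith
  have hxZ : (x : ℝ) ≤ M + Z := by
    have : (x : ℝ) ≤ B := by exact_mod_cast hx2
    linarith
  have hx0 : 0 ≤ x := by
    have : (0 : ℝ) < x := by linarith
    exact_mod_cast this.le
  obtain ⟨n, rfl⟩ := Int.eq_ofNat_of_zero_le hx0
  simp only [Int.ofNat_eq_natCast, Int.cast_natCast] at hxM hxZ hx3 hxS
  have hdivP : ∀ p : ℕ, p.Prime → (p : ℝ) ≤ y → (p : ℤ) ∣ (n : ℤ) - (cl y p : ℤ) := by
    intro p hp1 hp2
    have hpy : p ≤ ⌊y⌋₊ := Nat.le_floor hp2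
    have hpP : (p : ℤ) ∣ (P : ℤ) := by
      rw [hP, primorial]
      have : p ∈ (Finset.range (⌊y⌋₊ + 1)).filter Nat.Prime := by
        rw [Finset.mem_filter, Finset.mem_range]
        exact ⟨by omega, hp1⟩
      exact_mod_cast Finset.dvd_prod_of_mem _ this
    have h1 : (p : ℤ) ∣ (n : ℤ) - b0 := hpP.trans hx3
    have h2 : (p : ℤ) ∣ (b0 : ℤ) - (cl y p : ℤ) := by
      have := hb0' p hp1 hpy
      exact (Nat.modEq_iff_dvd.mp this.symm)
    have := dvd_add h1 h2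
    have e : (n : ℤ) - b0 + ((b0 : ℤ) - (cl y p : ℤ)) = (n : ℤ) - (cl y p : ℤ) := by ring
    rwa [e] at this
  refine ⟨n, hxM, hxZ, fun p hp hw hpy => ?_, fun q hq => ?_⟩
  · rw [← hy] at hw hpy
    have h1 := hdivP p hp hpy
    unfold cl at h1
    rw [if_neg (not_le.2 hw)] at h1
    simp only [Nat.cast_zero, sub_zero] at h1
    exact_mod_cast h1
  by_contra hcon
  push Not at hcon
  -- the shift
  obtain ⟨h, hh⟩ : ∃ h : ℤ, h = (q : ℤ) - (n : ℤ) ^ 2 := ⟨_, rfl⟩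
  have hhR : |(h : ℝ)| ≤ c * ff Z := by rw [hh]; push_cast; exact hcon
  have hhR' : |h| ≤ (R : ℤ) := by
    have h1 : (h.natAbs : ℝ) ≤ c * ff Z := by
      rw [Nat.cast_natAbs]
      push_cast
      exact hhR
    have h2 : h.natAbs ≤ R := by rw [hR]; exact Nat.le_floor h1
    rw [Int.abs_eq_natAbs]
    exact_mod_cast h2
  have hqe : (q : ℤ) = (n : ℤ) ^ 2 + h := by rw [hh]; ring
  have hnZ : Z < n := by linarith
  have hhR2 : |(h : ℝ)| ≤ R := by exact_mod_cast hhR'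
  have hqbig : Z < (q : ℝ) := by
    have h1 : (q : ℝ) = (n : ℝ) ^ 2 + h := by exact_mod_cast hqe
    have h2 := (abs_le.mp hhR2).1
    nlinarith
  have hn2 : 2 ≤ n := by
    have : (2 : ℝ) ≤ n := by linarith
    exact_mod_cast this
  have hprime : ∀ p : ℕ, p.Prime → (p : ℝ) ≤ Z → ¬ (p : ℤ) ∣ (n : ℤ) ^ 2 + h := by
    intro p hp hpZ hd
    rw [← hqe] at hd
    have h1 : p ∣ q := by exact_mod_cast hd
    have h2 : p = q := (Nat.prime_dvd_prime_iff_eq hp hq).1 h1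
    rw [h2] at hpZ
    linarith
  by_cases h0 : h = 0
  · rw [h0, add_zero] at hqe
    have h1 : q = n ^ 2 := by exact_mod_cast hqe
    rw [h1] at hq
    exact (Nat.Prime.not_prime_pow (le_refl 2)) hq
  by_cases hsq : IsSquare (-h)
  · obtain ⟨t, ht⟩ := hsq
    obtain ⟨s, hs'⟩ : ∃ s : ℕ, s = t.natAbs := ⟨_, rfl⟩
    have hts : (s : ℤ) * s = -h := by
      rw [hs', ht]
      exact Int.natAbs_mul_self
    have hs0 : 1 ≤ s := by
      rcases Nat.eq_zero_or_pos s with h1 | h1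
      · rw [h1] at hts
        simp at hts
        exact absurd hts h0
      · exact h1
    have hsL : (s : ℝ) ≤ R := by
      have h1 : (s : ℝ) * s = -h := by exact_mod_cast hts
      have h2 := (abs_le.mp hhR2).1
      have h3 : (1 : ℝ) ≤ s := by exact_mod_cast hs0
      nlinarith
    have hsn : s + 2 ≤ n := by
      have : (s : ℝ) + 2 ≤ n := by linarith
      exact_mod_cast this
    have h1 : (q : ℤ) = ((n : ℤ) - s) * ((n : ℤ) + s) := by
      rw [hqe]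
      linear_combination hts
    obtain ⟨d, hd⟩ : ∃ d : ℕ, d = n - s := ⟨_, rfl⟩
    have h2 : q = d * (n + s) := by
      have h3 : (q : ℤ) = (d : ℤ) * ((n : ℤ) + s) := by
        rw [h1, hd]
        push_cast [Nat.cast_sub (by omega : s ≤ n)]
        ring
      exact_mod_cast h3
    rw [h2] at hq
    exact Nat.not_prime_mul (by omega) (by omega) hq
  by_cases hsm : ∀ p : ℕ, p.Prime → (p : ℝ) ≤ y → ¬ ((p : ℤ) ∣ (cl y p : ℤ) ^ 2 + h)
  · have hmem : h ∈ S := by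
      rw [hS, Finset.mem_filter, Finset.mem_filter, Finset.mem_Icc]
      exact ⟨⟨abs_le.mp hhR', h0, hsm⟩, hsq⟩
    obtain ⟨p, hp1, hp2, hp3, hp4⟩ := hxS h hmem
    refine hprime p hp1 ?_ hp4
    linarith
  · push Not at hsm
    obtain ⟨p, hp1, hp2, hp3⟩ := hsm
    have hpy : p ≤ ⌊y⌋₊ := Nat.le_floor hp2
    have hpP : (p : ℤ) ∣ (P : ℤ) := by
      rw [hP, primorial]
      have : p ∈ (Finset.range (⌊y⌋₊ + 1)).filter Nat.Prime := by
        rw [Finset.mem_filter, Finset.mem_range]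
        exact ⟨by omega, hp1⟩
      exact_mod_cast Finset.dvd_prod_of_mem _ this
    have h1 : (p : ℤ) ∣ (n : ℤ) - b0 := hpP.trans hx3
    have h2 : (p : ℤ) ∣ (b0 : ℤ) - (cl y p : ℤ) := by
      have := hb0' p hp1 hpy
      exact (Nat.modEq_iff_dvd.mp this.symm)
    have h3 : (p : ℤ) ∣ (n : ℤ) - (cl y p : ℤ) := by
      have := dvd_add h1 h2
      have e : (n : ℤ) - b0 + ((b0 : ℤ) - (cl y p : ℤ)) = (n : ℤ) - (cl y p : ℤ) := by ring
      rwa [e] at this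
    refine hprime p hp1 (by linarith) ?_
    have h4 := dvd_add (Dvd.dvd.mul_right h3 ((n : ℤ) + (cl y p : ℤ))) hp3
    have e : ((n : ℤ) - (cl y p : ℤ)) * ((n : ℤ) + (cl y p : ℤ)) + ((cl y p : ℤ) ^ 2 + h) =
        (n : ℤ) ^ 2 + h := by ring
    rwa [e] at h4


end

/-- the totient is at most `n` times the product over a set of prime divisors -/
theorem totient_le (n : ℕ) (hn : n ≠ 0) (A : Finset ℕ) (hA : ∀ p ∈ A, p.Prime ∧ p ∣ n) :
    (Nat.totient n : ℝ) ≤ n * ∏ p ∈ A, (1 - (p : ℝ)⁻¹) := by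
  have h1 : (Nat.totient n : ℝ) = n * ∏ p ∈ n.primeFactors, (1 - (p : ℝ)⁻¹) := by
    have h := Nat.totient_eq_mul_prod_factors n
    have h' : ((Nat.totient n : ℚ) : ℝ) = ((n * ∏ p ∈ n.primeFactors, (1 - (p : ℚ)⁻¹) : ℚ) : ℝ) := by
      rw [h]
    push_cast at h'
    exact h'
  rw [h1]
  apply mul_le_mul_of_nonneg_left _ (Nat.cast_nonneg n)
  have hsub : A ⊆ n.primeFactors := fun p hp =>
    Nat.mem_primeFactors.2 ⟨(hA p hp).1, (hA p hp).2, hn⟩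
  have hpos : ∀ p : ℕ, p.Prime → 0 ≤ 1 - (p : ℝ)⁻¹ ∧ 1 - (p : ℝ)⁻¹ ≤ 1 := by
    intro p hp
    have h2 : (1 : ℝ) ≤ p := by exact_mod_cast hp.one_lt.le
    have h3 : (p : ℝ)⁻¹ ≤ 1 := inv_le_one_of_one_le₀ h2
    have h4 : (0 : ℝ) ≤ (p : ℝ)⁻¹ := by positivity
    constructor <;> linarith
  rw [← Finset.prod_sdiff hsub]
  have h5 : ∏ p ∈ n.primeFactors \ A, (1 - (p : ℝ)⁻¹) ≤ 1 := by
    apply Finset.prod_le_one
    · intro p hp
      exact (hpos p (Nat.prime_of_mem_primeFactors (Finset.mem_sdiff.1 hp).1)).1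
    · intro p hp
      exact (hpos p (Nat.prime_of_mem_primeFactors (Finset.mem_sdiff.1 hp).1)).2
  have h6 : 0 ≤ ∏ p ∈ A, (1 - (p : ℝ)⁻¹) := Finset.prod_nonneg fun p hp => (hpos p (hA p hp).1).1
  calc _ ≤ 1 * ∏ p ∈ A, (1 - (p : ℝ)⁻¹) := mul_le_mul_of_nonneg_right h5 h6
    _ = _ := one_mul _

/-- products over the primes in `(W, Y]` -/
theorem ratio : ∃ N₀ : ℕ, ∀ W Y : ℕ, N₀ ≤ W → W ≤ Y →
    ∏ p ∈ (Finset.Ioc W Y).filter Nat.Prime, (1 - (p : ℝ)⁻¹) ≤ 4 * (Real.log W / Real.log Y) := by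
  have h := Pool.Agent.H305R2.mertens_three
  obtain ⟨g, hg⟩ : ∃ g : ℝ, g = Real.exp Real.eulerMascheroniConstant := ⟨_, rfl⟩
  rw [← hg] at h
  have hg0 : 0 < g := by rw [hg]; exact Real.exp_pos _
  have e1 := h.eventually_lt_const (show g < 2 * g by linarith)
  have e2 := h.eventually_const_lt (show g / 2 < g by linarith)
  obtain ⟨N₀, hN₀⟩ := eventually_atTop.1 (e1.and (e2.and (eventually_ge_atTop 3)))
  refine ⟨N₀, fun W Y hW hWY => ?_⟩
  obtain ⟨a1, a2, a3⟩ := hN₀ W hW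
  obtain ⟨b1, b2, b3⟩ := hN₀ Y (hW.trans hWY)
  have hlW : 0 < Real.log W := Real.log_pos (by
    have : (3 : ℝ) ≤ W := by exact_mod_cast a3
    linarith)
  have hlY : 0 < Real.log Y := Real.log_pos (by
    have : (3 : ℝ) ≤ Y := by exact_mod_cast b3
    linarith)
  rw [div_lt_iff₀ hlW] at a1
  rw [lt_div_iff₀ hlY] at b2
  have hpos : ∀ p : ℕ, p.Prime → 0 < 1 - (p : ℝ)⁻¹ := by
    intro p hp
    have h2 : (1 : ℝ) < p := by exact_mod_cast hp.one_lt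
    have h3 : (p : ℝ)⁻¹ < 1 := inv_lt_one_of_one_lt₀ h2
    linarith
  have hsplit : (Finset.Icc 1 Y).filter Nat.Prime =
      (Finset.Icc 1 W).filter Nat.Prime ∪ (Finset.Ioc W Y).filter Nat.Prime := by
    ext p
    simp only [Finset.mem_filter, Finset.mem_union, Finset.mem_Icc, Finset.mem_Ioc]
    constructor
    · rintro ⟨⟨h1, h2⟩, h3⟩
      by_cases h4 : p ≤ W
      · exact Or.inl ⟨⟨h1, h4⟩, h3⟩
      · exact Or.inr ⟨⟨by omega, h2⟩, h3⟩
    · rintro (⟨⟨h1, h2⟩, h3⟩ | ⟨⟨h1, h2⟩, h3⟩)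
      · exact ⟨⟨h1, h2.trans hWY⟩, h3⟩
      · exact ⟨⟨by omega, h2⟩, h3⟩
  have hdisj : Disjoint ((Finset.Icc 1 W).filter Nat.Prime) ((Finset.Ioc W Y).filter Nat.Prime) := by
    rw [Finset.disjoint_left]
    intro p h1 h2
    simp only [Finset.mem_filter, Finset.mem_Icc, Finset.mem_Ioc] at h1 h2
    omega
  rw [hsplit, Finset.prod_union hdisj] at b2
  obtain ⟨PW, hPW⟩ : ∃ PW : ℝ, PW = ∏ p ∈ (Finset.Icc 1 W).filter Nat.Prime, (1 - (p : ℝ)⁻¹)⁻¹ :=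
    ⟨_, rfl⟩
  rw [← hPW] at a1 b2
  obtain ⟨D, hD⟩ : ∃ D : ℝ, D = ∏ p ∈ (Finset.Ioc W Y).filter Nat.Prime, (1 - (p : ℝ)⁻¹) :=
    ⟨_, rfl⟩
  rw [Finset.prod_inv_distrib, ← hD] at b2
  rw [← hD]
  have hD0 : 0 < D := by
    rw [hD]
    exact Finset.prod_pos fun p hp => hpos p (Finset.mem_filter.1 hp).2
  have h1 : g / 2 * Real.log Y * D < PW := by
    have := mul_lt_mul_of_pos_right b2 hD0
    rwa [mul_assoc PW, inv_mul_cancel₀ hD0.ne', mul_one] at this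
  have h2 : g * (Real.log Y * D) < g * (4 * Real.log W) := by nlinarith
  have h3 : Real.log Y * D < 4 * Real.log W := lt_of_mul_lt_mul_left h2 hg0.le
  rw [← mul_div_assoc, le_div_iff₀ hlY]
  linarith

/-- the totient of a number divisible by the medium primes -/
theorem tot_medium : ∀ᶠ y : ℝ in atTop, ∀ n : ℕ, n ≠ 0 →
    (∀ p : ℕ, p.Prime → w0 y < p → (p : ℝ) ≤ y → p ∣ n) →
    (Nat.totient n : ℝ) ≤ n * (4 / 5 * (Real.log (Real.log (Real.log y)) /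
      Real.log (Real.log y))) := by
  obtain ⟨N₀, hN₀⟩ := ratio
  have t1 := Real.tendsto_log_atTop
  have t2 : Tendsto (fun X : ℝ => Real.log (Real.log X)) atTop atTop := t1.comp t1
  have t3 : Tendsto (fun X : ℝ => Real.log (Real.log (Real.log X))) atTop atTop := t1.comp t2
  have e1 := (Real.isLittleO_log_id_atTop.def (show (0 : ℝ) < 1 / 2 by norm_num))
  filter_upwards [t1.eventually e1, t2.eventually e1, t1.eventually_ge_atTop 2,
    t2.eventually_ge_atTop 1, t3.eventually_ge_atTop (10 * Real.log (N₀ + 1) + 10),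
    eventually_ge_atTop 2] with y g1 g2 g3 g4 g5 g6 n hn hdiv
  obtain ⟨l1, hl1⟩ : ∃ l1 : ℝ, l1 = Real.log y := ⟨_, rfl⟩
  rw [← hl1] at g1 g2 g3 g4 g5
  obtain ⟨l2, hl2⟩ : ∃ l2 : ℝ, l2 = Real.log l1 := ⟨_, rfl⟩
  rw [← hl2] at g1 g2 g4 g5
  obtain ⟨l3, hl3⟩ : ∃ l3 : ℝ, l3 = Real.log l2 := ⟨_, rfl⟩
  rw [← hl3] at g2 g5
  rw [← hl1, ← hl2, ← hl3]
  have hN1 : 0 ≤ Real.log ((N₀ : ℝ) + 1) := Real.log_nonneg (by
    have : (0 : ℝ) ≤ N₀ := Nat.cast_nonneg _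
    linarith)
  have hl30 : 0 < l3 := by linarith
  have hl20 : 0 < l2 := by linarith
  have hl10 : 0 < l1 := by linarith
  simp only [id] at g1 g2
  rw [Real.norm_of_nonneg hl20.le, Real.norm_of_nonneg hl10.le] at g1
  rw [Real.norm_of_nonneg hl30.le, Real.norm_of_nonneg hl20.le] at g2
  have hw : w0 y = Real.exp (l1 * l3 / (10 * l2)) := by
    unfold w0
    rw [← hl1, ← hl2, ← hl3]
  obtain ⟨w, hwdef⟩ : ∃ w : ℝ, w = w0 y := ⟨_, rfl⟩
  rw [← hwdef] at hw hdiv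
  have hw0 : 0 < w := by rw [hw]; exact Real.exp_pos _
  have hlw : Real.log w = l1 * l3 / (10 * l2) := by rw [hw, Real.log_exp]
  have hy0 : 0 < y := by linarith
  have hlwle : Real.log w ≤ l1 / 2 := by
    rw [hlw, div_le_iff₀ (by positivity)]
    nlinarith
  have hlwge : Real.log ((N₀ : ℝ) + 1) ≤ Real.log w := by
    rw [hlw, le_div_iff₀ (by positivity)]
    have h1 : 2 * l2 ≤ l1 := by linarith
    nlinarith
  have hwN : (N₀ : ℝ) + 1 ≤ w := (Real.log_le_log_iff (by positivity) hw0).1 hlwge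
  have hwy : w ≤ y := by
    have h1 : Real.log w ≤ Real.log y := by rw [← hl1]; linarith
    exact (Real.log_le_log_iff hw0 hy0).1 h1
  have hW : N₀ ≤ ⌊w⌋₊ := Nat.le_floor (by linarith)
  have hWY : ⌊w⌋₊ ≤ ⌊y⌋₊ := Nat.floor_le_floor hwy
  have hW1 : 1 ≤ ⌊w⌋₊ := Nat.le_floor (by
    push_cast
    have : (0 : ℝ) ≤ N₀ := Nat.cast_nonneg _
    linarith)
  have key := hN₀ ⌊w⌋₊ ⌊y⌋₊ hW hWY
  have hA : ∀ p ∈ (Finset.Ioc ⌊w⌋₊ ⌊y⌋₊).filter Nat.Prime, p.Prime ∧ p ∣ n := by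
    intro p hp
    rw [Finset.mem_filter, Finset.mem_Ioc] at hp
    refine ⟨hp.2, hdiv p hp.2 ((Nat.floor_lt hw0.le).1 hp.1.1) ?_⟩
    exact (Nat.le_floor_iff hy0.le).1 hp.1.2
  refine (totient_le n hn _ hA).trans (mul_le_mul_of_nonneg_left (key.trans ?_) (Nat.cast_nonneg n))
  have hlogW : Real.log (⌊w⌋₊ : ℝ) ≤ Real.log w :=
    Real.log_le_log (by exact_mod_cast hW1) (Nat.floor_le hw0.le)
  have hlogY : l1 / 2 ≤ Real.log (⌊y⌋₊ : ℝ) := by
    have h1 : y / 2 ≤ (⌊y⌋₊ : ℝ) := by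
      have := Nat.lt_floor_add_one y
      linarith
    have h2 : Real.log (y / 2) ≤ Real.log (⌊y⌋₊ : ℝ) := Real.log_le_log (by positivity) h1
    rw [Real.log_div hy0.ne' (by norm_num), ← hl1] at h2
    have := Real.log_two_lt_d9
    linarith
  have hlogW0 : 0 ≤ Real.log (⌊w⌋₊ : ℝ) := Real.log_nonneg (by exact_mod_cast hW1)
  calc 4 * (Real.log (⌊w⌋₊ : ℝ) / Real.log (⌊y⌋₊ : ℝ)) ≤ 4 * (Real.log w / (l1 / 2)) := by
        apply mul_le_mul_of_nonneg_left _ (by norm_num)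
        exact div_le_div₀ (hlogW0.trans hlogW) hlogW (by positivity) hlogY
    _ = 4 / 5 * (l3 / l2) := by
        rw [hlw]
        field_simp
        norm_num

/-- comparison of the iterated logarithms -/
theorem log_cmp (θ : ℝ) (hθ : 0 < θ) (hθ1 : θ ≤ 1) : ∀ᶠ N : ℝ in atTop, ∀ x : ℝ, N < x → x ≤ 2 * N →
    4 / 5 * (Real.log (Real.log (Real.log (Real.log (N ^ θ) / 10))) /
      Real.log (Real.log (Real.log (N ^ θ) / 10))) ≤
    2 * (Real.log (Real.log (Real.log (Real.log x))) / Real.log (Real.log (Real.log x))) := by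
  have t1 := Real.tendsto_log_atTop
  have t2 : Tendsto (fun X : ℝ => Real.log (Real.log X)) atTop atTop := t1.comp t1
  have t3 : Tendsto (fun X : ℝ => Real.log (Real.log (Real.log X))) atTop atTop := t1.comp t2
  have t4 : Tendsto (fun X : ℝ => Real.log (Real.log (Real.log (Real.log X)))) atTop atTop :=
    t1.comp t3
  have ty : Tendsto (fun N : ℝ => Real.log (N ^ θ) / 10) atTop atTop :=
    (t1.comp (tendsto_rpow_atTop hθ)).atTop_div_const (by norm_num)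
  filter_upwards [(t3.comp ty).eventually_ge_atTop 1, (t2.comp ty).eventually_ge_atTop 1,
    (t1.comp ty).eventually_ge_atTop 1, ty.eventually_ge_atTop 1,
    t1.eventually_ge_atTop 10, t2.eventually_ge_atTop (10 * (1 + Real.log 10 - Real.log θ)),
    t3.eventually_ge_atTop 10, t4.eventually_ge_atTop 10, eventually_ge_atTop 10]
    with N g1 g2 g3 g4 g5 g6 g7 g8 g9 x hx1 hx2
  simp only [Function.comp] at g1 g2 g3 g4
  have hN0 : 0 < N := by linarith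
  have hx0 : 0 < x := by linarith
  obtain ⟨y, hy⟩ : ∃ y : ℝ, y = Real.log (N ^ θ) / 10 := ⟨_, rfl⟩
  rw [← hy] at g1 g2 g3 g4 ⊢
  have hyv : y = θ * Real.log N / 10 := by rw [hy, Real.log_rpow hN0]
  have hlx1 : Real.log N ≤ Real.log x := Real.log_le_log hN0 hx1.le
  have hlx2 : Real.log x ≤ 2 * Real.log N := by
    have h1 : Real.log x ≤ Real.log (2 * N) := Real.log_le_log hx0 hx2
    rw [Real.log_mul (by norm_num) hN0.ne'] at h1
    have := Real.log_two_lt_d9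
    linarith
  have hyx : y ≤ Real.log x := by
    rw [hyv]
    nlinarith
  have hy0 : 0 < y := by linarith
  have hlog2 := Real.log_two_lt_d9
  obtain ⟨X1, hX1⟩ : ∃ X1 : ℝ, X1 = Real.log x := ⟨_, rfl⟩
  rw [← hX1] at hlx1 hlx2 hyx ⊢
  have hX10 : 0 < X1 := by linarith
  -- level 1
  have hY1u : Real.log y ≤ Real.log X1 := Real.log_le_log hy0 hyx
  have hY1l : 0.9 * Real.log X1 ≤ Real.log y := by
    have h1 : Real.log y = Real.log θ + Real.log (Real.log N) - Real.log 10 := by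
      rw [hyv, Real.log_div (by positivity) (by norm_num), Real.log_mul hθ.ne' (by linarith)]
    have h2 : Real.log X1 ≤ Real.log 2 + Real.log (Real.log N) := by
      rw [← Real.log_mul (by norm_num) (by linarith)]
      exact Real.log_le_log hX10 hlx2
    linarith
  obtain ⟨Y1, hY1⟩ : ∃ Y1 : ℝ, Y1 = Real.log y := ⟨_, rfl⟩
  obtain ⟨X2, hX2⟩ : ∃ X2 : ℝ, X2 = Real.log X1 := ⟨_, rfl⟩
  rw [← hY1] at g1 g2 g3 hY1u hY1l ⊢
  rw [← hX2] at hY1u hY1l ⊢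
  have hX20 : 0 < X2 := by linarith
  have h09 : -0.2 ≤ Real.log 0.9 := by
    have h1 : (0.9 : ℝ) = 1 / (10 / 9) := by norm_num
    rw [h1, one_div, Real.log_inv]
    have h2 : Real.log (10 / 9) ≤ 10 / 9 - 1 := Real.log_le_sub_one_of_pos (by norm_num)
    linarith
  -- level 2
  have hN2 : Real.log (Real.log N) ≤ X2 := by
    rw [hX2]
    exact Real.log_le_log (by linarith) hlx1
  have hN20 : 0 < Real.log (Real.log N) := by
    have h1 : Real.log θ ≤ 0 := Real.log_nonpos hθ.le hθ1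
    have h2 : 0 ≤ Real.log 10 := Real.log_nonneg (by norm_num)
    linarith
  have hN3 : Real.log (Real.log (Real.log N)) ≤ Real.log X2 := Real.log_le_log hN20 hN2
  have hY2l : 0.9 * Real.log X2 ≤ Real.log Y1 := by
    have h1 : Real.log (0.9 * X2) ≤ Real.log Y1 := Real.log_le_log (by positivity) hY1l
    rw [Real.log_mul (by norm_num) hX20.ne'] at h1
    linarith
  have hY2u : Real.log Y1 ≤ Real.log X2 := Real.log_le_log (by linarith) hY1u
  obtain ⟨Y2, hY2⟩ : ∃ Y2 : ℝ, Y2 = Real.log Y1 := ⟨_, rfl⟩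
  obtain ⟨X3, hX3⟩ : ∃ X3 : ℝ, X3 = Real.log X2 := ⟨_, rfl⟩
  rw [← hY2] at g1 g2 hY2l hY2u ⊢
  rw [← hX3] at hY2l hY2u hN3 ⊢
  have hX30 : 0 < X3 := by linarith
  have hY3u : Real.log Y2 ≤ Real.log X3 := Real.log_le_log (by linarith) hY2u
  have hX40 : 0 ≤ Real.log X3 := by linarith
  have h1 : Real.log Y2 / Y2 ≤ Real.log X3 / (0.9 * X3) :=
    div_le_div₀ hX40 hY3u (by positivity) hY2l
  have h2 : Real.log X3 / (0.9 * X3) = 10 / 9 * (Real.log X3 / X3) := by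
    calc Real.log X3 / (0.9 * X3) = 1 / 0.9 * (Real.log X3 / X3) := by
          rw [div_mul_div_comm, one_mul]
      _ = 10 / 9 * (Real.log X3 / X3) := by norm_num
  have h3 : 0 ≤ Real.log X3 / X3 := by positivity
  rw [h2] at h1
  linarith

open Pool.Agent.H601R2.SqGap (L L_mono L_pow)

/-- Long gaps right after (and before) `n ^ 2` with a small totient of `n`, in short intervals. -/
theorem tot : ∃ c : ℝ, 0 < c ∧ ∀ θ : ℝ, 0 < θ → θ ≤ 1 → ∃ M₀ : ℕ, ∀ M : ℕ, M₀ ≤ M →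
    ∃ n : ℕ, M < n ∧ (n : ℝ) ≤ M + (M : ℝ) ^ θ ∧
      (∀ q : ℕ, q.Prime → c * θ * L n < |(q : ℝ) - (n : ℝ) ^ 2|) ∧
      (Nat.totient n : ℝ) ≤ 2 * n * (Real.log (Real.log (Real.log (Real.log n))) /
        Real.log (Real.log (Real.log n))) := by
  obtain ⟨c0, hc0, Z₀, hZ₀⟩ := main'
  obtain ⟨x₁, hx₁⟩ := L_mono
  refine ⟨c0 / 2, by positivity, fun θ hθ hθ1 => ?_⟩
  have tn : Tendsto (fun N : ℕ => (N : ℝ)) atTop atTop := tendsto_natCast_atTop_atTop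
  have tz : Tendsto (fun N : ℕ => (N : ℝ) ^ θ) atTop atTop := (tendsto_rpow_atTop hθ).comp tn
  have ty : Tendsto (fun N : ℕ => Real.log ((N : ℝ) ^ θ) / 10) atTop atTop :=
    (Real.tendsto_log_atTop.comp tz).atTop_div_const (by norm_num)
  apply eventually_atTop.1
  filter_upwards [tn.eventually (L_pow θ hθ hθ1), tz.eventually_ge_atTop Z₀,
    tn.eventually_ge_atTop (max x₁ 1), ty.eventually tot_medium,
    tn.eventually (log_cmp θ hθ hθ1)] with M g1 g2 g3 g4 g5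
  have hM1 : (1 : ℝ) ≤ M := (le_max_right _ _).trans g3
  have hMx : x₁ ≤ M := (le_max_left _ _).trans g3
  have hZM : (M : ℝ) ^ θ ≤ M := by
    calc (M : ℝ) ^ θ ≤ (M : ℝ) ^ (1 : ℝ) := Real.rpow_le_rpow_of_exponent_le hM1 hθ1
      _ = M := Real.rpow_one _
  obtain ⟨n, h1, h2, h3, h4⟩ := hZ₀ ((M : ℝ) ^ θ) g2 M hZM
  have hn0 : n ≠ 0 := by
    rintro rfl
    rw [Nat.cast_zero] at h1
    linarith
  have hn2 : (n : ℝ) ≤ 2 * M := by linarith
  refine ⟨n, by exact_mod_cast h1, h2, fun q hq => ?_, ?_⟩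
  · refine lt_of_le_of_lt ?_ (h4 q hq)
    have h5 : L n ≤ L (2 * M) := hx₁ _ _ (hMx.trans h1.le) hn2
    have h6 : c0 / 2 * θ * L n ≤ c0 / 2 * θ * L (2 * M) :=
      mul_le_mul_of_nonneg_left h5 (by positivity)
    have h7 : c0 * (θ / 2 * L (2 * M)) ≤ c0 * L ((M : ℝ) ^ θ) :=
      mul_le_mul_of_nonneg_left g1 hc0.le
    have h8 : c0 * L ((M : ℝ) ^ θ) = c0 * ff ((M : ℝ) ^ θ) := rfl
    linarith
  · have h5 := g4 n hn0 h3
    have h6 := g5 n h1 hn2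
    have h7 : (0 : ℝ) ≤ n := Nat.cast_nonneg n
    calc (Nat.totient n : ℝ) ≤ _ := h5
      _ ≤ n * (2 * (Real.log (Real.log (Real.log (Real.log n))) /
        Real.log (Real.log (Real.log n)))) := mul_le_mul_of_nonneg_left h6 h7
      _ = _ := by ring

end Pool.Agent.H601R2.SqTot
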