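import Pool.Agent.Results.MP_188a10_nt.WeightedExceptional

set_option autoImplicit false

namespace Pool.Agent.H601R2.SqUp

open Finset
open Pool.Agent.Results.MP_188a10_nt.WeightedExceptional

/-- `li` on `[2,N]` -/
lemma li_bounds (y : ℝ) (hy : 2 ≤ y) : 0 ≤ li y ∧ li y ≤ 2 * y := by
  unfold li
  constructor
  · apply intervalIntegral.integral_nonneg hy
    intro t ht
    have : 0 < Real.log t := Real.log_pos (by linarith [ht.1])
    positivity
  · have h := intervalIntegral.norm_integral_le_of_norm_le_const (a := (2 : ℝ)) (b := y)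
      (f := fun t => 1 / Real.log t) (C := 2) (by
        intro t ht
        rw [Set.uIoc_of_le hy] at ht
        have h3 : Real.log 2 ≤ Real.log t := Real.log_le_log (by norm_num) ht.1.le
        have := Real.log_two_gt_d9
        rw [Real.norm_eq_abs, abs_of_pos (by
          have : 0 < Real.log t := by linarith
          positivity), div_le_iff₀ (by linarith)]
        linarith)
    rw [Real.norm_eq_abs, abs_of_nonneg (by linarith : (0:ℝ) ≤ y - 2)] at h
    have := le_abs_self (∫ t in (2 : ℝ)..y, 1 / Real.log t)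
    linarith

lemma primesAP_le (y : ℝ) (hy : 0 ≤ y) (d : ℕ) (l : ZMod d) : (primesAP y d l : ℝ) ≤ y := by
  unfold primesAP
  have h1 : (((Icc 1 ⌊y⌋₊).filter (fun p : ℕ => p.Prime ∧ (p : ZMod d) = l)).card : ℝ) ≤ (⌊y⌋₊ : ℝ) := by
    have : ((Icc 1 ⌊y⌋₊).filter (fun p : ℕ => p.Prime ∧ (p : ZMod d) = l)).card ≤ (Icc 1 ⌊y⌋₊).card :=
      card_filter_le _ _
    rw [Nat.card_Icc, Nat.add_sub_cancel] at this
    exact_mod_cast this
  exact h1.trans (Nat.floor_le hy)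

lemma err_bound (y : ℝ) (hy : 2 ≤ y) (d : ℕ) (hd : 1 ≤ d) (l : ZMod d) :
    |(primesAP y d l : ℝ) - li y / (Nat.totient d : ℝ)| ≤ 2 * y := by
  have hφ : (1 : ℝ) ≤ Nat.totient d := by exact_mod_cast Nat.totient_pos.mpr (by omega)
  obtain ⟨h1, h2⟩ := li_bounds y hy
  have h3 := primesAP_le y (by linarith) d l
  have h4 : (0:ℝ) ≤ primesAP y d l := Nat.cast_nonneg _
  have h5 : 0 ≤ li y / (Nat.totient d : ℝ) := by positivity
  have h6 : li y / (Nat.totient d : ℝ) ≤ 2 * y := (div_le_self h1 hφ).trans h2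
  rw [abs_le]
  constructor <;> linarith

lemma le_EMax (x : ℝ) (hx : 2 ≤ x) (N : ℕ) (hxN : x ≤ N) (d : ℕ) (hd : 1 ≤ d) (l : (ZMod d)ˣ) :
    |(primesAP x d (l : ZMod d) : ℝ) - li x / (Nat.totient d : ℝ)| ≤ EMax N d l := by
  unfold EMax
  refine le_ciSup (f := fun y : Set.Icc (2 : ℝ) N =>
    |(primesAP y d (l : ZMod d) : ℝ) - li y / (Nat.totient d : ℝ)|) ?_ ⟨x, hx, hxN⟩
  refine ⟨2 * N, ?_⟩
  rintro z ⟨y, rfl⟩
  beta_reduce
  have h1 := err_bound y y.2.1 d hd l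
  have h2 := y.2.2
  linarith

lemma EMax_nonneg (N d : ℕ) (l : (ZMod d)ˣ) : 0 ≤ EMax N d l := Real.iSup_nonneg fun _ => abs_nonneg _

lemma EOff_nonneg (N d : ℕ) (X : Finset (ZMod d)ˣ) : 0 ≤ EOff N d X := Real.iSup_nonneg fun _ => EMax_nonneg _ _ _

lemma le_EOff (N d : ℕ) (hd : 1 ≤ d) (X : Finset (ZMod d)ˣ) (l : {l : (ZMod d)ˣ // l ∉ X}) :
    EMax N d l ≤ EOff N d X := by
  have : NeZero d := ⟨by omega⟩
  unfold EOff
  exact le_ciSup (f := fun l : {l : (ZMod d)ˣ // l ∉ X} => EMax N d l) (Set.finite_range _).bddAbove l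

lemma log_facts (x : ℝ) (hx : 3 ≤ x) : 1 ≤ Real.log x ∧ Real.log (x + 1) ≤ Real.log x ^ 4 := by
  have h0 : (0:ℝ) < x := by linarith
  have hlog3 : (1.0939:ℝ) ≤ Real.log 3 := by
    have he := Real.exp_one_lt_d9
    have h1 : Real.log 3 = 1 + Real.log (3 / Real.exp 1) := by
      rw [Real.log_div (by norm_num) (Real.exp_pos 1).ne', Real.log_exp]; ring
    have h2 : 1 - (3 / Real.exp 1)⁻¹ ≤ Real.log (3 / Real.exp 1) :=
      Real.one_sub_inv_le_log_of_pos (by positivity)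
    rw [inv_div] at h2
    have h3 : Real.exp 1 / 3 ≤ 0.90610 := by linarith
    linarith
  have hl : (1.0939:ℝ) ≤ Real.log x := hlog3.trans (Real.log_le_log (by norm_num) hx)
  refine ⟨by linarith, ?_⟩
  have h1 : Real.log (x + 1) ≤ Real.log x + 1 / 3 := by
    have h2 : Real.log (x + 1) = Real.log x + Real.log (1 + 1 / x) := by
      rw [← Real.log_mul h0.ne' (by positivity)]
      congr 1
      field_simp
    have h3 : Real.log (1 + 1 / x) ≤ (1 + 1 / x) - 1 := Real.log_le_sub_one_of_pos (by positivity)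
    have h4 : 1 / x ≤ 1 / 3 := one_div_le_one_div_of_le (by norm_num) hx
    linarith
  set t := Real.log x
  have h5 : (1.0939:ℝ) ^ 3 ≤ t ^ 3 := pow_le_pow_left₀ (by norm_num) hl 3
  have h6 : (0.3089:ℝ) ≤ t ^ 3 - 1 := by norm_num at h5 ⊢; linarith
  have h7 : (1.0939:ℝ) * 0.3089 ≤ t * (t ^ 3 - 1) := mul_le_mul hl h6 (by norm_num) (by linarith)
  have h8 : (1:ℝ) / 3 ≤ 1.0939 * 0.3089 := by norm_num
  nlinarith

theorem upper (U : ℕ) : ∃ (B : ℕ) (C : ℝ), ∀ x : ℝ, 3 ≤ x →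
    (∃ X : (d : ℕ) → Finset (ZMod d)ˣ,
      (∀ d, 1 ≤ d → ((X d).card : ℝ) ≤ (d : ℝ) ^ 2 * Real.log x ^ B / x) ∧
      ∃ G : ℕ → ℝ, (∀ d, 0 ≤ G d) ∧
        (∀ d, 1 ≤ d → ∀ l : (ZMod d)ˣ, l ∉ X d →
          |(primesAP x d (l : ZMod d) : ℝ) - li x / (Nat.totient d : ℝ)| ≤ G d) ∧
        ∑ d ∈ Icc 1 ⌊x⌋₊, G d ≤ C * (x / Real.log x ^ U)) ∧
    (∀ A : ℝ, 1 ≤ A → ∀ D : ℕ, (D : ℝ) ≤ x / Real.log x ^ B →
      (D : ℝ) ^ 2 ≤ A * x / Real.log x ^ B →
      ∀ L : (d : ℕ) → Finset (ZMod d)ˣ, (∀ d, ((L d).card : ℝ) ≤ A) →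
      ∑ d ∈ Icc 1 D, ∑ l ∈ L d,
        |(primesAP x d (l : ZMod d) : ℝ) - li x / (Nat.totient d : ℝ)| ≤
          C * (A * x / Real.log x ^ U)) := by
  obtain ⟨B, C, h⟩ := result 1 le_rfl U
  refine ⟨4 * B, 2 * max C 0, fun x hx => ?_⟩
  have hx0 : (0:ℝ) < x := by linarith
  obtain ⟨hl1, hl4⟩ := log_facts x hx
  have hl0 : 0 < Real.log x := by linarith
  obtain ⟨N, hN⟩ : ∃ N : ℕ, N = ⌈x⌉₊ := ⟨_, rfl⟩
  have hxN : x ≤ N := by rw [hN]; exact Nat.le_ceil x
  have hNx : (N:ℝ) ≤ x + 1 := by rw [hN]; exact (Nat.ceil_lt_add_one hx0.le).le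
  have hN3 : 3 ≤ N := by
    have : (3:ℝ) ≤ N := hx.trans hxN
    exact_mod_cast this
  have hN0 : (0:ℝ) < N := by linarith
  have hlogN : Real.log N ≤ Real.log x ^ 4 := (Real.log_le_log hN0 hNx).trans hl4
  have hlogN2 : Real.log x ≤ Real.log N := Real.log_le_log hx0 hxN
  have hlogN0 : 0 < Real.log N := by linarith
  have hpB : Real.log N ^ B ≤ Real.log x ^ (4 * B) := by
    rw [pow_mul]
    exact pow_le_pow_left₀ hlogN0.le hlogN B
  have hpB0 : 0 < Real.log N ^ B := by positivity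
  have hNU : (N:ℝ) / Real.log N ^ U ≤ 2 * (x / Real.log x ^ U) := by
    have h1 : (N:ℝ) ≤ 2 * x := by linarith
    calc (N:ℝ) / Real.log N ^ U ≤ 2 * x / Real.log x ^ U := by gcongr
      _ = _ := by ring
  have hNU0 : 0 ≤ (N:ℝ) / Real.log N ^ U := by positivity
  have hC : C ≤ max C 0 := le_max_left _ _
  have hC0 : 0 ≤ max C 0 := le_max_right _ _
  obtain ⟨⟨X, hX, hsum⟩, hfam⟩ := h N hN3
  constructor
  · refine ⟨X, fun d hd => ?_, fun d => EOff N d (X d), fun d => EOff_nonneg _ _ _, ?_, ?_⟩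
    · refine (hX d hd).trans ?_
      gcongr
    · intro d hd l hl
      exact (le_EMax x (by linarith) N hxN d hd l).trans (le_EOff N d hd (X d) ⟨l, hl⟩)
    · have h1 : ∑ d ∈ Icc 1 ⌊x⌋₊, EOff N d (X d) ≤ ∑ d ∈ Icc 1 N, EOff N d (X d) := by
        apply sum_le_sum_of_subset_of_nonneg
        · apply Icc_subset_Icc le_rfl
          rw [hN]
          exact Nat.floor_le_ceil x
        · intro d _ _
          exact EOff_nonneg _ _ _
      simp only [one_pow, one_mul] at hsum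
      calc _ ≤ _ := h1
        _ ≤ C * (N / Real.log N ^ U) := hsum
        _ ≤ max C 0 * (N / Real.log N ^ U) := mul_le_mul_of_nonneg_right hC hNU0
        _ ≤ max C 0 * (2 * (x / Real.log x ^ U)) := mul_le_mul_of_nonneg_left hNU hC0
        _ = _ := by ring
  · intro A hA D hD1 hD2 L hL
    have hA0 : 0 ≤ A := by linarith
    have hD1' : (D : ℝ) ≤ N / Real.log N ^ B := hD1.trans (by gcongr)
    have hD2' : (D : ℝ) ^ 2 ≤ A * N / Real.log N ^ B := hD2.trans (by gcongr)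
    have h1 := hfam A hA D hD1' hD2' L hL
    simp only [one_pow, one_mul] at h1
    have h2 : ∑ d ∈ Icc 1 D, ∑ l ∈ L d,
        |(primesAP x d (l : ZMod d) : ℝ) - li x / (Nat.totient d : ℝ)| ≤
        ∑ d ∈ Icc 1 D, ∑ l ∈ L d, EMax N d l := by
      apply sum_le_sum
      intro d hd
      rw [mem_Icc] at hd
      apply sum_le_sum
      intro l _
      exact le_EMax x (by linarith) N hxN d hd.1 l
    calc _ ≤ _ := h2
      _ ≤ C * (A * N / Real.log N ^ U) := h1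
      _ = A * (C * (N / Real.log N ^ U)) := by ring
      _ ≤ A * (max C 0 * (N / Real.log N ^ U)) := by gcongr
      _ ≤ A * (max C 0 * (2 * (x / Real.log x ^ U))) := by gcongr
      _ = _ := by ring

end Pool.Agent.H601R2.SqUp
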